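import Pool.Agent.Y549.SP.Stm3

set_option autoImplicit false

/-! Few squarefree `m` have a large sum `ss`, second version. -/

namespace Pool.Agent.Y549.SP.BAD3

open Finset Real

lemma card_oq (Q : Set ℕ) (y : ℕ) : (oq Q y).card ≤ y := by
  classical
  have h : oq Q y ⊆ Icc 1 y := by
    intro p hp
    rw [oq, mem_filter, mem_range] at hp
    rw [mem_Icc]
    exact ⟨hp.2.1.one_lt.le, by omega⟩
  refine (card_le_card h).trans ?_
  rw [Nat.card_Icc]
  omega

lemma card_sq (X : ℕ) : (sq X).card ≤ X := by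
  classical
  rw [sq]
  refine (card_filter_le _ _).trans ?_
  rw [Nat.card_Icc]
  omega

theorem main (h0 : S_BL) (h1 : S_LS3) (h2 : S_NUM2) : S_BAD3 := by
  classical
  intro A ρ κ η ε hρ hρ1 hA hκ hκ1 hη hη1 hε
  obtain ⟨c, K, hc, hK, hN⟩ := h2 A ρ κ η ε hρ hρ1 hA hκ hκ1 hη hη1 hε
  obtain ⟨C, hC, hL⟩ := h1 (ε / 2) (by positivity)
  refine ⟨c, K * (C + 1), hc, by positivity, ?_⟩
  intro D Q X y hX hy1 hy2 hk
  have hXpos : (0 : ℝ) < X := by exact_mod_cast hX
  obtain ⟨E, hE⟩ : ∃ E : ℝ, E = (X : ℝ) ^ (1 - ρ + 1 / A + ε) := ⟨_, rfl⟩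
  have hE0 : 0 < E := by rw [hE]; positivity
  have hfin : K * E ≤ K * (C + 1) * E := by
    have : 0 ≤ K * C * E := by positivity
    nlinarith
  rw [← hE]
  rcases hN X y (oq Q y).card hX hy1 hy2 hk (card_oq Q y) with hs | ⟨r, k, b, hb, a1, a2, a3, a4, a5, a6⟩
  · rw [← hE] at hs
    refine le_trans ?_ (hs.trans hfin)
    have h3 := (card_filter_le (sq X) (fun m => η * (oq Q y).card ≤ (|sd Q D m y| : ℝ))).trans
      (card_sq X)
    exact_mod_cast h3
  · rw [← hE] at a6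
    obtain ⟨B, b1, b2, b3⟩ := h0 (oq Q y) k b a2 a3
    have hcov : (sq X).filter (fun m => η * (oq Q y).card ≤ (|sd Q D m y| : ℝ)) ⊆
        ((range k).powersetCard r).biUnion (fun J => (sq X).filter (fun m : ℕ => ∀ i ∈ J,
          η / 4 * b ≤ |((∑ p ∈ B i, jacobiSym (D * (m : ℤ)) p : ℤ) : ℝ)|)) := by
      intro m hm
      rw [mem_filter] at hm
      obtain ⟨J, c1, c2, c3⟩ := b3 (fun p => jacobiSym (D * (m : ℤ)) p) η r (fun p _ => by
        rcases jacobiSym.trichotomy (D * (m : ℤ)) p with h | h | h <;> simp [h]) hη hη1 a4 a5 hm.2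
      rw [mem_biUnion]
      exact ⟨J, mem_powersetCard.mpr ⟨c1, c2⟩, mem_filter.mpr ⟨hm.1, c3⟩⟩
    obtain ⟨W, hW⟩ : ∃ W : ℝ, W = (η / 4 * b) ^ (2 * r) := ⟨_, rfl⟩
    have hb' : (0 : ℝ) < b := by exact_mod_cast hb
    have hW0 : 0 < W := by rw [hW]; positivity
    have heach : ∀ J ∈ (range k).powersetCard r,
        (((sq X).filter (fun m : ℕ => ∀ i ∈ J,
          η / 4 * b ≤ |((∑ p ∈ B i, jacobiSym (D * (m : ℤ)) p : ℤ) : ℝ)|)).card : ℝ) * W ≤
          C * (X : ℝ) ^ (1 + ε / 2) * (b : ℝ) ^ r := by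
      intro J hJ
      rw [mem_powersetCard] at hJ
      have hlt : ∀ i ∈ J, i < k := fun i hi => mem_range.mp (hJ.1 hi)
      have h3 := hL D B X y b J (η / 4 * b) hX (by rw [hJ.2]; exact a1)
        (fun i hi p hp => by
          have h4 := (b1 i (hlt i hi)).1 hp
          rw [oq, mem_filter, mem_range] at h4
          exact ⟨h4.2.1, h4.2.2.1, by omega⟩)
        (fun i hi => (b1 i (hlt i hi)).2)
        (fun i hi j hj hij => b2 i (hlt i hi) j (hlt j hj) hij) (by positivity)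
      rw [hJ.2, ← hW] at h3
      exact h3
    have h5 : (((sq X).filter (fun m => η * (oq Q y).card ≤ (|sd Q D m y| : ℝ))).card : ℝ) * W ≤
        2 ^ k * (C * (X : ℝ) ^ (1 + ε / 2) * (b : ℝ) ^ r) := by
      calc _ ≤ (∑ J ∈ (range k).powersetCard r, (((sq X).filter (fun m : ℕ => ∀ i ∈ J,
          η / 4 * b ≤ |((∑ p ∈ B i, jacobiSym (D * (m : ℤ)) p : ℤ) : ℝ)|)).card : ℝ)) * W := by
            refine mul_le_mul_of_nonneg_right ?_ hW0.le
            exact_mod_cast (card_le_card hcov).trans card_biUnion_le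
        _ = ∑ J ∈ (range k).powersetCard r, (((sq X).filter (fun m : ℕ => ∀ i ∈ J,
          η / 4 * b ≤ |((∑ p ∈ B i, jacobiSym (D * (m : ℤ)) p : ℤ) : ℝ)|)).card : ℝ) * W := by
            rw [sum_mul]
        _ ≤ ∑ J ∈ (range k).powersetCard r, C * (X : ℝ) ^ (1 + ε / 2) * (b : ℝ) ^ r :=
            sum_le_sum heach
        _ = (k.choose r : ℝ) * (C * (X : ℝ) ^ (1 + ε / 2) * (b : ℝ) ^ r) := by
            rw [sum_const, card_powersetCard, card_range, nsmul_eq_mul]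
        _ ≤ _ := by
            refine mul_le_mul_of_nonneg_right ?_ (by positivity)
            exact_mod_cast Nat.choose_le_two_pow k r
    rw [← hW] at a6
    have h6 : (((sq X).filter (fun m => η * (oq Q y).card ≤ (|sd Q D m y| : ℝ))).card : ℝ) * W ≤
        (K * (C + 1) * E) * W := by
      calc _ ≤ 2 ^ k * (C * (X : ℝ) ^ (1 + ε / 2) * (b : ℝ) ^ r) := h5
        _ = C * ((X : ℝ) ^ (1 + ε / 2) * 2 ^ k * (b : ℝ) ^ r) := by ring
        _ ≤ C * (K * E * W) := mul_le_mul_of_nonneg_left a6 hC.le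
        _ ≤ _ := by
          have : 0 ≤ K * E * W := by positivity
          nlinarith
    exact le_of_mul_le_mul_right h6 hW0

end Pool.Agent.Y549.SP.BAD3
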