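import Pool.Agent.Y549.SP.Stm2

set_option autoImplicit false

/-! Project SP2 (helper549): a large sum of numbers in `{-1, 0, 1}` is large on many blocks. -/

namespace Pool.Agent.Y549.SP.BL

open Finset

theorem blocks (P : Finset ℕ) (b : ℕ) : ∀ k : ℕ, k * b ≤ P.card →
    ∃ B : ℕ → Finset ℕ, (∀ i < k, B i ⊆ P ∧ (B i).card = b) ∧
      (∀ i < k, ∀ j < k, i ≠ j → Disjoint (B i) (B j)) := by
  intro k
  induction k with
  | zero =>
    intro _
    exact ⟨fun _ => ∅, fun i hi => absurd hi (Nat.not_lt_zero i),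
      fun i hi => absurd hi (Nat.not_lt_zero i)⟩
  | succ k ih =>
    intro hk
    have hk' : k * b + b ≤ P.card := by
      have : (k + 1) * b = k * b + b := by ring
      omega
    obtain ⟨B, hB, hD⟩ := ih (by omega)
    have hU : ((range k).biUnion B).card ≤ k * b := by
      refine le_trans card_biUnion_le ?_
      refine le_trans (sum_le_sum (g := fun _ => b) (fun i hi => (hB i (mem_range.1 hi)).2.le)) ?_
      simp
    have hc : b ≤ (P \ (range k).biUnion B).card := by
      have := le_card_sdiff ((range k).biUnion B) P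
      omega
    obtain ⟨D, hDs, hDc⟩ := exists_subset_card_eq hc
    have hdis : ∀ i < k, Disjoint (B i) D := by
      intro i hi
      rw [disjoint_left]
      intro a ha haD
      have := (mem_sdiff.1 (hDs haD)).2
      exact this (mem_biUnion.2 ⟨i, mem_range.2 hi, ha⟩)
    refine ⟨fun i => if i < k then B i else D, ?_, ?_⟩
    · intro i hi
      by_cases h : i < k
      · simp only [h, if_true]
        exact hB i h
      · simp only [h, if_false]
        exact ⟨hDs.trans sdiff_subset, hDc⟩
    · intro i hi j hj hij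
      by_cases h : i < k <;> by_cases h' : j < k
      · simp only [h, h', if_true]
        exact hD i h j h' hij
      · simp only [h, h', if_true, if_false]
        exact hdis i h
      · simp only [h, h', if_true, if_false]
        exact (hdis j h').symm
      · omega

theorem main : S_BL := by
  classical
  intro P k b h1 h2
  obtain ⟨B, hB, hD⟩ := blocks P b k h1
  refine ⟨B, hB, hD, ?_⟩
  intro x η r hx hη hη1 hr h4 hbig
  set U : Finset ℕ := (range k).biUnion B with hU
  have hUP : U ⊆ P := by
    intro a ha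
    obtain ⟨i, hi, ha⟩ := mem_biUnion.1 ha
    exact (hB i (mem_range.1 hi)).1 ha
  have hUc : U.card = k * b := by
    rw [hU, card_biUnion (fun i hi j hj hij => hD i (mem_range.1 hi) j (mem_range.1 hj) hij),
      sum_congr rfl (fun i hi => (hB i (mem_range.1 hi)).2)]
    simp
  have hUs : ∑ p ∈ U, x p = ∑ i ∈ range k, ∑ p ∈ B i, x p := by
    rw [hU]
    exact sum_biUnion (fun i hi j hj hij =>
      hD i (mem_range.1 (mem_coe.1 hi)) j (mem_range.1 (mem_coe.1 hj)) hij)
  have hsplit : ∑ p ∈ P, x p = ∑ i ∈ range k, ∑ p ∈ B i, x p + ∑ p ∈ P \ U, x p := by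
    rw [← hUs, add_comm, sum_sdiff hUP]
  have habs : ∀ T : Finset ℕ, T ⊆ P → |((∑ p ∈ T, x p : ℤ) : ℝ)| ≤ T.card := by
    intro T hT
    have h : |∑ p ∈ T, x p| ≤ (T.card : ℤ) := by
      refine le_trans (abs_sum_le_sum_abs _ _) ?_
      refine le_trans (sum_le_sum (g := fun _ => (1 : ℤ)) (fun p hp => hx p (hT hp))) ?_
      simp
    have h' : ((|∑ p ∈ T, x p| : ℤ) : ℝ) ≤ ((T.card : ℤ) : ℝ) := by exact_mod_cast h
    rw [Int.cast_abs] at h'
    simpa using h'
  have hrest : |((∑ p ∈ P \ U, x p : ℤ) : ℝ)| ≤ k := by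
    refine le_trans (habs _ sdiff_subset) ?_
    have : (P \ U).card = P.card - k * b := by
      rw [card_sdiff_of_subset hUP, hUc]
    rw [this]
    have : P.card - k * b ≤ k := by omega
    exact_mod_cast this
  set J0 : Finset ℕ := (range k).filter (fun i => η / 4 * b ≤ |((∑ p ∈ B i, x p : ℤ) : ℝ)|) with hJ0
  have hsum : |((∑ i ∈ range k, ∑ p ∈ B i, x p : ℤ) : ℝ)| ≤ J0.card * b + k * (η / 4 * b) := by
    rw [Int.cast_sum]
    refine le_trans (abs_sum_le_sum_abs _ _) ?_
    rw [← sum_filter_add_sum_filter_not (range k)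
      (fun i => η / 4 * b ≤ |((∑ p ∈ B i, x p : ℤ) : ℝ)|)]
    refine add_le_add ?_ ?_
    · refine le_trans (sum_le_sum (g := fun _ => (b : ℝ)) ?_) ?_
      · intro i hi
        have hi' := mem_range.1 (mem_filter.1 hi).1
        have := habs (B i) (hB i hi').1
        rwa [(hB i hi').2] at this
      · simp [hJ0]
    · refine le_trans (sum_le_sum (g := fun _ => (η / 4 * b : ℝ)) ?_) ?_
      · intro i hi
        exact (not_le.1 (mem_filter.1 hi).2).le
      · rw [sum_const, nsmul_eq_mul]
        have hb : 0 ≤ η / 4 * (b : ℝ) := by positivity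
        refine mul_le_mul_of_nonneg_right ?_ hb
        have := card_filter_le (range k)
          (fun i => ¬ η / 4 * b ≤ |((∑ p ∈ B i, x p : ℤ) : ℝ)|)
        rw [card_range] at this
        exact_mod_cast this
  have hJr : r ≤ J0.card := by
    have hP : (k : ℝ) * b ≤ P.card := by exact_mod_cast h1
    have hall : η * P.card - k ≤ J0.card * b + k * (η / 4 * b) := by
      have e1 : ((∑ p ∈ P, x p : ℤ) : ℝ) = ((∑ i ∈ range k, ∑ p ∈ B i, x p : ℤ) : ℝ) +
          ((∑ p ∈ P \ U, x p : ℤ) : ℝ) := by
        rw [hsplit]; push_cast; ring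
      rw [e1] at hbig
      have := abs_add_le (((∑ i ∈ range k, ∑ p ∈ B i, x p : ℤ) : ℝ))
        (((∑ p ∈ P \ U, x p : ℤ) : ℝ))
      linarith
    rcases Nat.eq_zero_or_pos b with hb | hb
    · have : J0 = range k := by
        rw [hJ0]
        refine filter_true_of_mem ?_
        intro i _
        rw [hb]
        simp
      rw [this, card_range]
      have hk0 : (0 : ℝ) ≤ k := by positivity
      have : (r : ℝ) ≤ k := by nlinarith [(Nat.cast_nonneg r : (0 : ℝ) ≤ (r : ℝ))]
      exact_mod_cast this
    · have hb' : (0 : ℝ) < b := by exact_mod_cast hb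
      have h5 : η * (k * b) ≤ η * P.card := mul_le_mul_of_nonneg_left hP hη.le
      have h6 : η * k / 2 * b ≤ J0.card * b := by nlinarith
      have h7 : η * k / 2 ≤ J0.card := le_of_mul_le_mul_right h6 hb'
      have : (r : ℝ) ≤ J0.card := by linarith
      exact_mod_cast this
  obtain ⟨J, hJs, hJc⟩ := exists_subset_card_eq hJr
  refine ⟨J, hJs.trans (filter_subset _ _), hJc, ?_⟩
  intro i hi
  exact (mem_filter.1 (hJs hi)).2

end Pool.Agent.Y549.SP.BL
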