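import Pool.Agent.Y549.SP.Stm2
import Pool.Agent.Y854.GM.Win

set_option autoImplicit false

/-! Small split primes in sparse sets: the final assembly. -/

namespace Pool.Agent.Y549.SP.Fin2

open Finset Real

/-- the threshold of the question -/
noncomputable def thr (d : ℤ) : ℝ :=
  Real.log |(d : ℝ)| ^ 2 * Real.log (Real.log |(d : ℝ)|) ^ 2

/-- the number of the primes in `Q` below the threshold which split -/
noncomputable def NQ (Q : Set ℕ) (d : ℤ) : ℕ := Set.ncard {p : ℕ | p.Prime ∧ p ∈ Q ∧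
  (p : ℝ) < thr d ∧ ¬ (p : ℤ) ∣ d ∧ ∃ x : ℤ, (4 * (p : ℤ)) ∣ x ^ 2 - d}

/-- the number of the primes in `Q` below the threshold -/
noncomputable def MQ (Q : Set ℕ) (d : ℤ) : ℕ := Set.ncard {p : ℕ | p.Prime ∧ p ∈ Q ∧
  (p : ℝ) < thr d}

lemma mf {p : ℕ → Prop} {dp : DecidablePred p} {s : Finset ℕ} {a : ℕ}
    (h : a ∈ @Finset.filter ℕ p dp s) : a ∈ s ∧ p a := (@Finset.mem_filter ℕ p dp s a).mp h

lemma neg_natAbs {d : ℤ} (hd : NegFund d) : -(d.natAbs : ℤ) = d := by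
  have := hd.1
  omega

lemma half_mono {Q : Set ℕ} {A c η η' : ℝ} {d : ℤ} (h : η ≤ η') (h1 : Half Q A c η d) :
    Half Q A c η' d := fun y hy1 hy2 =>
  (h1 y hy1 hy2).trans (mul_le_mul_of_nonneg_right h (Nat.cast_nonneg _))

open Classical in
lemma cnt_le (R : ℤ → Prop) (X : ℕ) : {d : ℤ | NegFund d ∧ |d| ≤ X ∧ R d}.ncard ≤
    ((Icc 1 X).filter (fun t : ℕ => NegFund (-(t : ℤ)) ∧ R (-(t : ℤ)))).card := by
  have hsub : {d : ℤ | NegFund d ∧ |d| ≤ X ∧ R d} ⊆ (fun t : ℕ => -(t : ℤ)) ''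
      (((Icc 1 X).filter (fun t : ℕ => NegFund (-(t : ℤ)) ∧ R (-(t : ℤ))) : Finset ℕ) : Set ℕ) := by
    rintro d ⟨h1, h2, h3⟩
    refine ⟨d.natAbs, ?_, neg_natAbs h1⟩
    rw [mem_coe, mem_filter, mem_Icc, neg_natAbs h1]
    have h4 := h1.1
    rw [abs_le] at h2
    exact ⟨⟨by omega, by omega⟩, h1, h3⟩
  have h1 := Set.ncard_le_ncard hsub ((Finset.finite_toSet _).image _)
  have h2 := h1.trans (Set.ncard_image_le (Finset.finite_toSet _))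
  rwa [Set.ncard_coe_finset] at h2

lemma part1 (hC : S_CNT2) (A ρ η ε : ℝ) (Q : Set ℕ) (hρ : 0 < ρ) (hρ1 : ρ ≤ 1) (hA : 1 < A * ρ)
    (hη : 0 < η) (hε : 0 < ε) (hQ : Thick Q ρ) : ∃ c K : ℝ, 0 < c ∧ 0 < K ∧ ∀ X : ℕ, 1 ≤ X →
      ({d : ℤ | NegFund d ∧ |d| ≤ X ∧ ¬ Half Q A c η d}.ncard : ℝ) ≤
        K * (X : ℝ) ^ (1 - ρ + 1 / A + ε) := by
  classical
  obtain ⟨c, K, hc, hK, h⟩ := hC A ρ η ε Q hρ hρ1 hA hη hε hQ
  refine ⟨c, K, hc, hK, fun X hX => ?_⟩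
  refine le_trans (Nat.cast_le.mpr (cnt_le (fun d => ¬ Half Q A c η d) X)) (h X _ hX ?_)
  intro t ht
  have ht' := mf ht
  have ht2 := mem_Icc.mp ht'.1
  exact ⟨ht2.1, ht2.2, ht'.2.1, ht'.2.2⟩

lemma part2 (hC : S_CNT2) (A ρ τ θ : ℝ) (Q : ℕ → Set ℕ) (v : ℕ → ℝ) (hρ : 0 < ρ) (hρ1 : ρ ≤ 1)
    (hA : 1 < A * ρ) (hτ : 0 ≤ τ)
    (hθ : θ < 1) (hQ : ∀ i, Thick (Q i) ρ) (hv1 : ∀ n, 1 ≤ v n)
    (hv : ∀ t : ℝ, τ < t → Summable (fun n => v n ^ (-t))) :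
    ∃ E : Set ℝ, dimH E ≤ ENNReal.ofReal ((1 - ρ + 1 / A + τ) / (1 - θ)) ∧
      ∀ α : ℝ, 0 < α → α ∉ E → ∀ (i : ℕ) (η : ℝ), 0 < η → ∃ c : ℝ, 0 < c ∧ ∃ n₀ : ℕ,
        ∀ n : ℕ, n₀ ≤ n → ∀ d : ℤ, NegFund d → |(|(d : ℝ)|) - α * v n| ≤ v n ^ θ →
          Half (Q i) A c η d := by
  classical
  have hc : ∀ i j l : ℕ, ∃ c K : ℝ, 0 < c ∧ 0 < K ∧ ∀ (X : ℕ) (T : Finset ℕ), 1 ≤ X →
      (∀ t ∈ T, 1 ≤ t ∧ t ≤ X ∧ NegFund (-(t : ℤ)) ∧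
        ¬ Half (Q i) A c (1 / ((j : ℝ) + 1)) (-(t : ℤ))) →
      (T.card : ℝ) ≤ K * (X : ℝ) ^ (1 - ρ + 1 / A + 1 / ((l : ℝ) + 1)) := fun i j l =>
    hC A ρ (1 / ((j : ℝ) + 1)) (1 / ((l : ℝ) + 1)) (Q i) hρ hρ1 hA (by positivity)
      (by positivity) (hQ i)
  choose c K hc0 hK0 hT using hc
  have hA0 : 0 < A := by
    by_contra h
    have : A * ρ ≤ 0 := mul_nonpos_of_nonpos_of_nonneg (not_lt.mp h) hρ.le
    linarith
  have hA1 : 0 < 1 / A := by positivity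
  have hw : ∀ i j l : ℕ, ∃ E : Set ℝ,
      dimH E ≤ ENNReal.ofReal ((1 - ρ + 1 / A + 1 / ((l : ℝ) + 1) + τ) / (1 - θ)) ∧
      ∀ α : ℝ, 0 < α → α ∉ E → ∃ n0 : ℕ, ∀ n : ℕ, n0 ≤ n → ∀ m : ℕ,
        |(m : ℝ) - α * v n| ≤ v n ^ θ → 0 < m ∧
          m ∉ {t : ℕ | NegFund (-(t : ℤ)) ∧
            ¬ Half (Q i) A (c i j l) (1 / ((j : ℝ) + 1)) (-(t : ℤ))} := by
    intro i j l
    have hl : 0 < 1 / ((l : ℝ) + 1) := by positivity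
    refine Pool.Agent.Y854.GM.win_nat _ hv1 hτ hv (by linarith) hθ ?_
    intro ε hε
    refine ⟨K i j l, fun X hX => ?_⟩
    refine (hT i j l X _ hX ?_).trans ?_
    · intro t ht
      have ht' := mf ht
      have ht2 := mem_Ioc.mp ht'.1
      exact ⟨ht2.1, ht2.2, ht'.2.1, ht'.2.2⟩
    · refine mul_le_mul_of_nonneg_left ?_ (hK0 i j l).le
      exact rpow_le_rpow_of_exponent_le (by exact_mod_cast hX) (by linarith)
  choose E hE hα using hw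
  refine ⟨⋃ i, ⋃ j, ⋂ l, E i j l, ?_, ?_⟩
  · rw [dimH_iUnion]
    refine iSup_le fun i => ?_
    rw [dimH_iUnion]
    refine iSup_le fun j => ?_
    have h1 : ∀ l : ℕ, dimH (⋂ l, E i j l) ≤
        ENNReal.ofReal ((1 - ρ + 1 / A + 1 / ((l : ℝ) + 1) + τ) / (1 - θ)) := fun l =>
      (dimH_mono (Set.iInter_subset _ l)).trans (hE i j l)
    have h2 : Filter.Tendsto
        (fun l : ℕ => ENNReal.ofReal ((1 - ρ + 1 / A + 1 / ((l : ℝ) + 1) + τ) / (1 - θ)))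
        Filter.atTop (nhds (ENNReal.ofReal ((1 - ρ + 1 / A + 0 + τ) / (1 - θ)))) := by
      apply ENNReal.tendsto_ofReal
      apply Filter.Tendsto.div_const
      apply Filter.Tendsto.add_const
      apply Filter.Tendsto.const_add
      exact tendsto_one_div_add_atTop_nhds_zero_nat
    rw [add_zero] at h2
    exact ge_of_tendsto' h2 h1
  · intro α hα0 hαE i η hη
    obtain ⟨j, hj⟩ := exists_nat_one_div_lt hη
    have h1 : ∃ l, α ∉ E i j l := by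
      by_contra h
      have h2 : ∀ l, α ∈ E i j l := fun l => by
        by_contra h3
        exact h ⟨l, h3⟩
      exact hαE (Set.mem_iUnion.mpr ⟨i, Set.mem_iUnion.mpr ⟨j, Set.mem_iInter.mpr h2⟩⟩)
    obtain ⟨l, hl⟩ := h1
    obtain ⟨n0, hn0⟩ := hα i j l α hα0 hl
    refine ⟨c i j l, hc0 i j l, n0, fun n hn d hd hdn => ?_⟩
    have hd3 : ((d.natAbs : ℕ) : ℝ) = |(d : ℝ)| := by rw [Nat.cast_natAbs, Int.cast_abs]
    have h4 := (hn0 n hn d.natAbs (by rw [hd3]; exact hdn)).2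
    have h5 : Half (Q i) A (c i j l) (1 / ((j : ℝ) + 1)) d := by
      by_contra h6
      apply h4
      show NegFund (-(d.natAbs : ℤ)) ∧ ¬ Half (Q i) A (c i j l) (1 / ((j : ℝ) + 1)) (-(d.natAbs : ℤ))
      rw [neg_natAbs hd]
      exact ⟨hd, h6⟩
    exact half_mono hj.le h5

/-- the range of the question -/
lemma nd2 (Q : Set ℕ) (c η : ℝ) (hc : 0 < c) : ∃ D : ℝ, ∀ d : ℤ, NegFund d → D ≤ |(d : ℝ)| →
    Half Q 2 c η d → |2 * (NQ Q d : ℝ) - MQ Q d| ≤ η * MQ Q d := by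
  have hev1 : ∀ᶠ L : ℝ in Filter.atTop, ‖L ^ 4‖ ≤ 1 * ‖exp (c * L)‖ :=
    (isLittleO_pow_exp_pos_mul_atTop (k := 4) hc).def one_pos
  have hev2 : ∀ᶠ L : ℝ in Filter.atTop, 2 ≤ log L :=
    tendsto_log_atTop.eventually (Filter.eventually_ge_atTop 2)
  obtain ⟨L0, hL0⟩ := Filter.eventually_atTop.mp
    (hev1.and (hev2.and (Filter.eventually_ge_atTop 2)))
  refine ⟨exp L0, fun d hd hD hH => ?_⟩
  obtain ⟨L, hL⟩ : ∃ L : ℝ, L = log |(d : ℝ)| := ⟨_, rfl⟩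
  have hd0 : 0 < |(d : ℝ)| := lt_of_lt_of_le (exp_pos _) hD
  have hLL : L0 ≤ L := by rw [hL]; exact (le_log_iff_exp_le hd0).mpr hD
  obtain ⟨e1, e2, e3⟩ := hL0 L hLL
  have hexp : exp L = |(d : ℝ)| := by rw [hL]; exact exp_log hd0
  have hLlog : log L ≤ L := (log_le_sub_one_of_pos (by linarith)).trans (by linarith)
  have hthr : thr d = L ^ 2 * log L ^ 2 := by rw [thr, hL]
  have hT1 : L ^ 2 * log L ^ 2 ≤ exp (c * L) := by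
    rw [one_mul, norm_of_nonneg (by positivity), norm_of_nonneg (exp_pos _).le] at e1
    have h1 : log L ^ 2 ≤ L ^ 2 := by
      apply pow_le_pow_left₀ (by linarith) hLlog
    nlinarith [sq_nonneg L]
  have hT2 : L ^ 2 + 1 ≤ L ^ 2 * log L ^ 2 := by
    have h1 : (4 : ℝ) ≤ log L ^ 2 := by nlinarith
    nlinarith
  have hT0 : 0 < thr d := by rw [hthr]; nlinarith [sq_nonneg L]
  obtain ⟨y, hy⟩ : ∃ y : ℕ, y = ⌈thr d⌉₊ - 1 := ⟨_, rfl⟩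
  have hc1 : 1 ≤ ⌈thr d⌉₊ := Nat.one_le_ceil_iff.mpr hT0
  have hy1 : ∀ p : ℕ, p ≤ y ↔ (p : ℝ) < thr d := by
    intro p
    rw [← Nat.lt_ceil, hy]
    omega
  have hylt : (y : ℝ) < thr d := (hy1 y).mp le_rfl
  have hyge : thr d ≤ y + 1 := by
    have h1 : ¬ (y + 1 ≤ y) := by omega
    rw [hy1] at h1
    push_cast at h1
    exact not_lt.mp h1
  have h1 := hH y (by
      rw [← hL]
      have e4 : L ^ (2 : ℝ) = L ^ 2 := by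
        rw [← rpow_natCast]; norm_num
      rw [e4]
      rw [hthr] at hyge
      linarith) (by
      rw [← hexp, ← exp_mul, mul_comm L c]
      rw [hthr] at hylt
      linarith)
  have s1 : splitIn Q d y = {p : ℕ | p.Prime ∧ p ∈ Q ∧
      (p : ℝ) < thr d ∧ ¬ (p : ℤ) ∣ d ∧ ∃ x : ℤ, (4 * (p : ℤ)) ∣ x ^ 2 - d} := by
    ext p
    constructor
    · rintro ⟨a1, a2, a3, a4⟩
      exact ⟨a1, a3, (hy1 p).mp a2, a4⟩
    · rintro ⟨a1, a2, a3, a4⟩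
      exact ⟨a1, (hy1 p).mpr a3, a2, a4⟩
  have s2 : primesIn Q y = {p : ℕ | p.Prime ∧ p ∈ Q ∧ (p : ℝ) < thr d} := by
    ext p
    constructor
    · rintro ⟨a1, a2, a3⟩
      exact ⟨a1, a3, (hy1 p).mp a2⟩
    · rintro ⟨a1, a2, a3⟩
      exact ⟨a1, (hy1 p).mpr a3, a2⟩
  rw [s1, s2] at h1
  exact h1

lemma cnt3 (hC : S_CNT2) (ρ η ε : ℝ) (Q : Set ℕ) (hρ : 1 / 2 < ρ) (hρ1 : ρ ≤ 1) (hη : 0 < η)
    (hε : 0 < ε) (hQ : Thick Q ρ) : ∃ K : ℝ, 0 < K ∧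
    ∀ (X : ℕ) (T : Finset ℕ), 1 ≤ X → (∀ t ∈ T, 1 ≤ t ∧ t ≤ X ∧ NegFund (-(t : ℤ)) ∧
      ¬ |2 * (NQ Q (-(t : ℤ)) : ℝ) - MQ Q (-(t : ℤ))| ≤ η * MQ Q (-(t : ℤ))) →
    (T.card : ℝ) ≤ K * (X : ℝ) ^ (3 / 2 - ρ + ε) := by
  classical
  obtain ⟨c, K, hc, hK, h⟩ := hC 2 ρ η ε Q (by linarith) hρ1 (by linarith) hη hε hQ
  obtain ⟨D, hD⟩ := nd2 Q c η hc
  refine ⟨K + ⌈D⌉₊, by positivity, fun X T hX hT => ?_⟩
  have h1 := h X (T.filter (fun t : ℕ => D ≤ (t : ℝ))) hX (by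
    intro t ht
    rw [mem_filter] at ht
    obtain ⟨a1, a2, a3, a4⟩ := hT t ht.1
    refine ⟨a1, a2, a3, fun h5 => a4 ?_⟩
    exact hD (-(t : ℤ)) a3 (by push_cast; rw [abs_neg, Nat.abs_cast]; exact ht.2) h5)
  have h2 : (T.filter (fun t : ℕ => ¬ D ≤ (t : ℝ))).card ≤ ⌈D⌉₊ := by
    have h3 : T.filter (fun t : ℕ => ¬ D ≤ (t : ℝ)) ⊆ range ⌈D⌉₊ := by
      intro t ht
      rw [mem_filter] at ht
      rw [mem_range, Nat.lt_ceil]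
      exact not_le.mp ht.2
    simpa using card_le_card h3
  have h3 : T.card = (T.filter (fun t : ℕ => D ≤ (t : ℝ))).card +
      (T.filter (fun t : ℕ => ¬ D ≤ (t : ℝ))).card :=
    (card_filter_add_card_filter_not (s := T) (fun t : ℕ => D ≤ (t : ℝ))).symm
  have e1 : 1 - ρ + 1 / 2 + ε = 3 / 2 - ρ + ε := by ring
  rw [e1] at h1
  have h4 : (1 : ℝ) ≤ (X : ℝ) ^ ((3 : ℝ) / 2 - ρ + ε) :=
    one_le_rpow (by exact_mod_cast hX) (by linarith)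
  have h5 : ((T.filter (fun t : ℕ => ¬ D ≤ (t : ℝ))).card : ℝ) ≤ ⌈D⌉₊ := by exact_mod_cast h2
  rw [h3]
  push_cast
  have h6 : (0 : ℝ) ≤ ⌈D⌉₊ := by positivity
  nlinarith

lemma part3 (hC : S_CNT2) (ρ η ε : ℝ) (Q : Set ℕ) (hρ : 1 / 2 < ρ) (hρ1 : ρ ≤ 1) (hη : 0 < η)
    (hε : 0 < ε) (hQ : Thick Q ρ) : ∃ K : ℝ, ∀ X : ℕ, 1 ≤ X →
    ({d : ℤ | NegFund d ∧ |d| ≤ X ∧
      ¬ |2 * (NQ Q d : ℝ) - MQ Q d| ≤ η * MQ Q d}.ncard : ℝ) ≤ K * (X : ℝ) ^ (3 / 2 - ρ + ε) := by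
  classical
  obtain ⟨K, hK, h⟩ := cnt3 hC ρ η ε Q hρ hρ1 hη hε hQ
  refine ⟨K, fun X hX => ?_⟩
  refine le_trans (Nat.cast_le.mpr
    (cnt_le (fun d => ¬ |2 * (NQ Q d : ℝ) - MQ Q d| ≤ η * MQ Q d) X)) (h X _ hX ?_)
  intro t ht
  have ht' := mf ht
  have ht2 := mem_Icc.mp ht'.1
  exact ⟨ht2.1, ht2.2, ht'.2.1, ht'.2.2⟩

lemma part4 (hC : S_CNT2) (ρ τ θ : ℝ) (Q : ℕ → Set ℕ) (v : ℕ → ℝ) (hρ : 1 / 2 < ρ) (hρ1 : ρ ≤ 1)
    (hτ : 0 ≤ τ) (hθ : θ < 1) (hQ : ∀ i, Thick (Q i) ρ) (hv1 : ∀ n, 1 ≤ v n)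
    (hv : ∀ t : ℝ, τ < t → Summable (fun n => v n ^ (-t))) :
    ∃ E : Set ℝ, dimH E ≤ ENNReal.ofReal ((3 / 2 - ρ + τ) / (1 - θ)) ∧
      ∀ α : ℝ, 0 < α → α ∉ E → ∀ (i : ℕ) (η : ℝ), 0 < η → ∃ n₀ : ℕ, ∀ n : ℕ, n₀ ≤ n →
        ∀ d : ℤ, NegFund d → |(|(d : ℝ)|) - α * v n| ≤ v n ^ θ →
          |2 * (NQ (Q i) d : ℝ) - MQ (Q i) d| ≤ η * MQ (Q i) d := by
  classical
  have hw : ∀ i j : ℕ, ∃ E : Set ℝ,
      dimH E ≤ ENNReal.ofReal ((3 / 2 - ρ + τ) / (1 - θ)) ∧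
      ∀ α : ℝ, 0 < α → α ∉ E → ∃ n0 : ℕ, ∀ n : ℕ, n0 ≤ n → ∀ m : ℕ,
        |(m : ℝ) - α * v n| ≤ v n ^ θ → 0 < m ∧
          m ∉ {t : ℕ | NegFund (-(t : ℤ)) ∧
            ¬ |2 * (NQ (Q i) (-(t : ℤ)) : ℝ) - MQ (Q i) (-(t : ℤ))| ≤
              1 / ((j : ℝ) + 1) * MQ (Q i) (-(t : ℤ))} := by
    intro i j
    refine Pool.Agent.Y854.GM.win_nat _ hv1 hτ hv (by linarith) hθ ?_
    intro ε hε
    obtain ⟨K, hK, h⟩ := cnt3 hC ρ (1 / ((j : ℝ) + 1)) ε (Q i) hρ hρ1 (by positivity) hε (hQ i)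
    refine ⟨K, fun X hX => ?_⟩
    refine h X _ hX ?_
    intro t ht
    have ht' := mf ht
    have ht2 := mem_Ioc.mp ht'.1
    exact ⟨ht2.1, ht2.2, ht'.2.1, ht'.2.2⟩
  choose E hE hα using hw
  refine ⟨⋃ i, ⋃ j, E i j, ?_, ?_⟩
  · rw [dimH_iUnion]
    refine iSup_le fun i => ?_
    rw [dimH_iUnion]
    exact iSup_le fun j => hE i j
  · intro α hα0 hαE i η hη
    obtain ⟨j, hj⟩ := exists_nat_one_div_lt hη
    have h1 : α ∉ E i j := fun h =>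
      hαE (Set.mem_iUnion.mpr ⟨i, Set.mem_iUnion.mpr ⟨j, h⟩⟩)
    obtain ⟨n0, hn0⟩ := hα i j α hα0 h1
    refine ⟨n0, fun n hn d hd hdn => ?_⟩
    have hd3 : ((d.natAbs : ℕ) : ℝ) = |(d : ℝ)| := by rw [Nat.cast_natAbs, Int.cast_abs]
    have h4 := (hn0 n hn d.natAbs (by rw [hd3]; exact hdn)).2
    have h5 : |2 * (NQ (Q i) d : ℝ) - MQ (Q i) d| ≤ 1 / ((j : ℝ) + 1) * MQ (Q i) d := by
      by_contra h6
      apply h4
      show NegFund (-(d.natAbs : ℤ)) ∧ ¬ |2 * (NQ (Q i) (-(d.natAbs : ℤ)) : ℝ) -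
        MQ (Q i) (-(d.natAbs : ℤ))| ≤ 1 / ((j : ℝ) + 1) * MQ (Q i) (-(d.natAbs : ℤ))
      rw [neg_natAbs hd]
      exact ⟨hd, h6⟩
    exact h5.trans (mul_le_mul_of_nonneg_right hj.le (Nat.cast_nonneg _))

/-- all primes -/
lemma thick_univ : Thick Set.univ 1 := by
  refine ⟨1 / 4, by norm_num, 16, fun y hy => ?_⟩
  have h : primesIn Set.univ y = (((range (y + 1)).filter Nat.Prime : Finset ℕ) : Set ℕ) := by
    ext p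
    simp [primesIn, Nat.lt_succ_iff, and_comm]
  rw [h, Set.ncard_coe_finset, rpow_one]
  have h1 : (y : ℝ) * log 2 - log (y + 1) ≤ Nat.primeCounting y * log y :=
    (Chebyshev.psi_ge y).trans (Chebyshev.psi_le_primeCounting_mul_log y)
  rw [Nat.primeCounting, Nat.primeCounting', Nat.count_eq_card_filter_range] at h1
  have hy' : (16 : ℝ) ≤ y := by exact_mod_cast hy
  have h2 : log ((y : ℝ) + 1) ≤ (y : ℝ) / 4 := by
    have h3 : log ((y : ℝ) + 1) = log (((y : ℝ) + 1) / 16) + log 16 := by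
      rw [← log_mul (by positivity) (by norm_num)]; congr 1; ring
    have h4 : log (((y : ℝ) + 1) / 16) ≤ ((y : ℝ) + 1) / 16 - 1 :=
      log_le_sub_one_of_pos (by positivity)
    have h5 : log (16 : ℝ) = 4 * log 2 := by
      rw [show (16 : ℝ) = 2 ^ 4 by norm_num, log_pow]; norm_num
    have h6 := log_two_lt_d9
    rw [h3, h5]
    linarith
  have h7 := log_two_gt_d9
  nlinarith

end Pool.Agent.Y549.SP.Fin2
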