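import Pool.Agent.Y549.SP.Stm2

set_option autoImplicit false

/-! Statements for project SP, third part: all twists `d m` of an arbitrary discriminant `d`. -/

namespace Pool.Agent.Y549.SP

open Finset

/-- the threshold of the question -/
noncomputable def thr (d : ℤ) : ℝ :=
  Real.log |(d : ℝ)| ^ 2 * Real.log (Real.log |(d : ℝ)|) ^ 2

/-- the number of the primes in `Q` below the threshold which split -/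
noncomputable def NQ (Q : Set ℕ) (d : ℤ) : ℕ := Set.ncard {p : ℕ | p.Prime ∧ p ∈ Q ∧
  (p : ℝ) < thr d ∧ ¬ (p : ℤ) ∣ d ∧ ∃ x : ℤ, (4 * (p : ℤ)) ∣ x ^ 2 - d}

/-- the number of the primes in `Q` below the threshold -/
noncomputable def MQ (Q : Set ℕ) (d : ℤ) : ℕ := Set.ncard {p : ℕ | p.Prime ∧ p ∈ Q ∧
  (p : ℝ) < thr d}

/-- the sum of the symbols `(D m | p)` over the odd primes `p ≤ y` in `Q` -/
noncomputable def sd (Q : Set ℕ) (D : ℤ) (m y : ℕ) : ℤ := ∑ p ∈ oq Q y, jacobiSym (D * (m : ℤ)) p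

/-- LS3: Heath-Brown's large sieve, uniformly in the twist `D`. -/
def S_LS3 : Prop := ∀ β : ℝ, 0 < β → ∃ C : ℝ, 0 < C ∧
  ∀ (D : ℤ) (B : ℕ → Finset ℕ) (X y b : ℕ) (J : Finset ℕ) (V : ℝ), 1 ≤ X → y ^ J.card ≤ X →
  (∀ i ∈ J, ∀ p ∈ B i, p.Prime ∧ p ≠ 2 ∧ p ≤ y) → (∀ i ∈ J, (B i).card = b) →
  (∀ i ∈ J, ∀ j ∈ J, i ≠ j → Disjoint (B i) (B j)) → 0 ≤ V →
    (((sq X).filter (fun m : ℕ => ∀ i ∈ J,
      V ≤ |((∑ p ∈ B i, jacobiSym (D * (m : ℤ)) p : ℤ) : ℝ)|)).card : ℝ) * V ^ (2 * J.card) ≤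
        C * (X : ℝ) ^ (1 + β) * (b : ℝ) ^ J.card

/-- BAD3: few squarefree `m` have a large sum `sd`, uniformly in `D`. -/
def S_BAD3 : Prop := ∀ A ρ κ η ε : ℝ, 0 < ρ → ρ ≤ 1 → 1 < A * ρ → 0 < κ → κ ≤ 1 → 0 < η →
  η ≤ 1 → 0 < ε → ∃ c K : ℝ, 0 < c ∧ 0 < K ∧ ∀ (D : ℤ) (Q : Set ℕ) (X y : ℕ), 1 ≤ X →
    (Real.log X / A) ^ A ≤ y → (y : ℝ) ≤ (X : ℝ) ^ c →
    κ * (y : ℝ) ^ ρ ≤ (oq Q y).card * Real.log y →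
    (((sq X).filter (fun m => η * (oq Q y).card ≤ (|sd Q D m y| : ℝ))).card : ℝ) ≤
      K * (X : ℝ) ^ (1 - ρ + 1 / A + ε)

/-- TW: every discriminant `d` is good after multiplication by almost every small `m`. -/
def S_TW : Prop := ∀ (A ρ η ε : ℝ) (Q : Set ℕ), 2 ≤ A → 1 / 2 < ρ → ρ ≤ 1 → 0 < η → 0 < ε →
  Thick Q ρ → ∃ C K : ℝ, 0 < C ∧ 0 < K ∧ ∀ d : ℤ, NegFund d → ∀ X : ℕ,
    Real.log |(d : ℝ)| ^ C ≤ X → (X : ℝ) ≤ Real.exp (Real.log |(d : ℝ)| ^ (2 / A)) →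
    ∀ T : Finset ℕ, (∀ m ∈ T, 1 ≤ m ∧ m ≤ X ∧ Squarefree m ∧ NegFund (d * m) ∧
      ¬ |2 * (NQ Q (d * m) : ℝ) - MQ Q (d * m)| ≤ η * MQ Q (d * m)) →
    (T.card : ℝ) ≤ K * (X : ℝ) ^ (1 - ρ + 1 / A + ε)

/-- MANY: every discriminant `d` has many twists `d m` which are discriminants. -/
def S_MANY : Prop := ∃ X₀ : ℕ, ∀ d : ℤ, NegFund d → ∀ X : ℕ, X₀ ≤ X →
  Real.log |(d : ℝ)| ^ 4 ≤ X → ∃ T : Finset ℕ, (∀ m ∈ T, 1 ≤ m ∧ m ≤ X ∧ Squarefree m ∧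
    NegFund (d * m)) ∧ (X : ℝ) ^ (2 / 5 : ℝ) ≤ T.card

end Pool.Agent.Y549.SP
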