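import Pool.Agent.Y549.SP.Stm3

set_option autoImplicit false

/-!
# SP3-MANY: many twists which are fundamental discriminants (helper362)
-/

namespace Pool.Agent.Y549.SP.MANY

open Finset

/-- many primes -/
lemma many_primes : ∀ᶠ n : ℕ in Filter.atTop,
    8 * ((n : ℝ) + 1) ^ (4 / 5 : ℝ) ≤ (Nat.primeCounting n : ℝ) := by
  have h1 : ∀ᶠ y : ℝ in Filter.atTop, Real.log y ≤ 1 / 64 * y ^ (1 / 5 : ℝ) := by
    have h := (isLittleO_log_rpow_atTop (show (0 : ℝ) < 1 / 5 by norm_num)).bound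
      (show (0 : ℝ) < 1 / 64 by norm_num)
    filter_upwards [h, Filter.eventually_ge_atTop 1] with y hy hy1
    rw [Real.norm_of_nonneg (Real.log_nonneg hy1), Real.norm_of_nonneg (by positivity)] at hy
    exact hy
  have h2 : Filter.Tendsto (fun n : ℕ => (n : ℝ) + 1) Filter.atTop Filter.atTop :=
    Filter.tendsto_atTop_add_const_right _ _ tendsto_natCast_atTop_atTop
  filter_upwards [h2.eventually h1, Filter.eventually_ge_atTop 16] with n hn hn16
  obtain ⟨y, hy⟩ : ∃ y : ℝ, y = (n : ℝ) + 1 := ⟨_, rfl⟩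
  rw [← hy] at hn ⊢
  have hn' : (16 : ℝ) ≤ n := by exact_mod_cast hn16
  have hy16 : 17 ≤ y := by linarith
  have hy0 : 0 < y := by linarith
  have hlogn : 0 < Real.log n := Real.log_pos (by linarith)
  have hp15 : 0 < y ^ (1 / 5 : ℝ) := Real.rpow_pos_of_pos hy0 _
  have hle1 : y ^ (1 / 5 : ℝ) ≤ y := by
    calc y ^ (1 / 5 : ℝ) ≤ y ^ (1 : ℝ) :=
          Real.rpow_le_rpow_of_exponent_le (by linarith) (by norm_num)
      _ = y := Real.rpow_one y
  have hlog2 := Real.log_two_gt_d9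
  have hnum : y / 2 ≤ n * Real.log 2 - Real.log ((n : ℝ) + 1) := by
    rw [← hy]
    have e1 : (n : ℝ) * 0.69 ≤ n * Real.log 2 :=
      mul_le_mul_of_nonneg_left (by linarith) (by linarith)
    linarith
  have hden : Real.log n ≤ 1 / 64 * y ^ (1 / 5 : ℝ) :=
    (Real.log_le_log (by linarith) (by linarith)).trans hn
  have h3 := Chebyshev.pi_ge n
  refine le_trans ?_ h3
  rw [le_div_iff₀ hlogn]
  refine le_trans ?_ hnum
  have h4 : y ^ (4 / 5 : ℝ) * y ^ (1 / 5 : ℝ) = y := by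
    rw [← Real.rpow_add hy0]
    norm_num
  have h5 : 0 < y ^ (4 / 5 : ℝ) := Real.rpow_pos_of_pos hy0 _
  calc 8 * y ^ (4 / 5 : ℝ) * Real.log n ≤ 8 * y ^ (4 / 5 : ℝ) * (1 / 64 * y ^ (1 / 5 : ℝ)) :=
        mul_le_mul_of_nonneg_left hden (by positivity)
    _ = 1 / 8 * (y ^ (4 / 5 : ℝ) * y ^ (1 / 5 : ℝ)) := by ring
    _ = 1 / 8 * y := by rw [h4]
    _ ≤ y / 2 := by linarith

/-- the number of prime factors -/
lemma omega_le (n : ℕ) (hn : 1 ≤ n) : (n.primeFactors.card : ℝ) ≤ 2 * Real.log n := by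
  have h1 : 2 ^ n.primeFactors.card ≤ n := by
    calc 2 ^ n.primeFactors.card ≤ ∏ p ∈ n.primeFactors, p :=
          Finset.pow_card_le_prod _ _ _ fun p hp => (Nat.prime_of_mem_primeFactors hp).two_le
      _ ≤ n := Nat.le_of_dvd hn (Nat.prod_primeFactors_dvd n)
  have h2 : (2 : ℝ) ^ n.primeFactors.card ≤ n := by exact_mod_cast h1
  have h3 := Real.log_le_log (by positivity) h2
  rw [Real.log_pow] at h3
  have h4 := Real.log_two_gt_d9
  have h5 : (0 : ℝ) ≤ n.primeFactors.card := Nat.cast_nonneg _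
  have h6 : (n.primeFactors.card : ℝ) * (1 / 2) ≤ n.primeFactors.card * Real.log 2 :=
    mul_le_mul_of_nonneg_left (by linarith) h5
  linarith

/-- twists by `m = 1 mod 4` coprime to `d` -/
lemma twist {d : ℤ} (hd : NegFund d) {m : ℕ} (hm : Squarefree m) (h4 : m % 4 = 1)
    (hc : Nat.Coprime d.natAbs m) : NegFund (d * m) := by
  have hm0 : 0 < m := Nat.pos_of_ne_zero (by rintro rfl; omega)
  have h4' : (m : ℤ) % 4 = 1 := by omega
  obtain ⟨hneg, h | ⟨k, hk, hk4, hks⟩⟩ := hd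
  · refine ⟨mul_neg_of_neg_of_pos hneg (by exact_mod_cast hm0), Or.inl ⟨?_, ?_⟩⟩
    · rw [Int.mul_emod, h.1, h4']
      rfl
    · rw [← Int.squarefree_natAbs, Int.natAbs_mul, Int.natAbs_natCast, Nat.squarefree_mul hc]
      exact ⟨Int.squarefree_natAbs.2 h.2, hm⟩
  · refine ⟨mul_neg_of_neg_of_pos hneg (by exact_mod_cast hm0), Or.inr ⟨k * m, ?_, ?_, ?_⟩⟩
    · rw [hk]
      ring
    · have h5 : (k * (m : ℤ)) % 4 = k % 4 := by
        rw [Int.mul_emod, h4', mul_one, Int.emod_emod_of_dvd _ (dvd_refl 4)]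
      rw [h5]
      exact hk4
    · have hck : Nat.Coprime k.natAbs m := by
        refine Nat.Coprime.coprime_dvd_left ?_ hc
        rw [hk, Int.natAbs_mul]
        exact Dvd.intro_left _ rfl
      rw [← Int.squarefree_natAbs, Int.natAbs_mul, Int.natAbs_natCast, Nat.squarefree_mul hck]
      exact ⟨Int.squarefree_natAbs.2 hks, hm⟩

theorem main : S_MANY := by
  classical
  obtain ⟨N, hN⟩ := Filter.eventually_atTop.1 many_primes
  refine ⟨(N + 1) ^ 2, fun d hd X hX hlog => ?_⟩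
  set Z := Nat.sqrt X with hZ
  have hZN : N ≤ Z := by
    rw [hZ, Nat.le_sqrt']
    exact (Nat.pow_le_pow_left (Nat.le_succ N) 2).trans hX
  have hπ := hN Z hZN
  obtain ⟨y, hy⟩ : ∃ y : ℝ, y = (Z : ℝ) + 1 := ⟨_, rfl⟩
  rw [← hy] at hπ
  have hy1 : 1 ≤ y := by
    rw [hy]
    have : (0 : ℝ) ≤ Z := Nat.cast_nonneg _
    linarith
  have hXy : (X : ℝ) ≤ y ^ 2 := by
    have h1 : X ≤ (Z + 1) ^ 2 := (Nat.lt_succ_sqrt' X).le
    rw [hy]
    exact_mod_cast h1
  obtain ⟨n, hn⟩ : ∃ n : ℕ, n = d.natAbs := ⟨_, rfl⟩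
  have hn1 : 1 ≤ n := by
    rw [hn]
    have := hd.1
    omega
  have hdn : |(d : ℝ)| = n := by
    rw [hn, Nat.cast_natAbs, Int.cast_abs]
  rw [hdn] at hlog
  have hl0 : 0 ≤ Real.log n := Real.log_natCast_nonneg n
  -- the bound for the logarithm
  have hp12 : y ^ (1 / 2 : ℝ) ≤ y ^ (4 / 5 : ℝ) :=
    Real.rpow_le_rpow_of_exponent_le hy1 (by norm_num)
  have hp1 : 1 ≤ y ^ (4 / 5 : ℝ) := Real.one_le_rpow hy1 (by norm_num)
  have hlogy : Real.log n ≤ y ^ (4 / 5 : ℝ) := by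
    refine le_trans ?_ hp12
    rw [← Real.sqrt_eq_rpow]
    apply Real.le_sqrt_of_sq_le
    have h1 : (Real.log n ^ 2) ^ 2 ≤ y ^ 2 := by
      rw [← pow_mul]
      exact hlog.trans hXy
    exact (sq_le_sq₀ (sq_nonneg _) (by linarith)).1 h1
  have hω := omega_le n hn1
  -- the primes
  set S := (Nat.primesLE Z).filter (fun q => q ≠ 2 ∧ ¬ q ∣ n) with hS
  have hcard : (Nat.primeCounting Z : ℝ) ≤ S.card + (1 + n.primeFactors.card) := by
    have h1 : Nat.primesLE Z ⊆ S ∪ ({2} ∪ n.primeFactors) := by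
      intro q hq
      rw [mem_union, mem_union, mem_singleton, Nat.mem_primeFactors]
      by_cases h2 : q = 2
      · exact Or.inr (Or.inl h2)
      · by_cases h3 : q ∣ n
        · exact Or.inr (Or.inr ⟨Nat.prime_of_mem_primesLE hq, h3, by omega⟩)
        · left
          rw [hS, mem_filter]
          exact ⟨hq, h2, h3⟩
    have h2 := (card_le_card h1).trans ((card_union_le _ _).trans
      (Nat.add_le_add_left (card_union_le _ _) _))
    rw [Nat.primesLE_card_eq_primeCounting, card_singleton] at h2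
    exact_mod_cast h2
  have hSmem : ∀ q ∈ S, q.Prime ∧ q ≤ Z ∧ q ≠ 2 ∧ ¬ q ∣ n := by
    intro q hq
    rw [hS, mem_filter] at hq
    exact ⟨Nat.prime_of_mem_primesLE hq.1, Nat.le_of_mem_primesLE hq.1, hq.2⟩
  -- one of the two classes
  obtain ⟨r, hr, hcl⟩ : ∃ r : ℕ, (r = 1 ∨ r = 3) ∧
      S.card ≤ 2 * (S.filter fun q => q % 4 = r).card := by
    have h1 : S ⊆ S.filter (fun q => q % 4 = 1) ∪ S.filter (fun q => q % 4 = 3) := by
      intro q hq
      obtain ⟨h2, -, h3, -⟩ := hSmem q hq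
      have h4 := h2.eq_two_or_odd
      rw [mem_union]
      have h5 : q % 4 = 1 ∨ q % 4 = 3 := by omega
      rcases h5 with h5 | h5
      · exact Or.inl (mem_filter.2 ⟨hq, h5⟩)
      · exact Or.inr (mem_filter.2 ⟨hq, h5⟩)
    have h2 := (card_le_card h1).trans (card_union_le _ _)
    rcases le_total (S.filter fun q => q % 4 = 1).card (S.filter fun q => q % 4 = 3).card with h | h
    · exact ⟨3, Or.inr rfl, by omega⟩
    · exact ⟨1, Or.inl rfl, by omega⟩
  set S' := S.filter fun q => q % 4 = r with hS'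
  have hS'mem : ∀ q ∈ S', q.Prime ∧ q ≤ Z ∧ ¬ q ∣ n ∧ q % 4 = r := by
    intro q hq
    rw [hS', mem_filter] at hq
    obtain ⟨h1, h2, -, h3⟩ := hSmem q hq.1
    exact ⟨h1, h2, h3, hq.2⟩
  have hcl' : (S.card : ℝ) ≤ 2 * S'.card := by exact_mod_cast hcl
  have hS'pos : (1 : ℝ) < S'.card := by linarith
  have hne : S'.Nonempty := by
    rw [← card_pos]
    have : 1 < S'.card := by exact_mod_cast hS'pos
    omega
  obtain ⟨p, hp⟩ := hne
  obtain ⟨hp1', hp2, hp3, hp4⟩ := hS'mem p hp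
  refine ⟨(S'.erase p).image fun q => p * q, ?_, ?_⟩
  · intro m hm
    obtain ⟨q, hq, rfl⟩ := mem_image.1 hm
    rw [mem_erase] at hq
    obtain ⟨hq1, hq2, hq3, hq4⟩ := hS'mem q hq.2
    have hsq : Squarefree (p * q) := by
      rw [Nat.squarefree_mul ((Nat.coprime_primes hp1' hq1).2 (Ne.symm hq.1))]
      exact ⟨hp1'.squarefree, hq1.squarefree⟩
    refine ⟨Nat.mul_pos hp1'.pos hq1.pos, ?_, hsq, ?_⟩
    · exact (Nat.mul_le_mul hp2 hq2).trans (Nat.sqrt_le X)
    · refine twist hd hsq ?_ ?_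
      · rw [Nat.mul_mod, hp4, hq4]
        rcases hr with rfl | rfl <;> rfl
      · rw [← hn]
        exact Nat.Coprime.mul_right ((Nat.Prime.coprime_iff_not_dvd hp1').2 hp3).symm
          ((Nat.Prime.coprime_iff_not_dvd hq1).2 hq3).symm
  · rw [card_image_of_injective _ (fun a b h => Nat.eq_of_mul_eq_mul_left hp1'.pos h),
      card_erase_of_mem hp]
    have h1 : ((S'.card - 1 : ℕ) : ℝ) = S'.card - 1 := by
      rw [Nat.cast_sub (by have : 1 < S'.card := by exact_mod_cast hS'pos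
                           omega), Nat.cast_one]
    rw [h1]
    have h2 : (X : ℝ) ^ (2 / 5 : ℝ) ≤ y ^ (4 / 5 : ℝ) := by
      calc (X : ℝ) ^ (2 / 5 : ℝ) ≤ (y ^ 2) ^ (2 / 5 : ℝ) :=
            Real.rpow_le_rpow (Nat.cast_nonneg _) hXy (by norm_num)
        _ = y ^ (4 / 5 : ℝ) := by
            rw [← Real.rpow_natCast, ← Real.rpow_mul (by linarith)]
            norm_num
    linarith

end Pool.Agent.Y549.SP.MANY
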