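import Pool.Agent.Y549.SP.Stm2

set_option autoImplicit false

/-! Project SP: the choice of the parameters, second version (helper751, after NUM.lean of helper888). -/

namespace Pool.Agent.Y549.SP.NUM2

open Filter

theorem exists_L0 (A ρ κ η ε C3 : ℝ) (hA : 1 < A) (hAρ : 1 < A * ρ) (hκ : 0 < κ) (hη : 0 < η)
    (hε : 0 < ε) (hC3 : 0 < C3) :
    ∃ L0 : ℝ, ∀ L : ℝ, L0 ≤ L → 2 * A ≤ L ∧ 12 * L / (η ^ 2 * κ) ≤ (L / A) ^ (A * ρ) ∧
      Real.log (C3 * L) ≤ (1 + A * ε / 4) * Real.log (L / A) := by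
  have hA0 : 0 < A := by linarith
  have h1 : ∀ᶠ L : ℝ in atTop, 2 * A ≤ L := eventually_ge_atTop _
  have h2 : ∀ᶠ L : ℝ in atTop, 12 * A / (η ^ 2 * κ) ≤ (L / A) ^ (A * ρ - 1) :=
    ((tendsto_rpow_atTop (by linarith : 0 < A * ρ - 1)).comp
      (tendsto_id.atTop_div_const hA0)).eventually_ge_atTop _
  have h3 : ∀ᶠ L : ℝ in atTop,
      (Real.log C3 + (1 + A * ε / 4) * Real.log A) / (A * ε / 4) ≤ Real.log L :=
    Real.tendsto_log_atTop.eventually_ge_atTop _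
  obtain ⟨L0, hL0⟩ := eventually_atTop.1 (h1.and (h2.and h3))
  refine ⟨L0, fun L hL => ?_⟩
  obtain ⟨e1, e2, e3⟩ := hL0 L hL
  have hL0 : 0 < L := by linarith
  have hLA0 : 0 < L / A := by positivity
  have hlog : Real.log (L / A) = Real.log L - Real.log A := Real.log_div hL0.ne' hA0.ne'
  refine ⟨e1, ?_, ?_⟩
  · have h4 : (L / A) ^ (A * ρ) = (L / A) ^ (A * ρ - 1) * (L / A) := by
      rw [← Real.rpow_add_one hLA0.ne']
      congr 1
      ring
    have h5 : 12 * L / (η ^ 2 * κ) = 12 * A / (η ^ 2 * κ) * (L / A) := by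
      field_simp
    rw [h4, h5]
    exact mul_le_mul_of_nonneg_right e2 hLA0.le
  · rw [Real.log_mul hC3.ne' hL0.ne', hlog]
    have hδ : 0 < A * ε / 4 := by positivity
    rw [div_le_iff₀ hδ] at e3
    linarith

theorem main : S_NUM2 := by
  intro A ρ κ η ε hρ hρ1 hAρ hκ hκ1 hη hη1 hε
  have hA0 : 0 < A := by
    by_contra hcon
    push Not at hcon
    have : A * ρ ≤ 0 := mul_nonpos_of_nonpos_of_nonneg hcon hρ.le
    linarith
  have hA : 1 < A := by
    have : A * ρ ≤ A * 1 := mul_le_mul_of_nonneg_left hρ1 hA0.le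
    linarith
  have h2e : (0 : ℝ) < (2 : ℝ) ^ (3 / η) := Real.rpow_pos_of_pos (by norm_num) _
  set C2 : ℝ := (2 : ℝ) ^ (3 / η) * 16 / η ^ 2 with hC2
  have hC20 : 0 < C2 := by positivity
  set C3 : ℝ := 6 * C2 / (η * κ) with hC3
  have hC30 : 0 < C3 := by positivity
  obtain ⟨L0, hL0⟩ := exists_L0 A ρ κ η ε C3 hA hAρ hκ hη hε hC30
  refine ⟨min (ε / 4) (1 / 2), Real.exp (max L0 0), lt_min (by positivity)
    (by norm_num), Real.exp_pos _, ?_⟩
  intro X y N hX hy hyX hN hNy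
  have hX1 : (1 : ℝ) ≤ X := by exact_mod_cast hX
  have hX0 : (0 : ℝ) < X := by linarith
  have hL00 : 0 ≤ Real.log X := Real.log_nonneg hX1
  set K := Real.exp (max L0 0) with hK
  have hK1 : 1 ≤ K := Real.one_le_exp (le_max_right L0 0)
  have hiA : 0 < 1 / A := by positivity
  by_cases hLL : Real.log X < L0
  · left
    have e1 : (X : ℝ) ≤ K := by
      rw [← Real.exp_log hX0, hK]
      exact Real.exp_le_exp.2 (hLL.le.trans (le_max_left _ _))
    have e2 : 1 ≤ (X : ℝ) ^ (1 - ρ + 1 / A + ε) := Real.one_le_rpow hX1 (by linarith)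
    have e3 : K ≤ K * (X : ℝ) ^ (1 - ρ + 1 / A + ε) :=
      le_mul_of_one_le_right (by linarith) e2
    linarith
  right
  push Not at hLL
  obtain ⟨hi, hii, hiii⟩ := hL0 _ hLL
  set L := Real.log X with hL
  have hLA2 : 2 ≤ L / A := by
    rw [le_div_iff₀ hA0]
    linarith
  have hLpos : 0 < L := by linarith
  have hLA0 : 0 < L / A := by linarith
  have hyA : (2 : ℝ) ≤ y := by
    refine le_trans ?_ hy
    calc (2 : ℝ) ≤ L / A := hLA2
      _ = (L / A) ^ (1 : ℝ) := (Real.rpow_one _).symm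
      _ ≤ (L / A) ^ A := Real.rpow_le_rpow_of_exponent_le (by linarith) hA.le
  have hy0 : (0 : ℝ) < y := by linarith
  have hy1 : 1 < y := by
    have : (1 : ℝ) < y := by linarith
    exact_mod_cast this
  set l := Real.log y with hl
  have hlogLA : 0 < Real.log (L / A) := Real.log_pos (by linarith)
  have hlA : A * Real.log (L / A) ≤ l := by
    have h1 : Real.log ((L / A) ^ A) = A * Real.log (L / A) := Real.log_rpow hLA0 A
    rw [← h1]
    exact Real.log_le_log (Real.rpow_pos_of_pos hLA0 _) hy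
  have hl0 : 0 < l := lt_of_lt_of_le (by positivity) hlA
  set r := Nat.log y X with hr
  have hXne : X ≠ 0 := by omega
  have hr1 : y ^ r ≤ X := Nat.pow_log_le_self y hXne
  have hr2 : X < y ^ (r + 1) := Nat.lt_pow_succ_log_self hy1 X
  have hrl : (r : ℝ) * l ≤ L := by
    have h1 : ((y ^ r : ℕ) : ℝ) ≤ X := by exact_mod_cast hr1
    have h2 := Real.log_le_log (by positivity) h1
    rw [Nat.cast_pow, Real.log_pow] at h2
    exact h2
  have hyX2 : (y : ℝ) ≤ X := by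
    refine hyX.trans ?_
    calc (X : ℝ) ^ (min (ε / 4) (1 / 2)) ≤ (X : ℝ) ^ (1 : ℝ) :=
          Real.rpow_le_rpow_of_exponent_le hX1 ((min_le_right _ _).trans (by norm_num))
      _ = X := Real.rpow_one _
  have hrpos : 1 ≤ r := Nat.log_pos hy1 (by exact_mod_cast hyX2)
  have hrpos' : (1 : ℝ) ≤ r := by exact_mod_cast hrpos
  have hr0 : (0 : ℝ) < r := by linarith
  -- the number of blocks
  set k := ⌈2 * (r : ℝ) / η⌉₊ with hk
  have hk1 : 2 * (r : ℝ) / η ≤ k := Nat.le_ceil _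
  have hk2 : (k : ℝ) < 2 * r / η + 1 := Nat.ceil_lt_add_one (by positivity)
  have hrη : 1 ≤ (r : ℝ) / η := by
    rw [le_div_iff₀ hη]
    linarith
  have hk3 : (k : ℝ) ≤ 3 * (r / η) := by
    have : 2 * (r : ℝ) / η = 2 * (r / η) := by ring
    linarith
  have hk4 : 2 * (r : ℝ) ≤ η * k := by
    rw [div_le_iff₀ hη] at hk1
    linarith
  have hk0 : (0 : ℝ) < k := lt_of_lt_of_le (by positivity) hk1
  have hk0' : 0 < k := by exact_mod_cast hk0
  -- the number of primes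
  have hyρ : (L / A) ^ (A * ρ) ≤ (y : ℝ) ^ ρ := by
    rw [Real.rpow_mul hLA0.le]
    exact Real.rpow_le_rpow (Real.rpow_nonneg hLA0.le _) hy hρ.le
  have hyρ0 : 0 < (y : ℝ) ^ ρ := Real.rpow_pos_of_pos hy0 _
  have hNL : 12 * L ≤ η ^ 2 * (N * l) := by
    have h1 : 12 * L / (η ^ 2 * κ) ≤ (y : ℝ) ^ ρ := hii.trans hyρ
    rw [div_le_iff₀ (by positivity)] at h1
    calc 12 * L ≤ (y : ℝ) ^ ρ * (η ^ 2 * κ) := h1
      _ = η ^ 2 * (κ * (y : ℝ) ^ ρ) := by ring
      _ ≤ η ^ 2 * (N * l) := mul_le_mul_of_nonneg_left hN (by positivity)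
  have hNr : 12 * (r : ℝ) ≤ η ^ 2 * N := by
    have h1 : 12 * (r : ℝ) * l ≤ η ^ 2 * N * l := by linarith
    exact le_of_mul_le_mul_right h1 hl0
  have hN4 : 12 * ((r : ℝ) / η) ≤ η * N := by
    have h1 : 12 * ((r : ℝ) / η) = 12 * r / η := by ring
    rw [h1, div_le_iff₀ hη]
    linarith
  have hkN : 4 * (k : ℝ) ≤ η * N := by linarith
  have hN0 : (0 : ℝ) ≤ N := Nat.cast_nonneg N
  have hkN' : 4 * (k : ℝ) ≤ N := by
    have : η * (N : ℝ) ≤ 1 * N := mul_le_mul_of_nonneg_right hη1 hN0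
    linarith
  set b := N / k with hb
  have hb1 : k * b ≤ N := Nat.mul_div_le N k
  have hb2 : N < k * b + k := by
    have := Nat.lt_mul_div_succ N hk0'
    rw [mul_add, mul_one] at this
    exact this
  have hb2' : (N : ℝ) < k * b + k := by exact_mod_cast hb2
  have hb3 : (N : ℝ) ≤ 2 * (k * b) := by linarith
  have hb4 : 0 < b := by
    rcases Nat.eq_zero_or_pos b with h | h
    · rw [h] at hb3
      simp only [Nat.cast_zero, mul_zero] at hb3
      linarith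
    · exact h
  have hb0 : (0 : ℝ) < b := by exact_mod_cast hb4
  -- lower bound for `b / C2`
  have hbC : (y : ℝ) ^ ρ / (C3 * L) ≤ b / C2 := by
    rw [div_le_div_iff₀ (by positivity) hC20, hC3]
    have h1 : κ * (y : ℝ) ^ ρ ≤ 2 * (3 * (r / η) * b) * l := by
      calc κ * (y : ℝ) ^ ρ ≤ N * l := hN
        _ ≤ 2 * (k * b) * l := mul_le_mul_of_nonneg_right hb3 hl0.le
        _ ≤ 2 * (3 * (r / η) * b) * l := by
            apply mul_le_mul_of_nonneg_right _ hl0.le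
            apply mul_le_mul_of_nonneg_left _ (by norm_num)
            exact mul_le_mul_of_nonneg_right hk3 hb0.le
    have h2 : 2 * (3 * ((r : ℝ) / η) * b) * l = 6 * b / η * (r * l) := by ring
    have h3 : κ * (y : ℝ) ^ ρ ≤ 6 * b / η * L := by
      rw [h2] at h1
      exact h1.trans (mul_le_mul_of_nonneg_left hrl (by positivity))
    have h4 : (b : ℝ) * (6 * C2 / (η * κ) * L) = 6 * b / η * L * (C2 / κ) := by
      field_simp
    rw [h4]
    have h5 : (y : ℝ) ^ ρ * C2 = κ * (y : ℝ) ^ ρ * (C2 / κ) := by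
      field_simp
    rw [h5]
    exact mul_le_mul_of_nonneg_right h3 (by positivity)
  have hCL : (C3 * L) ^ r ≤ (X : ℝ) ^ (1 / A + ε / 4) := by
    have hCL0 : 0 < C3 * L := by positivity
    have h1 : (r : ℝ) * Real.log (C3 * L) ≤ L * (1 / A + ε / 4) := by
      have e1 : (r : ℝ) * Real.log (C3 * L) ≤ r * ((1 + A * ε / 4) * Real.log (L / A)) :=
        mul_le_mul_of_nonneg_left hiii (by positivity)
      have e2 : (r : ℝ) * (A * Real.log (L / A)) ≤ L :=
        (mul_le_mul_of_nonneg_left hlA (by positivity)).trans hrl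
      have e3 : (r : ℝ) * ((1 + A * ε / 4) * Real.log (L / A)) =
          (1 / A + ε / 4) * (r * (A * Real.log (L / A))) := by
        field_simp
      rw [e3] at e1
      have e4 : (1 / A + ε / 4) * (r * (A * Real.log (L / A))) ≤ (1 / A + ε / 4) * L :=
        mul_le_mul_of_nonneg_left e2 (by positivity)
      linarith
    have h2 : (C3 * L) ^ r = Real.exp (r * Real.log (C3 * L)) := by
      rw [← Real.log_pow, Real.exp_log (pow_pos hCL0 r)]
    rw [h2, Real.rpow_def_of_pos hX0]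
    exact Real.exp_le_exp.2 h1
  -- lower bound for `(y ^ ρ) ^ r`
  have hyr : (X : ℝ) ^ (ρ - ε / 4) ≤ ((y : ℝ) ^ ρ) ^ r := by
    have h1 : (X : ℝ) ≤ (y : ℝ) ^ r * y := by
      have h1 : (X : ℝ) < ((y ^ (r + 1) : ℕ) : ℝ) := by exact_mod_cast hr2
      rw [Nat.cast_pow, pow_succ] at h1
      exact h1.le
    have hyc : (y : ℝ) ≤ (X : ℝ) ^ (ε / 4) :=
      hyX.trans (Real.rpow_le_rpow_of_exponent_le hX1 (min_le_left _ _))
    have h2 : (X : ℝ) ^ (1 - ε / 4) ≤ (y : ℝ) ^ r := by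
      rw [Real.rpow_sub hX0, Real.rpow_one, div_le_iff₀ (Real.rpow_pos_of_pos hX0 _)]
      exact h1.trans (mul_le_mul_of_nonneg_left hyc (by positivity))
    have h3 : ((y : ℝ) ^ ρ) ^ r = ((y : ℝ) ^ r) ^ ρ := by
      rw [← Real.rpow_natCast, ← Real.rpow_mul hy0.le, mul_comm, Real.rpow_mul hy0.le,
        Real.rpow_natCast]
    rw [h3]
    calc (X : ℝ) ^ (ρ - ε / 4) ≤ (X : ℝ) ^ ((1 - ε / 4) * ρ) := by
          apply Real.rpow_le_rpow_of_exponent_le hX1
          have : ε / 4 * ρ ≤ ε / 4 * 1 := mul_le_mul_of_nonneg_left hρ1 (by positivity)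
          linarith
      _ = ((X : ℝ) ^ (1 - ε / 4)) ^ ρ := Real.rpow_mul hX0.le _ _
      _ ≤ _ := Real.rpow_le_rpow (Real.rpow_nonneg hX0.le _) h2 hρ.le
  have hmain : (X : ℝ) ^ (ρ - 1 / A - ε / 2) ≤ (b / C2) ^ r := by
    have hCL0 : 0 < (C3 * L) ^ r := by positivity
    calc (X : ℝ) ^ (ρ - 1 / A - ε / 2) = (X : ℝ) ^ (ρ - ε / 4) / (X : ℝ) ^ (1 / A + ε / 4) := by
          rw [← Real.rpow_sub hX0]
          congr 1
          ring
      _ ≤ ((y : ℝ) ^ ρ) ^ r / (C3 * L) ^ r :=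
          div_le_div₀ (by positivity) hyr hCL0 hCL
      _ = ((y : ℝ) ^ ρ / (C3 * L)) ^ r := (div_pow _ _ _).symm
      _ ≤ (b / C2) ^ r := pow_le_pow_left₀ (by positivity) hbC r
  have h2k : (2 : ℝ) ^ k ≤ ((2 : ℝ) ^ (3 / η)) ^ r := by
    rw [← Real.rpow_natCast, ← Real.rpow_natCast, ← Real.rpow_mul (by norm_num)]
    apply Real.rpow_le_rpow_of_exponent_le (by norm_num)
    calc (k : ℝ) ≤ 3 * (r / η) := hk3
      _ = 3 / η * r := by ring
  refine ⟨r, k, b, hb4, hr1, hb1, hb2.le, hk4, hkN, ?_⟩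
  have e1 : (η / 4 * b) ^ (2 * r) = (b / C2) ^ r * ((2 : ℝ) ^ (3 / η)) ^ r * (b : ℝ) ^ r := by
    rw [pow_mul, ← mul_pow, ← mul_pow]
    congr 1
    rw [hC2]
    field_simp
    ring
  have e2 : (X : ℝ) ^ (1 + ε / 2) =
      (X : ℝ) ^ (1 - ρ + 1 / A + ε) * (X : ℝ) ^ (ρ - 1 / A - ε / 2) := by
    rw [← Real.rpow_add hX0]
    congr 1
    ring
  have hXp : 0 < (X : ℝ) ^ (1 - ρ + 1 / A + ε) := Real.rpow_pos_of_pos hX0 _
  have hbr : 0 < (b : ℝ) ^ r := by positivity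
  rw [e1, e2]
  calc (X : ℝ) ^ (1 - ρ + 1 / A + ε) * (X : ℝ) ^ (ρ - 1 / A - ε / 2) * 2 ^ k * (b : ℝ) ^ r ≤
        (X : ℝ) ^ (1 - ρ + 1 / A + ε) * (b / C2) ^ r * ((2 : ℝ) ^ (3 / η)) ^ r * (b : ℝ) ^ r := by
        apply mul_le_mul_of_nonneg_right _ hbr.le
        apply mul_le_mul _ h2k (by positivity) (by positivity)
        exact mul_le_mul_of_nonneg_left hmain hXp.le
    _ = 1 * ((X : ℝ) ^ (1 - ρ + 1 / A + ε) * ((b / C2) ^ r * ((2 : ℝ) ^ (3 / η)) ^ r *
          (b : ℝ) ^ r)) := by ring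
    _ ≤ K * ((X : ℝ) ^ (1 - ρ + 1 / A + ε) * ((b / C2) ^ r * ((2 : ℝ) ^ (3 / η)) ^ r *
          (b : ℝ) ^ r)) := by
        apply mul_le_mul_of_nonneg_right hK1
        positivity
    _ = _ := by ring

end Pool.Agent.Y549.SP.NUM2
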