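import Pool.Agent.Y549.SP.Stm2

/-!
Project SP2, PJ: products of sums of Jacobi symbols over disjoint sets of primes
(job 9874, helper43).
-/

set_option autoImplicit false

namespace Pool.Agent.Y549.SP.PJ

theorem main : S_PJ := by
  classical
  intro B y b J
  induction J using Finset.induction_on with
  | empty =>
    intro _ _ _
    refine ⟨{1}, by simp, ?_, fun a => by simp⟩
    intro n hn
    rw [Finset.mem_singleton] at hn
    subst hn
    exact ⟨le_rfl, by simp, odd_one, squarefree_one, by simp⟩
  | insert i J hi ih =>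
    intro hB hc hd
    obtain ⟨S, hS, hSn, hSa⟩ := ih
      (fun j hj => hB j (Finset.mem_insert_of_mem hj))
      (fun j hj => hc j (Finset.mem_insert_of_mem hj))
      (fun j hj k hk => hd j (Finset.mem_insert_of_mem hj) k (Finset.mem_insert_of_mem hk))
    have hp := hB i (Finset.mem_insert_self i J)
    have hndvd : ∀ p ∈ B i, ∀ n ∈ S, ¬ p ∣ n := by
      intro p hpi n hn hdvd
      obtain ⟨h1, _, _, _, h5⟩ := hSn n hn
      have h6 : p ∈ n.primeFactors := Nat.mem_primeFactors.2 ⟨(hp p hpi).1, hdvd, by omega⟩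
      obtain ⟨j, hj, hpj⟩ := Finset.mem_biUnion.1 (h5 h6)
      have hne : i ≠ j := by
        rintro rfl
        exact hi hj
      exact Finset.disjoint_left.1 (hd i (Finset.mem_insert_self i J) j
        (Finset.mem_insert_of_mem hj) hne) hpi hpj
    have hinj : Set.InjOn (fun x : ℕ × ℕ => x.1 * x.2) (B i ×ˢ S : Finset (ℕ × ℕ)) := by
      rintro ⟨p, n⟩ hx ⟨p', n'⟩ hx' h
      rw [Finset.mem_coe, Finset.mem_product] at hx hx'
      simp only at h hx hx'
      have h1 : p ∣ p' * n' := by rw [← h]; exact Dvd.intro n rfl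
      have h2 : p ∣ p' := ((hp p hx.1).1.dvd_mul.1 h1).resolve_right (hndvd p hx.1 n' hx'.2)
      have h3 : p = p' := (Nat.prime_dvd_prime_iff_eq (hp p hx.1).1 (hp p' hx'.1).1).1 h2
      subst h3
      have h4 : n = n' := Nat.eq_of_mul_eq_mul_left (hp p hx.1).1.pos h
      subst h4
      rfl
    refine ⟨(B i ×ˢ S).image (fun x : ℕ × ℕ => x.1 * x.2), ?_, ?_, ?_⟩
    · rw [Finset.card_image_of_injOn hinj, Finset.card_product,
        hc i (Finset.mem_insert_self i J), hS, Finset.card_insert_of_notMem hi, pow_succ, mul_comm]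
    · intro m hm
      obtain ⟨⟨p, n⟩, hpn, rfl⟩ := Finset.mem_image.1 hm
      rw [Finset.mem_product] at hpn
      simp only at hpn ⊢
      obtain ⟨hpi, hn⟩ := hpn
      obtain ⟨hpp, hp2, hpy⟩ := hp p hpi
      obtain ⟨h1, h2, h3, h4, h5⟩ := hSn n hn
      have hcop : p.Coprime n := (Nat.Prime.coprime_iff_not_dvd hpp).2 (hndvd p hpi n hn)
      refine ⟨Nat.mul_pos hpp.pos h1, ?_, (hpp.odd_of_ne_two hp2).mul h3, ?_, ?_⟩
      · rw [Finset.card_insert_of_notMem hi, pow_succ, mul_comm (y ^ J.card)]
        exact Nat.mul_le_mul hpy h2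
      · exact (Nat.squarefree_mul hcop).2 ⟨hpp.prime.squarefree, h4⟩
      · rw [Nat.primeFactors_mul hpp.ne_zero (by omega), hpp.primeFactors, Finset.biUnion_insert]
        apply Finset.union_subset_union _ h5
        rw [Finset.singleton_subset_iff]
        exact hpi
    · intro a
      rw [Finset.sum_image hinj, Finset.sum_product, Finset.prod_insert hi, ← hSa,
        Finset.sum_mul_sum]
      apply Finset.sum_congr rfl
      intro p hpi
      apply Finset.sum_congr rfl
      intro n hn
      have hp0 : NeZero p := ⟨(hp p hpi).1.ne_zero⟩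
      have hn0 : NeZero n := ⟨by have := (hSn n hn).1; omega⟩
      exact jacobiSym.mul_right a p n

end Pool.Agent.Y549.SP.PJ
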