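import Pool.Agent.Y549.SP.Stm

/-!
# Project SP, task SPL: the number of split primes in terms of Jacobi symbols (helper676)
-/

set_option autoImplicit false

namespace Pool.Agent.Y549.SP.SPL

open Finset

theorem split_iff (d : ℤ) (hd : d % 4 = 0 ∨ d % 4 = 1) (p : ℕ) (hp : p.Prime) (hp2 : p ≠ 2) :
    (¬ (p : ℤ) ∣ d ∧ ∃ x : ℤ, (4 * (p : ℤ)) ∣ x ^ 2 - d) ↔ jacobiSym d p = 1 := by
  have : Fact p.Prime := ⟨hp⟩
  rw [← jacobiSym.legendreSym.to_jacobiSym]
  constructor
  · rintro ⟨h1, x, hx⟩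
    have h0 : ((d : ℤ) : ZMod p) ≠ 0 := by
      intro h
      exact h1 ((ZMod.intCast_zmod_eq_zero_iff_dvd d p).mp h)
    rw [legendreSym.eq_one_iff p h0]
    refine ⟨(x : ZMod p), ?_⟩
    have h2 : ((x ^ 2 - d : ℤ) : ZMod p) = 0 :=
      (ZMod.intCast_zmod_eq_zero_iff_dvd _ p).mpr ((Dvd.intro_left _ rfl).trans hx)
    push_cast at h2
    have h3 := sub_eq_zero.mp h2
    rw [← h3]; ring
  · intro h
    have h0 : ((d : ℤ) : ZMod p) ≠ 0 := by
      intro h1
      rw [(legendreSym.eq_zero_iff p d).mpr h1] at h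
      exact zero_ne_one h
    refine ⟨fun h1 => h0 ((ZMod.intCast_zmod_eq_zero_iff_dvd d p).mpr h1), ?_⟩
    obtain ⟨r, hr⟩ := (legendreSym.eq_one_iff p h0).mp h
    set x0 : ℤ := (r.val : ℤ) with hx0
    have h1 : (p : ℤ) ∣ x0 ^ 2 - d := by
      rw [← ZMod.intCast_zmod_eq_zero_iff_dvd]
      push_cast
      rw [hx0, Int.cast_natCast, ZMod.natCast_zmod_val, hr]
      ring
    obtain ⟨r0, hr0⟩ : ∃ r0 : ℤ, (4 : ℤ) ∣ r0 ^ 2 - d := by
      rcases hd with hd | hd
      · exact ⟨0, by omega⟩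
      · exact ⟨1, by omega⟩
    have hpodd : (p : ℤ) % 2 = 1 := by
      have := hp.eq_two_or_odd
      omega
    have h4 : (4 : ℤ) ∣ (p : ℤ) ^ 2 - 1 := by
      obtain ⟨t, ht⟩ : ∃ t : ℤ, (p : ℤ) = 2 * t + 1 := ⟨(p : ℤ) / 2, by omega⟩
      rw [ht]
      exact ⟨t ^ 2 + t, by ring⟩
    refine ⟨x0 + (p : ℤ) ^ 2 * (r0 - x0), ?_⟩
    have hcop : IsCoprime (4 : ℤ) (p : ℤ) := by
      rw [show (4 : ℤ) = 2 ^ 2 by norm_num]
      apply IsCoprime.pow_left
      have : Nat.Coprime 2 p := (Nat.coprime_primes Nat.prime_two hp).mpr (Ne.symm hp2)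
      exact_mod_cast Nat.isCoprime_iff_coprime.mpr this
    refine hcop.mul_dvd ?_ ?_
    · obtain ⟨u, hu⟩ := h4
      obtain ⟨v, hv⟩ := hr0
      have e1 : (p : ℤ) ^ 2 = 4 * u + 1 := by linarith
      have e2 : d = r0 ^ 2 - 4 * v := by linarith
      rw [e1, e2]
      exact ⟨v + 4 * u ^ 2 * (r0 - x0) ^ 2 + 2 * r0 * u * (r0 - x0), by ring⟩
    · obtain ⟨u, hu⟩ := h1
      have e1 : d = x0 ^ 2 - p * u := by linarith
      rw [e1]
      exact ⟨u + 2 * x0 * p * (r0 - x0) + p ^ 3 * (r0 - x0) ^ 2, by ring⟩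

theorem card_primeFactors_le (N : ℕ) (hN : N ≠ 0) :
    (N.primeFactors.card : ℝ) ≤ 2 * Real.log N := by
  have h5 : 2 ^ N.primeFactors.card ≤ N := by
    calc 2 ^ N.primeFactors.card ≤ ∏ p ∈ N.primeFactors, p := by
          refine Finset.pow_card_le_prod _ _ _ fun p hp => ?_
          exact (Nat.prime_of_mem_primeFactors hp).two_le
      _ ≤ N := Nat.le_of_dvd (by omega) (Nat.prod_primeFactors_dvd N)
  have h6 : (2 : ℝ) ^ N.primeFactors.card ≤ N := by exact_mod_cast h5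
  have h7 := Real.log_le_log (by positivity) h6
  rw [Real.log_pow] at h7
  have h8 := Real.log_two_gt_d9
  have h9 : (0 : ℝ) ≤ N.primeFactors.card := by positivity
  nlinarith


open Classical in
/-- the primes up to `y` in the set `Q` -/
noncomputable def pq (Q : Set ℕ) (y : ℕ) : Finset ℕ :=
  (range (y + 1)).filter (fun p => p.Prime ∧ p ∈ Q)

/-- the condition of splitting -/
def spl (d : ℤ) (p : ℕ) : Prop := ¬ (p : ℤ) ∣ d ∧ ∃ x : ℤ, (4 * (p : ℤ)) ∣ x ^ 2 - d

lemma jac_four (a : ℤ) (p : ℕ) (hp : p.Prime) (hp2 : p ≠ 2) :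
    jacobiSym (4 * a) p = jacobiSym a p := by
  have hc : Int.gcd 2 p = 1 := by
    rw [Int.gcd_eq_natAbs, Int.natAbs_natCast]
    exact (Nat.coprime_primes Nat.prime_two hp).mpr (Ne.symm hp2)
  rw [jacobiSym.mul_left, show (4 : ℤ) = 2 ^ 2 by norm_num, jacobiSym.pow_left,
    jacobiSym.sq_one hc, one_mul]

open Classical in
theorem count (t m : ℕ) (ht : t ≠ 0) (hd : (-(t : ℤ)) % 4 = 0 ∨ (-(t : ℤ)) % 4 = 1)
    (hm : ∀ p : ℕ, p.Prime → p ≠ 2 → jacobiSym (-(t : ℤ)) p = jacobiSym (-(m : ℤ)) p)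
    (Q : Set ℕ) (y : ℕ) :
    |2 * ((splitIn Q (-(t : ℤ)) y).ncard : ℝ) - (primesIn Q y).ncard| ≤
      1 + 2 * Real.log t + |(ss Q m y : ℝ)| := by
  have e1 : primesIn Q y = ((pq Q y : Finset ℕ) : Set ℕ) := by
    ext p
    simp only [primesIn, pq, Set.mem_ofPred_eq, coe_filter, mem_range]
    constructor
    · rintro ⟨h1, h2, h3⟩
      exact ⟨by omega, h1, h3⟩
    · rintro ⟨h1, h2, h3⟩
      exact ⟨h2, by omega, h3⟩
  have e2 : splitIn Q (-(t : ℤ)) y =
      (((pq Q y).filter (fun p => spl (-(t : ℤ)) p) : Finset ℕ) : Set ℕ) := by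
    ext p
    simp only [splitIn, pq, spl, Set.mem_ofPred_eq, coe_filter, mem_filter, mem_range]
    constructor
    · rintro ⟨h1, h2, h3, h4⟩
      exact ⟨⟨by omega, h1, h3⟩, h4⟩
    · rintro ⟨⟨h1, h2, h3⟩, h4⟩
      exact ⟨h2, by omega, h3, h4⟩
  rw [e1, e2, Set.ncard_coe_finset, Set.ncard_coe_finset]
  set d : ℤ := -(t : ℤ) with hdef
  set P := pq Q y with hP
  have hPm : ∀ p, p ∈ P → p.Prime := fun p hp => by
    rw [hP, pq, mem_filter] at hp
    exact hp.2.1
  have h1 : 2 * ((P.filter (fun p => spl d p)).card : ℝ) - (P.card : ℝ) =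
      ∑ p ∈ P, (2 * (if spl d p then (1 : ℝ) else 0) - 1) := by
    rw [sum_sub_distrib, ← mul_sum, ← sum_filter, sum_const, sum_const, nsmul_eq_mul,
      nsmul_eq_mul, mul_one, mul_one]
  have h2 : (ss Q m y : ℝ) = ∑ p ∈ P, (if p = 2 then (0 : ℝ) else (jacobiSym d p : ℝ)) := by
    rw [ss]
    push_cast
    have e : oq Q y = P.filter (fun p => ¬ p = 2) := by
      ext p
      rw [hP, oq, pq, mem_filter, mem_filter, mem_filter]
      tauto
    rw [e, sum_filter]
    refine sum_congr rfl fun p hp => ?_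
    by_cases h : p = 2
    · rw [if_neg (fun h' => h' h), if_pos h]
    · rw [if_pos h, if_neg h, hm p (hPm p hp) h]
  have h3 : ∀ p ∈ P, |(2 * (if spl d p then (1 : ℝ) else 0) - 1) -
      (if p = 2 then (0 : ℝ) else (jacobiSym d p : ℝ))| ≤
        (if p = 2 then (1 : ℝ) else 0) + (if (p : ℤ) ∣ d then (1 : ℝ) else 0) := by
    intro p hp
    have hpp := hPm p hp
    by_cases hp2 : p = 2
    · rw [if_pos hp2, if_pos hp2]
      have h3 : (0 : ℝ) ≤ (if (p : ℤ) ∣ d then (1 : ℝ) else 0) := by split_ifs <;> norm_num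
      have h4 : |(2 * (if spl d p then (1 : ℝ) else 0) - 1) - 0| ≤ 1 := by
        split_ifs <;> norm_num
      linarith
    · rw [if_neg hp2, if_neg hp2, zero_add]
      have hiff := split_iff d hd p hpp hp2
      have : Fact p.Prime := ⟨hpp⟩
      rcases jacobiSym.trichotomy d p with h | h | h
      · have h3 : (p : ℤ) ∣ d := by
          rw [← jacobiSym.legendreSym.to_jacobiSym, legendreSym.eq_zero_iff,
            ZMod.intCast_zmod_eq_zero_iff_dvd] at h
          exact h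
        have h4 : ¬ spl d p := fun h5 => h5.1 h3
        rw [if_neg h4, if_pos h3, h]
        norm_num
      · have h4 : spl d p := hiff.mpr h
        rw [if_pos h4, h, if_neg h4.1]
        norm_num
      · have h4 : ¬ spl d p := fun h5 => by
          rw [hiff.mp h5] at h
          norm_num at h
        rw [if_neg h4, h]
        have h3 : (0 : ℝ) ≤ (if (p : ℤ) ∣ d then (1 : ℝ) else 0) := by
          split_ifs <;> norm_num
        have h5 : |(2 * (0 : ℝ) - 1) - (((-1 : ℤ) : ℤ) : ℝ)| = 0 := by norm_num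
        rw [h5]
        exact h3
  have h4 : |∑ p ∈ P, ((2 * (if spl d p then (1 : ℝ) else 0) - 1) -
      (if p = 2 then (0 : ℝ) else (jacobiSym d p : ℝ)))| ≤
      1 + ((P.filter (fun p : ℕ => (p : ℤ) ∣ d)).card : ℝ) := by
    refine (abs_sum_le_sum_abs _ _).trans ((sum_le_sum h3).trans ?_)
    rw [sum_add_distrib, ← sum_filter, ← sum_filter, sum_const, sum_const,
      nsmul_eq_mul, nsmul_eq_mul, mul_one, mul_one]
    have h5 : ((P.filter (fun p => p = 2)).card : ℝ) ≤ 1 := by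
      have h6 : P.filter (fun p => p = 2) ⊆ {2} := by
        intro p hp
        rw [mem_filter] at hp
        exact mem_singleton.mpr hp.2
      have := card_le_card h6
      rw [card_singleton] at this
      exact_mod_cast this
    linarith
  have h5 : ((P.filter (fun p : ℕ => (p : ℤ) ∣ d)).card : ℝ) ≤ 2 * Real.log t := by
    have h6 : P.filter (fun p : ℕ => (p : ℤ) ∣ d) ⊆ t.primeFactors := by
      intro p hp
      rw [mem_filter] at hp
      refine Nat.mem_primeFactors.mpr ⟨hPm p hp.1, ?_, ht⟩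
      have h7 : (p : ℤ) ∣ (t : ℤ) := by
        have := hp.2
        rwa [hdef, dvd_neg] at this
      exact_mod_cast h7
    have h7 := card_le_card h6
    have h8 := card_primeFactors_le t ht
    have h10 : ((P.filter (fun p : ℕ => (p : ℤ) ∣ d)).card : ℝ) ≤ t.primeFactors.card := by
      exact_mod_cast h7
    linarith
  have h6 : 2 * ((P.filter (fun p => spl d p)).card : ℝ) - (P.card : ℝ) =
      ∑ p ∈ P, ((2 * (if spl d p then (1 : ℝ) else 0) - 1) -
      (if p = 2 then (0 : ℝ) else (jacobiSym d p : ℝ))) + (ss Q m y : ℝ) := by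
    rw [h1, h2, ← sum_add_distrib]
    refine sum_congr rfl fun p _ => ?_
    ring
  rw [h6]
  refine (abs_add_le _ _).trans ?_
  linarith

theorem main : S_SPL := by
  intro t ht
  obtain ⟨h0, h⟩ := ht
  have ht0 : t ≠ 0 := by
    rintro rfl
    norm_num at h0
  rcases h with ⟨h1, h2⟩ | ⟨m', h1, h2, h3⟩
  · refine ⟨t, ?_, Or.inl rfl, fun Q y => count t t ht0 (Or.inr h1) (fun _ _ _ => rfl) Q y⟩
    have := Int.squarefree_natAbs.mpr h2
    rwa [Int.natAbs_neg, Int.natAbs_natCast] at this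
  · have hm' : m' < 0 := by linarith
    have e : ((m'.natAbs : ℕ) : ℤ) = -m' := by omega
    refine ⟨m'.natAbs, Int.squarefree_natAbs.mpr h3, Or.inr (by omega), fun Q y => ?_⟩
    refine count t m'.natAbs ht0 (Or.inl (by omega)) (fun p hp hp2 => ?_) Q y
    rw [e, neg_neg, h1, jac_four _ _ hp hp2]

end Pool.Agent.Y549.SP.SPL
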