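import Pool.Agent.Y549.SP.Stm2

/-! Project SP2, job CNT2 (helper770): counting the bad discriminants, second version. -/

set_option autoImplicit false

namespace Pool.Agent.Y549.SP.CNT2

open Finset Filter Topology
open Pool.Agent.Y549.SP

/-- the odd primes of a thick set have counting function at least `κ y ^ ρ / log y` -/
lemma step1 {Q : Set ℕ} {κ₀ ρ : ℝ} (hρ : 0 < ρ) (hκ : 0 < κ₀) {y₀ : ℕ}
    (h : ∀ y : ℕ, y₀ ≤ y → κ₀ * (y : ℝ) ^ ρ ≤ (primesIn Q y).ncard * Real.log y) :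
    ∀ᶠ y : ℕ in atTop, min κ₀ 1 / 4 * (y : ℝ) ^ ρ ≤ (oq Q y).card * Real.log y := by
  set κ₁ := min κ₀ 1 with hκ₁
  have hκ₁0 : 0 < κ₁ := lt_min hκ one_pos
  have hlog2 : ∀ᶠ y : ℕ in atTop, Real.log (y : ℝ) ≤ (κ₁ / 2) * (y : ℝ) ^ ρ := by
    have h1 := (isLittleO_log_rpow_atTop (r := ρ) hρ).bound (c := κ₁ / 2) (by positivity)
    filter_upwards [tendsto_natCast_atTop_atTop.eventually h1] with y hy
    rw [Real.norm_eq_abs, Real.norm_eq_abs,
      abs_of_nonneg (Real.rpow_nonneg (Nat.cast_nonneg y : (0 : ℝ) ≤ (y : ℝ)) ρ)] at hy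
    exact (le_abs_self _).trans hy
  filter_upwards [hlog2, eventually_ge_atTop (max y₀ 1)] with y h2 h3
  have hy0 : y₀ ≤ y := (le_max_left _ _).trans h3
  have hy1 : 1 ≤ y := (le_max_right _ _).trans h3
  have hy1' : (1 : ℝ) ≤ y := by exact_mod_cast hy1
  have hL : 0 ≤ Real.log (y : ℝ) := Real.log_nonneg hy1'
  have hcard : ((primesIn Q y).ncard : ℝ) ≤ (oq Q y).card + 1 := by
    have hsub : primesIn Q y ⊆ ((oq Q y ∪ {2} : Finset ℕ) : Set ℕ) := by
      intro p hp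
      obtain ⟨hp1, hp2, hp3⟩ := hp
      rw [mem_coe, mem_union, mem_singleton]
      by_cases hp4 : p = 2
      · exact Or.inr hp4
      · refine Or.inl ?_
        simp only [oq, mem_filter, mem_range]
        exact ⟨by omega, hp1, hp4, hp3⟩
    have h4 := Set.ncard_le_ncard hsub (Finset.finite_toSet _)
    rw [Set.ncard_coe_finset] at h4
    have h5 : (oq Q y ∪ {2}).card ≤ (oq Q y).card + 1 := by
      refine (card_union_le _ _).trans ?_
      simp
    exact_mod_cast h4.trans h5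
  have hpi := h y hy0
  have hmul : κ₀ * (y : ℝ) ^ ρ ≤ ((oq Q y).card + 1) * Real.log y :=
    hpi.trans (mul_le_mul_of_nonneg_right hcard hL)
  have hP : 0 ≤ (y : ℝ) ^ ρ := Real.rpow_nonneg (by linarith) _
  have h6 : κ₁ * (y : ℝ) ^ ρ ≤ κ₀ * (y : ℝ) ^ ρ := mul_le_mul_of_nonneg_right (min_le_left _ _) hP
  nlinarith [mul_nonneg hκ₁0.le hP]

lemma step3 {A ρ e : ℝ} (hA : 0 < A) (hρ : 1 < A * ρ) (he : 0 < e) :
    ∀ᶠ y : ℕ in atTop, 3 * (y : ℝ) ^ (1 / A) * Real.log y ≤ e * (y : ℝ) ^ ρ := by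
  have hr : 0 < ρ - 1 / A := by
    rw [sub_pos, div_lt_iff₀ hA]
    linarith
  have h1 := (isLittleO_log_rpow_atTop (r := ρ - 1 / A) hr).bound (c := e / 3) (by positivity)
  filter_upwards [tendsto_natCast_atTop_atTop.eventually h1, eventually_ge_atTop 1] with y hy hy1
  have hy0 : (0 : ℝ) < y := by exact_mod_cast hy1
  rw [Real.norm_eq_abs, Real.norm_eq_abs, abs_of_nonneg (Real.rpow_nonneg hy0.le _)] at hy
  have h2 := (le_abs_self _).trans hy
  have h3 : (y : ℝ) ^ (1 / A) * (y : ℝ) ^ (ρ - 1 / A) = (y : ℝ) ^ ρ := by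
    rw [← Real.rpow_add hy0]
    congr 1
    ring
  have h4 : 0 ≤ (y : ℝ) ^ (1 / A) := Real.rpow_nonneg hy0.le _
  have h5 := mul_le_mul_of_nonneg_left h2 h4
  calc 3 * (y : ℝ) ^ (1 / A) * Real.log y = 3 * ((y : ℝ) ^ (1 / A) * Real.log y) := by ring
    _ ≤ 3 * ((y : ℝ) ^ (1 / A) * (e / 3 * (y : ℝ) ^ (ρ - 1 / A))) := by linarith
    _ = e * ((y : ℝ) ^ (1 / A) * (y : ℝ) ^ (ρ - 1 / A)) := by ring
    _ = _ := by rw [h3]

lemma card_oq_le (Q : Set ℕ) (y : ℕ) : (oq Q y).card ≤ (primesIn Q y).ncard := by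
  have hsub : ((oq Q y : Finset ℕ) : Set ℕ) ⊆ primesIn Q y := by
    intro p hp
    simp only [oq, mem_coe, mem_filter, mem_range] at hp
    exact ⟨hp.2.1, by omega, hp.2.2.2⟩
  have hfin : (primesIn Q y).Finite := by
    refine (Finset.finite_toSet (range (y + 1))).subset ?_
    rintro p ⟨-, hp, -⟩
    rw [mem_coe, mem_range]
    omega
  have := Set.ncard_le_ncard hsub hfin
  rwa [Set.ncard_coe_finset] at this

theorem main (hB : S_BAD2) (hS : S_SPL) : S_CNT2 := by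
  classical
  intro A ρ η ε Q hρ hρ1 hAρ hη hε hQ
  obtain ⟨κ₀, hκ₀, y₀, hy₀⟩ := hQ
  have hA1 : 1 < A := by nlinarith
  set κ : ℝ := min κ₀ 1 / 4 with hκdef
  set η₁ : ℝ := min η 1 with hη₁def
  have hκ : 0 < κ := by
    have := lt_min hκ₀ one_pos
    positivity
  have hκ1 : κ ≤ 1 := by
    have := min_le_right κ₀ (1 : ℝ)
    rw [hκdef]; linarith
  have hη₁ : 0 < η₁ := lt_min hη one_pos
  have hη₁1 : η₁ ≤ 1 := min_le_right _ _
  have hη₁η : η₁ ≤ η := min_le_left _ _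
  obtain ⟨c₀, K₀, hc₀, hK₀, hbad⟩ := hB A ρ κ (η₁ / 2) (ε / 2) hρ hρ1 hAρ hκ hκ1 (by positivity)
    (by linarith) (by positivity)
  obtain ⟨y₁, hy₁⟩ := eventually_atTop.1 (step1 hρ hκ₀ hy₀)
  obtain ⟨y₂, hy₂⟩ := eventually_atTop.1 (step3 (e := η₁ / 2 * κ) (by linarith) hAρ
    (by positivity))
  have hlogt : Tendsto (fun t : ℕ => Real.log (t : ℝ)) atTop atTop :=
    Real.tendsto_log_atTop.comp tendsto_natCast_atTop_atTop
  obtain ⟨t₀', ht₀'⟩ := eventually_atTop.1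
    (hlogt.eventually_ge_atTop (max 1 ((max (max y₁ y₂) 2 : ℕ) : ℝ)))
  set t₀ := max t₀' 3 with ht₀def
  set c : ℝ := min c₀ (ε / 2) with hcdef
  have hc : 0 < c := lt_min hc₀ (by positivity)
  have hA0 : (0 : ℝ) < A := by linarith
  refine ⟨c, 1 + t₀ + 4 * K₀, hc, by positivity, ?_⟩
  intro X T hX hT
  have hX1 : (1 : ℝ) ≤ X := by exact_mod_cast hX
  have hX0 : (0 : ℝ) < X := by linarith
  -- the bad squarefree numbers
  set B : ℕ → Finset ℕ := fun y =>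
    (sq X).filter (fun m => η₁ / 2 * (oq Q y).card ≤ (|ss Q m y| : ℝ)) with hBdef
  set Y : Finset ℕ := (range (⌊(X : ℝ) ^ c⌋₊ + 1)).filter (fun y =>
    κ * (y : ℝ) ^ ρ ≤ (oq Q y).card * Real.log y ∧ (Real.log X / A) ^ A ≤ (y : ℝ)) with hYdef
  have hYc : ∀ y ∈ Y, (y : ℝ) ≤ (X : ℝ) ^ c := by
    intro y hy
    rw [hYdef, mem_filter, mem_range] at hy
    have h1 : y ≤ ⌊(X : ℝ) ^ c⌋₊ := by omega
    exact (Nat.cast_le.2 h1).trans (Nat.floor_le (by positivity))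
  have hBc : ∀ y ∈ Y, ((B y).card : ℝ) ≤ K₀ * (X : ℝ) ^ (1 - ρ + 1 / A + ε / 2) := by
    intro y hy
    have h2 := hYc y hy
    rw [hYdef, mem_filter] at hy
    refine hbad Q X y hX hy.2.2 (h2.trans ?_) hy.2.1
    exact Real.rpow_le_rpow_of_exponent_le hX1 (min_le_left _ _)
  have key : T ⊆ Icc 1 ⌊(X : ℝ) ^ (1 / A)⌋₊ ∪ range t₀ ∪
      Y.biUnion (fun y => B y ∪ (B y).image (fun m => 4 * m)) := by
    intro t ht
    obtain ⟨ht1, htX, htN, htH⟩ := hT t ht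
    by_cases h1 : t < t₀
    · exact mem_union_left _ (mem_union_right _ (mem_range.2 h1))
    by_cases h2 : (t : ℝ) ≤ (X : ℝ) ^ (1 / A)
    · refine mem_union_left _ (mem_union_left _ ?_)
      rw [mem_Icc]
      exact ⟨ht1, Nat.le_floor h2⟩
    push Not at h1 h2
    refine mem_union_right _ ?_
    have ht1' : (1 : ℝ) ≤ t := by exact_mod_cast ht1
    have ht0 : (0 : ℝ) < t := by linarith
    have habs : |((-(t : ℤ) : ℤ) : ℝ)| = (t : ℝ) := by
      push_cast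
      rw [abs_neg, abs_of_pos ht0]
    unfold Half at htH
    push Not at htH
    obtain ⟨y, hyA, hyc, hyb⟩ := htH
    rw [habs] at hyA hyc
    have hlog := ht₀' t ((le_max_left _ _).trans h1)
    have hlog1 : 1 ≤ Real.log (t : ℝ) := (le_max_left _ _).trans hlog
    have hlogM : ((max (max y₁ y₂) 2 : ℕ) : ℝ) ≤ Real.log (t : ℝ) := (le_max_right _ _).trans hlog
    have hlogy : Real.log (t : ℝ) ≤ (y : ℝ) := by
      refine le_trans ?_ hyA
      calc Real.log (t : ℝ) = Real.log (t : ℝ) ^ (1 : ℝ) := (Real.rpow_one _).symm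
        _ ≤ _ := Real.rpow_le_rpow_of_exponent_le hlog1 hA1.le
    have hMy : max (max y₁ y₂) 2 ≤ y := by
      have h3 : ((max (max y₁ y₂) 2 : ℕ) : ℝ) ≤ (y : ℝ) := hlogM.trans hlogy
      exact_mod_cast h3
    have hyy1 : y₁ ≤ y := ((le_max_left _ _).trans (le_max_left _ _)).trans hMy
    have hyy2 : y₂ ≤ y := ((le_max_right _ _).trans (le_max_left _ _)).trans hMy
    have hyy3 : 2 ≤ y := (le_max_right _ _).trans hMy
    have hy2' : (2 : ℝ) ≤ y := by exact_mod_cast hyy3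
    have hly : 0 < Real.log (y : ℝ) := Real.log_pos (by linarith)
    have hk1 := hy₁ y hyy1
    have hk2 := hy₂ y hyy2
    have hlX : Real.log X / A ≤ Real.log (t : ℝ) := by
      have h4 : Real.log ((X : ℝ) ^ (1 / A)) ≤ Real.log (t : ℝ) :=
        Real.log_le_log (by positivity) h2.le
      rw [Real.log_rpow hX0] at h4
      calc Real.log X / A = 1 / A * Real.log X := by ring
        _ ≤ _ := h4
    have hXy : (Real.log X / A) ^ A ≤ (y : ℝ) := by
      refine le_trans (Real.rpow_le_rpow ?_ hlX hA0.le) hyA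
      exact div_nonneg (Real.log_nonneg hX1) hA0.le
    have hycX : (y : ℝ) ≤ (X : ℝ) ^ c := by
      refine hyc.trans (Real.rpow_le_rpow ht0.le ?_ hc.le)
      exact_mod_cast htX
    have hyY : y ∈ Y := by
      rw [hYdef, mem_filter, mem_range]
      refine ⟨?_, hk1, hXy⟩
      have := Nat.le_floor hycX
      omega
    obtain ⟨m, hm1, hm2, hm3⟩ := hS t htN
    have h5 := hm3 Q y
    have hcle : ((oq Q y).card : ℝ) ≤ ((primesIn Q y).ncard : ℝ) := by
      exact_mod_cast card_oq_le Q y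
    have h6 : η₁ * ((oq Q y).card : ℝ) ≤ η * ((primesIn Q y).ncard : ℝ) :=
      mul_le_mul hη₁η hcle (Nat.cast_nonneg _) hη.le
    have hsqy : Real.log (t : ℝ) ≤ (y : ℝ) ^ (1 / A) := by
      have h20 := Real.rpow_le_rpow (Real.rpow_nonneg (by linarith) A) hyA
        (show 0 ≤ 1 / A by positivity)
      rwa [← Real.rpow_mul (by linarith), mul_one_div_cancel hA0.ne', Real.rpow_one] at h20
    have h7 : 3 * (y : ℝ) ^ (1 / A) ≤ η₁ / 2 * (oq Q y).card := by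
      have h8 : 3 * (y : ℝ) ^ (1 / A) * Real.log y ≤ (η₁ / 2 * (oq Q y).card) * Real.log y := by
        refine hk2.trans ?_
        have h9 : η₁ / 2 * (κ * (y : ℝ) ^ ρ) ≤ η₁ / 2 * ((oq Q y).card * Real.log y) :=
          mul_le_mul_of_nonneg_left hk1 (by positivity)
        calc η₁ / 2 * κ * (y : ℝ) ^ ρ = η₁ / 2 * (κ * (y : ℝ) ^ ρ) := by ring
          _ ≤ _ := h9
          _ = _ := by ring
      exact le_of_mul_le_mul_right h8 hly
    have h10 : η₁ / 2 * ((oq Q y).card : ℝ) ≤ |(ss Q m y : ℝ)| := by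
      have h11 := hyb.le.trans h5
      linarith
    have hm0 : 1 ≤ m := by
      rcases hm2 with h | h <;> omega
    have hmX : m ≤ X := by
      rcases hm2 with h | h <;> omega
    have hmB : m ∈ B y := by
      simp only [hBdef, mem_filter]
      refine ⟨?_, by exact_mod_cast h10⟩
      unfold sq
      rw [mem_filter, mem_Icc]
      exact ⟨⟨hm0, hmX⟩, hm1⟩
    rw [mem_biUnion]
    refine ⟨y, hyY, ?_⟩
    rcases hm2 with h | h
    · rw [h]; exact mem_union_left _ hmB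
    · rw [h]; exact mem_union_right _ (mem_image_of_mem _ hmB)
  have hcard := card_le_card key
  have hc1 : (T.card : ℝ) ≤ (X : ℝ) ^ (1 / A) + t₀ + ∑ y ∈ Y, 2 * (K₀ * (X : ℝ) ^ (1 - ρ + 1 / A + ε / 2)) := by
    have e1 : (T.card : ℝ) ≤ ((Icc 1 ⌊(X : ℝ) ^ (1 / A)⌋₊).card : ℝ) + ((range t₀).card : ℝ) +
        ((Y.biUnion (fun y => B y ∪ (B y).image (fun m => 4 * m))).card : ℝ) := by
      have := hcard.trans ((card_union_le _ _).trans (Nat.add_le_add_right (card_union_le _ _) _))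
      exact_mod_cast this
    have e2 : ((Icc 1 ⌊(X : ℝ) ^ (1 / A)⌋₊).card : ℝ) ≤ (X : ℝ) ^ (1 / A) := by
      rw [Nat.card_Icc, Nat.add_sub_cancel]
      exact Nat.floor_le (by positivity)
    have e3 : ((Y.biUnion (fun y => B y ∪ (B y).image (fun m => 4 * m))).card : ℝ) ≤
        ∑ y ∈ Y, 2 * (K₀ * (X : ℝ) ^ (1 - ρ + 1 / A + ε / 2)) := by
      have h1 : ((Y.biUnion (fun y => B y ∪ (B y).image (fun m => 4 * m))).card : ℝ) ≤
          ∑ y ∈ Y, ((B y ∪ (B y).image (fun m => 4 * m)).card : ℝ) := by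
        exact_mod_cast card_biUnion_le
      refine h1.trans (sum_le_sum fun y hy => ?_)
      have h2 : ((B y ∪ (B y).image (fun m => 4 * m)).card : ℝ) ≤ (B y).card + (B y).card := by
        have := (card_union_le (B y) ((B y).image (fun m => 4 * m))).trans
          (Nat.add_le_add_left card_image_le _)
        exact_mod_cast this
      have h3 := hBc y hy
      linarith
    rw [card_range] at e1
    linarith
  have hYcard : (Y.card : ℝ) ≤ (X : ℝ) ^ (ε / 2) + 1 := by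
    have h1 : (Y.card : ℝ) ≤ (⌊(X : ℝ) ^ c⌋₊ : ℝ) + 1 := by
      have := card_filter_le (range (⌊(X : ℝ) ^ c⌋₊ + 1)) (fun y : ℕ =>
        κ * (y : ℝ) ^ ρ ≤ (oq Q y).card * Real.log y ∧ (Real.log X / A) ^ A ≤ (y : ℝ))
      rw [card_range] at this
      exact_mod_cast this
    have h2 : (⌊(X : ℝ) ^ c⌋₊ : ℝ) ≤ (X : ℝ) ^ c := Nat.floor_le (by positivity)
    have h3 : (X : ℝ) ^ c ≤ (X : ℝ) ^ (ε / 2) :=
      Real.rpow_le_rpow_of_exponent_le hX1 (min_le_right _ _)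
    linarith
  rw [sum_const, nsmul_eq_mul] at hc1
  have hE1 : (1 : ℝ) ≤ (X : ℝ) ^ (ε / 2) := Real.one_le_rpow hX1 (by positivity)
  have hprod : (X : ℝ) ^ (ε / 2) * (X : ℝ) ^ (1 - ρ + 1 / A + ε / 2) =
      (X : ℝ) ^ (1 - ρ + 1 / A + ε) := by
    rw [← Real.rpow_add hX0]
    congr 1
    ring
  have hiA : 0 < 1 / A := by positivity
  have hbig : (1 : ℝ) ≤ (X : ℝ) ^ (1 - ρ + 1 / A + ε) := Real.one_le_rpow hX1 (by linarith)
  have hmono : (X : ℝ) ^ (1 / A) ≤ (X : ℝ) ^ (1 - ρ + 1 / A + ε) :=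
    Real.rpow_le_rpow_of_exponent_le hX1 (by linarith)
  have hP : 0 ≤ (X : ℝ) ^ (1 - ρ + 1 / A + ε / 2) := by positivity
  have hfin : (Y.card : ℝ) * (2 * (K₀ * (X : ℝ) ^ (1 - ρ + 1 / A + ε / 2))) ≤
      4 * K₀ * (X : ℝ) ^ (1 - ρ + 1 / A + ε) := by
    have h1 : (Y.card : ℝ) ≤ 2 * (X : ℝ) ^ (ε / 2) := by linarith
    calc (Y.card : ℝ) * (2 * (K₀ * (X : ℝ) ^ (1 - ρ + 1 / A + ε / 2)))
        ≤ (2 * (X : ℝ) ^ (ε / 2)) * (2 * (K₀ * (X : ℝ) ^ (1 - ρ + 1 / A + ε / 2))) := by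
          apply mul_le_mul_of_nonneg_right h1
          positivity
      _ = 4 * K₀ * ((X : ℝ) ^ (ε / 2) * (X : ℝ) ^ (1 - ρ + 1 / A + ε / 2)) := by ring
      _ = _ := by rw [hprod]
  have ht0' : (0 : ℝ) ≤ t₀ := Nat.cast_nonneg _
  nlinarith [mul_le_mul_of_nonneg_left hbig ht0']

end Pool.Agent.Y549.SP.CNT2
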