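import Pool.Agent.Y549.SP.Stm3
import Pool.Agent.Y549.SP.CNT2
import Pool.Agent.Y549.SP.SPL

/-! Project SP3, job TW (helper961): counting the bad twists. -/

set_option autoImplicit false

namespace Pool.Agent.Y549.SP.TW

open Finset Filter Topology
open Pool.Agent.Y549.SP

/-- discriminants are at least `3` in absolute value -/
lemma three_le {d : ℤ} (hd : NegFund d) : (3 : ℝ) ≤ |(d : ℝ)| := by
  have h : d ≤ -3 := by
    obtain ⟨h0, ⟨h1, -⟩ | ⟨m, h1, -, -⟩⟩ := hd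
    · omega
    · omega
  have h2 : (d : ℝ) ≤ -3 := by exact_mod_cast h
  rw [abs_of_neg (by linarith)]
  linarith

lemma one_lt_log {d : ℤ} (hd : NegFund d) : 1 < Real.log |(d : ℝ)| := by
  have h := three_le hd
  rw [Real.lt_log_iff_exp_lt (by linarith)]
  have := Real.exp_one_lt_d9
  linarith

/-- the primes below the threshold -/
lemma range_eq (Q : Set ℕ) (d : ℤ) (h : 0 < thr d) (y : ℕ) (hy : y = ⌈thr d⌉₊ - 1) :
    (y : ℝ) < thr d ∧ thr d ≤ y + 1 ∧ (splitIn Q d y).ncard = NQ Q d ∧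
      (primesIn Q y).ncard = MQ Q d := by
  have hc1 : 1 ≤ ⌈thr d⌉₊ := Nat.one_le_ceil_iff.mpr h
  have hy1 : ∀ p : ℕ, p ≤ y ↔ (p : ℝ) < thr d := by
    intro p
    rw [← Nat.lt_ceil, hy]
    omega
  refine ⟨(hy1 y).mp le_rfl, ?_, ?_, ?_⟩
  · have h1 : ¬ (y + 1 ≤ y) := by omega
    rw [hy1] at h1
    push_cast at h1
    exact not_lt.mp h1
  · unfold NQ
    congr 1
    ext p
    constructor
    · rintro ⟨a1, a2, a3, a4⟩
      exact ⟨a1, a3, (hy1 p).mp a2, a4⟩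
    · rintro ⟨a1, a2, a3, a4⟩
      exact ⟨a1, (hy1 p).mpr a3, a2, a4⟩
  · unfold MQ
    congr 1
    ext p
    constructor
    · rintro ⟨a1, a2, a3⟩
      exact ⟨a1, a3, (hy1 p).mp a2⟩
    · rintro ⟨a1, a2, a3⟩
      exact ⟨a1, (hy1 p).mpr a3, a2⟩

/-- the sums of symbols -/
lemma sd_eq (Q : Set ℕ) (d : ℤ) (m t m₀ y : ℕ) (h1 : d * m = -(t : ℤ)) (h2 : t = m₀ ∨ t = 4 * m₀) :
    sd Q d m y = ss Q m₀ y := by
  unfold sd ss
  refine sum_congr rfl fun p hp => ?_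
  simp only [oq, mem_filter] at hp
  rw [h1]
  rcases h2 with h | h
  · rw [h]
  · rw [h]
    push_cast
    rw [← mul_neg]
    exact SPL.jac_four _ _ hp.2.1 hp.2.2.1

lemma thr_ge {l L : ℝ} (hl : 1 < l) (hL : l ≤ L) (hlog : 2 ≤ Real.log L) :
    l ^ 2 + 1 ≤ L ^ 2 * Real.log L ^ 2 := by
  have h1 : (4 : ℝ) ≤ Real.log L ^ 2 := by nlinarith
  have h2 : l ^ 2 ≤ L ^ 2 := pow_le_pow_left₀ (by linarith) hL 2
  nlinarith

lemma thr_le {l L : ℝ} (hl : 1 < l) (hL0 : l ≤ L) (hL2 : L ≤ 2 * l) (hlog : 2 ≤ Real.log L)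
    (h1 : Real.log L ≤ 1 / 4 * (2 * l) ^ (1 / 2 : ℝ)) : L ^ 2 * Real.log L ^ 2 ≤ l ^ 3 := by
  have h2 : ((2 * l) ^ (1 / 2 : ℝ)) ^ 2 = 2 * l := by
    rw [← Real.rpow_natCast, ← Real.rpow_mul (by linarith)]
    norm_num
  have h3 : Real.log L ^ 2 ≤ l / 8 := by
    calc Real.log L ^ 2 ≤ (1 / 4 * (2 * l) ^ (1 / 2 : ℝ)) ^ 2 :=
          pow_le_pow_left₀ (by linarith) h1 2
      _ = 1 / 16 * ((2 * l) ^ (1 / 2 : ℝ)) ^ 2 := by ring
      _ = l / 8 := by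
          rw [h2]
          ring
  have h4 : L ^ 2 ≤ (2 * l) ^ 2 := pow_le_pow_left₀ (by linarith) hL2 2
  calc L ^ 2 * Real.log L ^ 2 ≤ (2 * l) ^ 2 * (l / 8) :=
        mul_le_mul h4 h3 (by positivity) (by positivity)
    _ = l ^ 3 / 2 := by ring
    _ ≤ l ^ 3 := by
        have : 0 < l ^ 3 := by positivity
        linarith

theorem main (hB : S_BAD3) (hS : S_SPL) : S_TW := by
  classical
  intro A ρ η ε Q hA hρ hρ1 hη hε hQ
  obtain ⟨κ₀, hκ₀, y₀, hy₀⟩ := hQ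
  have hA0 : (0 : ℝ) < A := by linarith
  have hρ0 : 0 < ρ := by linarith
  have hAρ : 1 < A * ρ := by nlinarith
  set κ : ℝ := min κ₀ 1 / 4 with hκdef
  set η₁ : ℝ := min η 1 with hη₁def
  have hκ : 0 < κ := by
    have := lt_min hκ₀ one_pos
    positivity
  have hκ1 : κ ≤ 1 := by
    have := min_le_right κ₀ (1 : ℝ)
    rw [hκdef]; linarith
  have hη₁ : 0 < η₁ := lt_min hη one_pos
  have hη₁1 : η₁ ≤ 1 := min_le_right _ _
  have hη₁η : η₁ ≤ η := min_le_left _ _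
  obtain ⟨c, K₀, hc, hK₀, hbad⟩ := hB A ρ κ (η₁ / 2) (ε / 2) hρ0 hρ1 hAρ hκ hκ1 (by positivity)
    (by linarith) (by positivity)
  obtain ⟨y₁, hy₁⟩ := eventually_atTop.1 (CNT2.step1 hρ0 hκ₀ hy₀)
  obtain ⟨y₂, hy₂⟩ := eventually_atTop.1 (CNT2.step3 (A := 2) (ρ := ρ) (e := 3 / 5 * (η₁ / 2 * κ))
    two_pos (by linarith) (by positivity))
  -- large `l`
  have hev1 : ∀ᶠ l : ℝ in atTop, Real.log (2 * l) ≤ 1 / 4 * (2 * l) ^ (1 / 2 : ℝ) := by
    have h1 := (isLittleO_log_rpow_atTop (r := (1 / 2 : ℝ)) (by norm_num)).bound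
      (c := 1 / 4) (by norm_num)
    have h2 : Tendsto (fun l : ℝ => 2 * l) atTop atTop :=
      tendsto_id.const_mul_atTop two_pos
    filter_upwards [h2.eventually h1, eventually_ge_atTop (0 : ℝ)] with l hl hl0
    rw [Real.norm_eq_abs, Real.norm_eq_abs,
      abs_of_nonneg (Real.rpow_nonneg (by linarith : (0 : ℝ) ≤ 2 * l) _)] at hl
    exact (le_abs_self _).trans hl
  have hev2 : ∀ᶠ l : ℝ in atTop, 2 ≤ Real.log l :=
    Real.tendsto_log_atTop.eventually (eventually_ge_atTop 2)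
  obtain ⟨L₀, hL₀⟩ := eventually_atTop.1 (hev1.and (hev2.and
    (eventually_ge_atTop ((max (max y₁ y₂) 2 : ℕ) : ℝ))))
  have hC3 : 3 ≤ (3 / c + 6 / ε) * c := by
    have h1 : (3 / c + 6 / ε) * c = 3 + 6 / ε * c := by field_simp
    have h2 : 0 < 6 / ε * c := by positivity
    linarith
  have hC4 : 3 ≤ (3 / c + 6 / ε) * (ε / 2) := by
    have h1 : (3 / c + 6 / ε) * (ε / 2) = 3 + 3 / c * (ε / 2) := by
      field_simp
      ring
    have h2 : 0 < 3 / c * (ε / 2) := by positivity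
    linarith
  have hiA : 0 < 1 / A := by positivity
  refine ⟨3 / c + 6 / ε, 4 * K₀ + Real.exp L₀, by positivity, by positivity, ?_⟩
  intro d hd X hX1 hX2 T hT
  obtain ⟨l, hl⟩ : ∃ l : ℝ, l = Real.log |(d : ℝ)| := ⟨_, rfl⟩
  have hl1 : 1 < l := by
    rw [hl]
    exact one_lt_log hd
  rw [← hl] at hX1 hX2
  have hl0 : 0 < l := by linarith
  have hX1' : (1 : ℝ) ≤ X := (Real.one_le_rpow hl1.le (by positivity)).trans hX1
  have hX0 : (0 : ℝ) < X := by linarith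
  have hXn : 1 ≤ X := by exact_mod_cast hX1'
  have hlA : l ^ (2 / A) ≤ l := by
    calc l ^ (2 / A) ≤ l ^ (1 : ℝ) := Real.rpow_le_rpow_of_exponent_le hl1.le (by
          rw [div_le_one hA0]
          exact hA)
      _ = l := Real.rpow_one l
  have hbig : (1 : ℝ) ≤ (X : ℝ) ^ (1 - ρ + 1 / A + ε) := Real.one_le_rpow hX1' (by linarith)
  by_cases hlL : l < L₀
  · -- small discriminants
    have h1 : T ⊆ Icc 1 X := by
      intro m hm
      obtain ⟨h1, h2, -⟩ := hT m hm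
      exact mem_Icc.2 ⟨h1, h2⟩
    have h2 : (T.card : ℝ) ≤ X := by
      have := card_le_card h1
      rw [Nat.card_Icc, Nat.add_sub_cancel] at this
      exact_mod_cast this
    have h3 : Real.exp (l ^ (2 / A)) ≤ Real.exp L₀ :=
      Real.exp_le_exp.2 (hlA.trans hlL.le)
    have h4 := mul_le_mul_of_nonneg_left hbig (Real.exp_pos L₀).le
    have h5 : 0 ≤ 4 * K₀ * (X : ℝ) ^ (1 - ρ + 1 / A + ε) := by positivity
    rw [add_mul]
    linarith
  push Not at hlL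
  obtain ⟨hlog2l, hlogl, hlM⟩ := hL₀ l hlL
  have hlogX : Real.log X ≤ l ^ (2 / A) := by
    rw [Real.log_le_iff_le_exp hX0]
    exact hX2
  have hlogX0 : 0 ≤ Real.log X := Real.log_nonneg hX1'
  have hXA : (Real.log X / A) ^ A ≤ l ^ 2 := by
    have h1 : Real.log X / A ≤ l ^ (2 / A) := by
      refine (div_le_self hlogX0 (by linarith)).trans hlogX
    calc (Real.log X / A) ^ A ≤ (l ^ (2 / A)) ^ A :=
          Real.rpow_le_rpow (div_nonneg hlogX0 hA0.le) h1 hA0.le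
      _ = l ^ (2 : ℝ) := by
          rw [← Real.rpow_mul hl0.le, div_mul_cancel₀ _ hA0.ne']
      _ = l ^ 2 := by
          rw [← Real.rpow_natCast]
          norm_num
  have hl3 : ∀ s : ℝ, 3 ≤ (3 / c + 6 / ε) * s → 0 < s → l ^ 3 ≤ (X : ℝ) ^ s := by
    intro s hs hs0
    calc l ^ 3 = l ^ (3 : ℝ) := by
          rw [← Real.rpow_natCast]
          norm_num
      _ ≤ l ^ ((3 / c + 6 / ε) * s) := Real.rpow_le_rpow_of_exponent_le hl1.le hs
      _ = (l ^ (3 / c + 6 / ε)) ^ s := Real.rpow_mul hl0.le _ _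
      _ ≤ (X : ℝ) ^ s := Real.rpow_le_rpow (by positivity) hX1 hs0.le
  -- the bad squarefree numbers
  set B : ℕ → Finset ℕ := fun y =>
    (sq X).filter (fun m => η₁ / 2 * (oq Q y).card ≤ (|sd Q d m y| : ℝ)) with hBdef
  set Y : Finset ℕ := (range (⌊(X : ℝ) ^ (ε / 2)⌋₊ + 1)).filter (fun y =>
    κ * (y : ℝ) ^ ρ ≤ (oq Q y).card * Real.log y ∧ (Real.log X / A) ^ A ≤ (y : ℝ) ∧
      (y : ℝ) ≤ (X : ℝ) ^ c) with hYdef
  have hBc : ∀ y ∈ Y, ((B y).card : ℝ) ≤ K₀ * (X : ℝ) ^ (1 - ρ + 1 / A + ε / 2) := by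
    intro y hy
    rw [hYdef, mem_filter] at hy
    exact hbad d Q X y hXn hy.2.2.1 hy.2.2.2 hy.2.1
  have key : T ⊆ Y.biUnion B := by
    intro m hm
    obtain ⟨hm1, hmX, hmsq, hmN, hmb⟩ := hT m hm
    have hm1' : (1 : ℝ) ≤ m := by exact_mod_cast hm1
    have hmX' : (m : ℝ) ≤ X := by exact_mod_cast hmX
    have hd3 := three_le hd
    obtain ⟨t, ht⟩ : ∃ t : ℕ, t = (d * m).natAbs := ⟨_, rfl⟩
    have ht1 : d * m = -(t : ℤ) := by
      have := hmN.1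
      omega
    have ht2 : (t : ℝ) = |(d : ℝ)| * m := by
      rw [ht, Nat.cast_natAbs, Int.cast_abs]
      push_cast
      rw [abs_mul, Nat.abs_cast]
    have habs : |((d * m : ℤ) : ℝ)| = |(d : ℝ)| * m := by
      push_cast
      rw [abs_mul, Nat.abs_cast]
    obtain ⟨L, hL⟩ : ∃ L : ℝ, L = Real.log |((d * m : ℤ) : ℝ)| := ⟨_, rfl⟩
    have hLlog : L = l + Real.log m := by
      rw [hL, habs, Real.log_mul (by linarith) (by linarith), hl]
    have hLl : l ≤ L := by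
      have := Real.log_nonneg hm1'
      linarith
    have hL2 : L ≤ 2 * l := by
      have h1 : Real.log m ≤ Real.log X := Real.log_le_log (by linarith) hmX'
      linarith
    have hlogL : 2 ≤ Real.log L := hlogl.trans (Real.log_le_log hl0 hLl)
    have hlogL2 : Real.log L ≤ Real.log (2 * l) := Real.log_le_log (by linarith) hL2
    have hthr : thr (d * m) = L ^ 2 * Real.log L ^ 2 := by rw [thr, hL]
    have hthr1 : l ^ 2 + 1 ≤ thr (d * m) := by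
      rw [hthr]
      exact thr_ge hl1 hLl hlogL
    have hthr2 : thr (d * m) ≤ l ^ 3 := by
      rw [hthr]
      exact thr_le hl1 hLl hL2 hlogL (hlogL2.trans hlog2l)
    have hthr0 : 0 < thr (d * m) := lt_of_lt_of_le (by positivity) hthr1
    obtain ⟨y, hy⟩ : ∃ y : ℕ, y = ⌈thr (d * m)⌉₊ - 1 := ⟨_, rfl⟩
    obtain ⟨hylt, hyge, hNQ, hMQ⟩ := range_eq Q (d * m) hthr0 y hy
    have hyl2 : l ^ 2 ≤ (y : ℝ) := by linarith
    have hyl3 : (y : ℝ) ≤ l ^ 3 := by linarith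
    have hyM : max (max y₁ y₂) 2 ≤ y := by
      have h1 : ((max (max y₁ y₂) 2 : ℕ) : ℝ) ≤ (y : ℝ) :=
        hlM.trans ((le_self_pow₀ hl1.le two_ne_zero).trans hyl2)
      exact_mod_cast h1
    have hyy1 : y₁ ≤ y := ((le_max_left _ _).trans (le_max_left _ _)).trans hyM
    have hyy2 : y₂ ≤ y := ((le_max_right _ _).trans (le_max_left _ _)).trans hyM
    have hyy3 : 2 ≤ y := (le_max_right _ _).trans hyM
    have hy2' : (2 : ℝ) ≤ y := by exact_mod_cast hyy3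
    have hly : 0 < Real.log (y : ℝ) := Real.log_pos (by linarith)
    have hk1 := hy₁ y hyy1
    have hk2 := hy₂ y hyy2
    have hsqy : l ≤ (y : ℝ) ^ (1 / 2 : ℝ) := by
      have h1 : l = (l ^ 2) ^ (1 / 2 : ℝ) := by
        rw [← Real.sqrt_eq_rpow, Real.sqrt_sq hl0.le]
      rw [h1]
      exact Real.rpow_le_rpow (by positivity) hyl2 (by norm_num)
    have h7 : 5 * (y : ℝ) ^ (1 / 2 : ℝ) ≤ η₁ / 2 * (oq Q y).card := by
      have h8 : 5 * (y : ℝ) ^ (1 / 2 : ℝ) * Real.log y ≤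
          (η₁ / 2 * (oq Q y).card) * Real.log y := by
        have h9 : η₁ / 2 * (κ * (y : ℝ) ^ ρ) ≤ η₁ / 2 * ((oq Q y).card * Real.log y) :=
          mul_le_mul_of_nonneg_left hk1 (by positivity)
        linarith
      exact le_of_mul_le_mul_right h8 hly
    have hyY : y ∈ Y := by
      rw [hYdef, mem_filter, mem_range]
      refine ⟨?_, hk1, hXA.trans hyl2, hyl3.trans (hl3 c hC3 hc)⟩
      have := Nat.le_floor (hyl3.trans (hl3 (ε / 2) hC4 (by positivity)))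
      omega
    have hmN' := hmN
    rw [ht1] at hmN'
    obtain ⟨m₀, hm₀sq, hm₀, hspl⟩ := hS t hmN'
    have h5 := hspl Q y
    rw [← ht1, hNQ, hMQ, ← sd_eq Q d m t m₀ y ht1 hm₀] at h5
    have hlt : Real.log t = L := by rw [ht2, hL, habs]
    rw [hlt] at h5
    have hcle : ((oq Q y).card : ℝ) ≤ (MQ Q (d * m) : ℝ) := by
      rw [← hMQ]
      exact_mod_cast CNT2.card_oq_le Q y
    have h6 : η₁ * ((oq Q y).card : ℝ) ≤ η * (MQ Q (d * m) : ℝ) :=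
      mul_le_mul hη₁η hcle (Nat.cast_nonneg _) hη.le
    have h10 : η₁ / 2 * ((oq Q y).card : ℝ) ≤ |(sd Q d m y : ℝ)| := by
      have h11 := (not_le.1 hmb).le.trans h5
      linarith
    rw [mem_biUnion]
    refine ⟨y, hyY, ?_⟩
    simp only [hBdef, mem_filter]
    refine ⟨?_, by exact_mod_cast h10⟩
    unfold sq
    rw [mem_filter, mem_Icc]
    exact ⟨⟨hm1, hmX⟩, hmsq⟩
  have hcard := card_le_card key
  have hc1 : (T.card : ℝ) ≤ ∑ y ∈ Y, K₀ * (X : ℝ) ^ (1 - ρ + 1 / A + ε / 2) := by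
    have h1 : (T.card : ℝ) ≤ ∑ y ∈ Y, ((B y).card : ℝ) := by
      exact_mod_cast hcard.trans card_biUnion_le
    exact h1.trans (sum_le_sum hBc)
  have hYcard : (Y.card : ℝ) ≤ (X : ℝ) ^ (ε / 2) + 1 := by
    have h1 : (Y.card : ℝ) ≤ (⌊(X : ℝ) ^ (ε / 2)⌋₊ : ℝ) + 1 := by
      have := card_filter_le (range (⌊(X : ℝ) ^ (ε / 2)⌋₊ + 1)) (fun y : ℕ =>
        κ * (y : ℝ) ^ ρ ≤ (oq Q y).card * Real.log y ∧ (Real.log X / A) ^ A ≤ (y : ℝ) ∧
          (y : ℝ) ≤ (X : ℝ) ^ c)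
      rw [card_range] at this
      exact_mod_cast this
    have h2 : (⌊(X : ℝ) ^ (ε / 2)⌋₊ : ℝ) ≤ (X : ℝ) ^ (ε / 2) := Nat.floor_le (by positivity)
    linarith
  rw [sum_const, nsmul_eq_mul] at hc1
  have hE1 : (1 : ℝ) ≤ (X : ℝ) ^ (ε / 2) := Real.one_le_rpow hX1' (by positivity)
  have hprod : (X : ℝ) ^ (ε / 2) * (X : ℝ) ^ (1 - ρ + 1 / A + ε / 2) =
      (X : ℝ) ^ (1 - ρ + 1 / A + ε) := by
    rw [← Real.rpow_add hX0]
    congr 1
    ring
  have hfin : (Y.card : ℝ) * (K₀ * (X : ℝ) ^ (1 - ρ + 1 / A + ε / 2)) ≤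
      2 * K₀ * (X : ℝ) ^ (1 - ρ + 1 / A + ε) := by
    have h1 : (Y.card : ℝ) ≤ 2 * (X : ℝ) ^ (ε / 2) := by linarith
    calc (Y.card : ℝ) * (K₀ * (X : ℝ) ^ (1 - ρ + 1 / A + ε / 2))
        ≤ (2 * (X : ℝ) ^ (ε / 2)) * (K₀ * (X : ℝ) ^ (1 - ρ + 1 / A + ε / 2)) := by
          apply mul_le_mul_of_nonneg_right h1
          positivity
      _ = 2 * K₀ * ((X : ℝ) ^ (ε / 2) * (X : ℝ) ^ (1 - ρ + 1 / A + ε / 2)) := by ring
      _ = _ := by rw [hprod]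
  have h4 : 0 ≤ Real.exp L₀ * (X : ℝ) ^ (1 - ρ + 1 / A + ε) := by positivity
  have h5 : 0 ≤ 2 * K₀ * (X : ℝ) ^ (1 - ρ + 1 / A + ε) := by positivity
  have h6 : 4 * K₀ * (X : ℝ) ^ (1 - ρ + 1 / A + ε) =
      2 * K₀ * (X : ℝ) ^ (1 - ρ + 1 / A + ε) + 2 * K₀ * (X : ℝ) ^ (1 - ρ + 1 / A + ε) := by ring
  rw [add_mul, h6]
  linarith

end Pool.Agent.Y549.SP.TW
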