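import Pool.Agent.Y549.SP.Stm

set_option autoImplicit false

/-! Statements for project SP, second version: sets of primes of exponent `ρ`, and all `A > 1 / ρ`. -/

namespace Pool.Agent.Y549.SP

open Finset

/-- at least `κ y ^ ρ / log y` primes `p ≤ y` lie in `Q`, for all large `y`, for some `κ > 0` -/
def Thick (Q : Set ℕ) (ρ : ℝ) : Prop := ∃ κ : ℝ, 0 < κ ∧ ∃ y₀ : ℕ, ∀ y : ℕ, y₀ ≤ y →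
  κ * (y : ℝ) ^ ρ ≤ (primesIn Q y).ncard * Real.log y

/-- BL: a large sum of `±1` is large on many blocks. -/
def S_BL : Prop := ∀ (P : Finset ℕ) (k b : ℕ), k * b ≤ P.card → P.card ≤ k * b + k →
  ∃ B : ℕ → Finset ℕ, (∀ i < k, B i ⊆ P ∧ (B i).card = b) ∧
    (∀ i < k, ∀ j < k, i ≠ j → Disjoint (B i) (B j)) ∧
    ∀ (x : ℕ → ℤ) (η : ℝ) (r : ℕ), (∀ p ∈ P, |x p| ≤ 1) → 0 < η → η ≤ 1 → 2 * (r : ℝ) ≤ η * k →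
      4 * (k : ℝ) ≤ η * P.card → η * P.card ≤ |((∑ p ∈ P, x p : ℤ) : ℝ)| →
      ∃ J : Finset ℕ, J ⊆ range k ∧ J.card = r ∧
        ∀ i ∈ J, η / 4 * b ≤ |((∑ p ∈ B i, x p : ℤ) : ℝ)|

/-- PJ: products of sums of Jacobi symbols over disjoint sets of primes. -/
def S_PJ : Prop := ∀ (B : ℕ → Finset ℕ) (y b : ℕ) (J : Finset ℕ),
  (∀ i ∈ J, ∀ p ∈ B i, p.Prime ∧ p ≠ 2 ∧ p ≤ y) → (∀ i ∈ J, (B i).card = b) →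
  (∀ i ∈ J, ∀ j ∈ J, i ≠ j → Disjoint (B i) (B j)) →
  ∃ S : Finset ℕ, S.card = b ^ J.card ∧
    (∀ n ∈ S, 1 ≤ n ∧ n ≤ y ^ J.card ∧ Odd n ∧ Squarefree n ∧ n.primeFactors ⊆ J.biUnion B) ∧
    ∀ a : ℤ, ∑ n ∈ S, jacobiSym a n = ∏ i ∈ J, ∑ p ∈ B i, jacobiSym a p

/-- LS2: Heath-Brown's large sieve for these products. -/
def S_LS2 : Prop := ∀ β : ℝ, 0 < β → ∃ C : ℝ, 0 < C ∧
  ∀ (B : ℕ → Finset ℕ) (X y b : ℕ) (J : Finset ℕ) (V : ℝ), 1 ≤ X → y ^ J.card ≤ X →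
  (∀ i ∈ J, ∀ p ∈ B i, p.Prime ∧ p ≠ 2 ∧ p ≤ y) → (∀ i ∈ J, (B i).card = b) →
  (∀ i ∈ J, ∀ j ∈ J, i ≠ j → Disjoint (B i) (B j)) → 0 ≤ V →
    (((sq X).filter (fun m : ℕ => ∀ i ∈ J,
      V ≤ |((∑ p ∈ B i, jacobiSym (-(m : ℤ)) p : ℤ) : ℝ)|)).card : ℝ) * V ^ (2 * J.card) ≤
        C * (X : ℝ) ^ (1 + β) * (b : ℝ) ^ J.card

/-- NUM2: the choice of the parameters (`N` is the number of primes). -/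
def S_NUM2 : Prop := ∀ A ρ κ η ε : ℝ, 0 < ρ → ρ ≤ 1 → 1 < A * ρ → 0 < κ → κ ≤ 1 → 0 < η →
  η ≤ 1 → 0 < ε → ∃ c K : ℝ, 0 < c ∧ 0 < K ∧ ∀ X y N : ℕ, 1 ≤ X → (Real.log X / A) ^ A ≤ y →
    (y : ℝ) ≤ (X : ℝ) ^ c → κ * (y : ℝ) ^ ρ ≤ N * Real.log y → N ≤ y →
    (X : ℝ) ≤ K * (X : ℝ) ^ (1 - ρ + 1 / A + ε) ∨
    ∃ r k b : ℕ, 0 < b ∧ y ^ r ≤ X ∧ k * b ≤ N ∧ N ≤ k * b + k ∧ 2 * (r : ℝ) ≤ η * k ∧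
      4 * (k : ℝ) ≤ η * N ∧
      (X : ℝ) ^ (1 + ε / 2) * 2 ^ k * (b : ℝ) ^ r ≤
        K * (X : ℝ) ^ (1 - ρ + 1 / A + ε) * (η / 4 * b) ^ (2 * r)

/-- BAD2: few squarefree `m` have a large sum `ss`. -/
def S_BAD2 : Prop := ∀ A ρ κ η ε : ℝ, 0 < ρ → ρ ≤ 1 → 1 < A * ρ → 0 < κ → κ ≤ 1 → 0 < η →
  η ≤ 1 → 0 < ε → ∃ c K : ℝ, 0 < c ∧ 0 < K ∧ ∀ (Q : Set ℕ) (X y : ℕ), 1 ≤ X →
    (Real.log X / A) ^ A ≤ y → (y : ℝ) ≤ (X : ℝ) ^ c →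
    κ * (y : ℝ) ^ ρ ≤ (oq Q y).card * Real.log y →
    (((sq X).filter (fun m => η * (oq Q y).card ≤ (|ss Q m y| : ℝ))).card : ℝ) ≤
      K * (X : ℝ) ^ (1 - ρ + 1 / A + ε)

/-- CNT2: few discriminants are bad. -/
def S_CNT2 : Prop := ∀ (A ρ η ε : ℝ) (Q : Set ℕ), 0 < ρ → ρ ≤ 1 → 1 < A * ρ → 0 < η → 0 < ε →
  Thick Q ρ → ∃ c K : ℝ, 0 < c ∧ 0 < K ∧ ∀ (X : ℕ) (T : Finset ℕ), 1 ≤ X →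
    (∀ t ∈ T, 1 ≤ t ∧ t ≤ X ∧ NegFund (-(t : ℤ)) ∧ ¬ Half Q A c η (-(t : ℤ))) →
    (T.card : ℝ) ≤ K * (X : ℝ) ^ (1 - ρ + 1 / A + ε)

end Pool.Agent.Y549.SP
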