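import Pool.Agent.H423R2.RZL.HBLS
import Pool.Agent.Y549.SP.Stm2

set_option autoImplicit false

/-! Heath-Brown's large sieve for products of sums over disjoint sets of primes. -/

namespace Pool.Agent.Y549.SP.LS2

open Finset Real Pool.Agent.H306R2.RZ

theorem main (hP : S_PJ) : S_LS2 := by
  intro β hβ
  obtain ⟨C, hC, hLS⟩ := Pool.Agent.H423R2.RZL.HBLSn.HBLS (β / 2) (by positivity)
  refine ⟨2 * C, by positivity, ?_⟩
  intro B X y b J V hX hyJ hB1 hB2 hB3 hV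
  have hXpos : (0 : ℝ) < X := by exact_mod_cast hX
  obtain ⟨S, hS1, hS2, hS3⟩ := hP B y b J hB1 hB2 hB3
  obtain ⟨a, ha⟩ : ∃ a : ℕ → ℂ, a = fun n =>
    if n ∈ S then (((jacobiSym (-1) n : ℤ) : ℝ) : ℂ) else 0 := ⟨_, rfl⟩
  have h1 := hLS X X hX hX a
  have hsub : S ⊆ osf X := by
    intro n hn
    obtain ⟨b1, b2, b3, b4, _⟩ := hS2 n hn
    rw [osf, mem_filter, mem_Icc]
    exact ⟨⟨b1, b2.trans hyJ⟩, b3, b4⟩
  have hin : ∀ m : ℕ, ∑ n ∈ osf X, a n * (js m n : ℂ) =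
      (((∏ i ∈ J, ∑ p ∈ B i, jacobiSym (-(m : ℤ)) p : ℤ) : ℝ) : ℂ) := by
    intro m
    rw [← hS3]
    have e2 : ∀ n ∈ osf X, a n * (js m n : ℂ) = if n ∈ S then
        (((jacobiSym (-(m : ℤ)) n : ℤ) : ℝ) : ℂ) else 0 := by
      intro n _
      rw [ha]
      simp only
      split_ifs with h
      · unfold js
        rw [neg_eq_neg_one_mul (m : ℤ), jacobiSym.mul_left]
        push_cast
        ring
      · simp
    rw [sum_congr rfl e2, sum_ite_mem, inter_eq_right.mpr hsub]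
    push_cast
    rfl
  have hR : ∑ n ∈ osf X, ‖a n‖ ^ 2 ≤ (b : ℝ) ^ J.card := by
    have e2 : ∀ n ∈ osf X, ‖a n‖ ^ 2 ≤ if n ∈ S then (1 : ℝ) else 0 := by
      intro n _
      rw [ha]
      simp only
      split_ifs with h
      · rcases jacobiSym.trichotomy (-1) n with h | h | h <;> rw [h] <;> simp
      · simp
    refine (sum_le_sum e2).trans ?_
    rw [sum_ite_mem, inter_eq_right.mpr hsub]
    have e3 : (S.card : ℝ) = (b : ℝ) ^ J.card := by exact_mod_cast hS1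
    rw [← e3]
    simp
  have hL : (((sq X).filter (fun m : ℕ => ∀ i ∈ J,
      V ≤ |((∑ p ∈ B i, jacobiSym (-(m : ℤ)) p : ℤ) : ℝ)|)).card : ℝ) * V ^ (2 * J.card) ≤
      ∑ m ∈ sqf X, ‖∑ n ∈ osf X, a n * (js m n : ℂ)‖ ^ 2 := by
    rw [← nsmul_eq_mul, ← sum_const]
    refine le_trans (sum_le_sum fun m hm => ?_)
      (sum_le_sum_of_subset_of_nonneg (?_ : ((sq X).filter (fun m : ℕ => ∀ i ∈ J,
        V ≤ |((∑ p ∈ B i, jacobiSym (-(m : ℤ)) p : ℤ) : ℝ)|)) ⊆ sqf X)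
        fun _ _ _ => by positivity)
    · rw [mem_filter] at hm
      rw [hin, Complex.norm_real, Real.norm_eq_abs]
      have h3 : V ^ J.card ≤ |((∏ i ∈ J, ∑ p ∈ B i, jacobiSym (-(m : ℤ)) p : ℤ) : ℝ)| := by
        rw [Int.cast_prod, abs_prod, ← prod_const]
        exact prod_le_prod (fun _ _ => hV) fun i hi => hm.2 i hi
      rw [mul_comm 2, pow_mul]
      exact pow_le_pow_left₀ (by positivity) h3 2
    · intro m hm
      rw [mem_filter, sq, mem_filter] at hm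
      rw [sqf, mem_filter]
      exact hm.1
  have h5 := h1.trans (mul_le_mul_of_nonneg_left hR (by positivity))
  refine (hL.trans h5).trans (le_of_eq ?_)
  rw [mul_rpow hXpos.le hXpos.le, ← rpow_add hXpos, rpow_add hXpos 1, rpow_one,
    show β / 2 + β / 2 = β by ring]
  ring

end Pool.Agent.Y549.SP.LS2
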