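import Pool.Agent.Y549.SP.Stm3

set_option autoImplicit false

/-! All twists of an arbitrary discriminant: the final assembly. -/

namespace Pool.Agent.Y549.SP.Fin3

open Finset Real Pool.Agent.Y549.SP

lemma mf {p : ℕ → Prop} {dp : DecidablePred p} {s : Finset ℕ} {a : ℕ}
    (h : a ∈ @Finset.filter ℕ p dp s) : a ∈ s ∧ p a := (@Finset.mem_filter ℕ p dp s a).mp h

lemma part1 (hT : S_TW) (A ρ η ε : ℝ) (Q : Set ℕ) (hA : 2 ≤ A) (hρ : 1 / 2 < ρ) (hρ1 : ρ ≤ 1)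
    (hη : 0 < η) (hε : 0 < ε) (hQ : Thick Q ρ) : ∃ C K : ℝ, 0 < C ∧ 0 < K ∧
      ∀ d : ℤ, NegFund d → ∀ X : ℕ, Real.log |(d : ℝ)| ^ C ≤ X →
        (X : ℝ) ≤ Real.exp (Real.log |(d : ℝ)| ^ (2 / A)) →
        ({m : ℕ | m ≤ X ∧ Squarefree m ∧ NegFund (d * m) ∧
          ¬ |2 * (NQ Q (d * m) : ℝ) - MQ Q (d * m)| ≤ η * MQ Q (d * m)}.ncard : ℝ) ≤
            K * (X : ℝ) ^ (1 - ρ + 1 / A + ε) := by
  classical
  obtain ⟨C, K, hC, hK, h⟩ := hT A ρ η ε Q hA hρ hρ1 hη hε hQ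
  refine ⟨C, K, hC, hK, fun d hd X h1 h2 => ?_⟩
  have hsub : {m : ℕ | m ≤ X ∧ Squarefree m ∧ NegFund (d * m) ∧
      ¬ |2 * (NQ Q (d * m) : ℝ) - MQ Q (d * m)| ≤ η * MQ Q (d * m)} =
      (((Icc 1 X).filter (fun m : ℕ => Squarefree m ∧ NegFund (d * m) ∧
        ¬ |2 * (NQ Q (d * m) : ℝ) - MQ Q (d * m)| ≤ η * MQ Q (d * m)) : Finset ℕ) : Set ℕ) := by
    ext m
    rw [mem_coe, mem_filter, mem_Icc]
    constructor
    · rintro ⟨a1, a2, a3⟩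
      exact ⟨⟨Nat.one_le_iff_ne_zero.mpr a2.ne_zero, a1⟩, a2, a3⟩
    · rintro ⟨⟨a0, a1⟩, a2, a3⟩
      exact ⟨a1, a2, a3⟩
  rw [hsub, Set.ncard_coe_finset]
  refine h d hd X h1 h2 _ ?_
  intro m hm
  have hm' := mf hm
  have hm2 := mem_Icc.mp hm'.1
  exact ⟨hm2.1, hm2.2, hm'.2.1, hm'.2.2.1, hm'.2.2.2⟩

lemma part2 (hM : S_MANY) : ∃ X₀ : ℕ, ∀ d : ℤ, NegFund d → ∀ X : ℕ, X₀ ≤ X →
    Real.log |(d : ℝ)| ^ 4 ≤ X →
      (X : ℝ) ^ (2 / 5 : ℝ) ≤ ({m : ℕ | m ≤ X ∧ Squarefree m ∧ NegFund (d * m)}.ncard : ℝ) := by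
  classical
  obtain ⟨X₀, h⟩ := hM
  refine ⟨X₀, fun d hd X h1 h2 => ?_⟩
  obtain ⟨T, hT1, hT2⟩ := h d hd X h1 h2
  refine hT2.trans ?_
  have hfin : {m : ℕ | m ≤ X ∧ Squarefree m ∧ NegFund (d * m)}.Finite :=
    (Set.finite_Iic X).subset fun m hm => hm.1
  have h3 : (T : Set ℕ) ⊆ {m : ℕ | m ≤ X ∧ Squarefree m ∧ NegFund (d * m)} := by
    intro m hm
    obtain ⟨a1, a2, a3, a4⟩ := hT1 m (mem_coe.mp hm)
    exact ⟨a2, a3, a4⟩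
  have h4 := Set.ncard_le_ncard h3 hfin
  rw [Set.ncard_coe_finset] at h4
  exact_mod_cast h4

lemma part3 (hT : S_TW) (hM : S_MANY) (hU : Thick Set.univ 1) (η : ℝ) (hη : 0 < η) :
    ∃ C D : ℝ, 0 < C ∧ ∀ d : ℤ, NegFund d → D ≤ |(d : ℝ)| → ∃ m : ℕ, 1 ≤ m ∧
      (m : ℝ) ≤ Real.log |(d : ℝ)| ^ C ∧ Squarefree m ∧ NegFund (d * m) ∧
      |2 * (NQ Set.univ (d * m) : ℝ) - MQ Set.univ (d * m)| ≤ η * MQ Set.univ (d * m) := by
  classical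
  obtain ⟨C, K, hC, hK, h⟩ := hT 4 1 η (1 / 20) Set.univ (by norm_num) (by norm_num) le_rfl hη
    (by norm_num) hU
  obtain ⟨X₀, hX₀⟩ := hM
  obtain ⟨C', hC'⟩ : ∃ C' : ℝ, C' = C + 4 := ⟨_, rfl⟩
  have hC'4 : 4 ≤ C' := by rw [hC']; linarith
  have hC'C : C ≤ C' := by rw [hC']; linarith
  -- eventual conditions
  have hev1 : ∀ᶠ l : ℝ in Filter.atTop, ‖l ^ (C' + 1)‖ ≤ 1 * ‖exp (1 * l)‖ :=
    (isLittleO_rpow_exp_pos_mul_atTop (C' + 1) one_pos).def one_pos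
  have hev1' : ∀ᶠ l : ℝ in Filter.atTop, (l ^ (2 : ℝ)) ^ (C' + 1) ≤ exp l := by
    have h5 : ∀ᶠ l : ℝ in Filter.atTop, ‖l ^ (2 * (C' + 1))‖ ≤ 1 * ‖exp (1 * l)‖ :=
      (isLittleO_rpow_exp_pos_mul_atTop (2 * (C' + 1)) one_pos).def one_pos
    filter_upwards [h5, Filter.eventually_ge_atTop 0] with l b1 b2
    rw [one_mul, one_mul, norm_of_nonneg (by positivity), norm_of_nonneg (exp_pos _).le] at b1
    rwa [← rpow_mul b2]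
  have hsq : Filter.Tendsto (fun l : ℝ => l ^ (1 / 2 : ℝ)) Filter.atTop Filter.atTop :=
    tendsto_rpow_atTop (by norm_num)
  have hev2 := hsq.eventually hev1'
  have hev3 : ∀ᶠ l : ℝ in Filter.atTop, max ((K + 1) ^ (10 : ℝ)) X₀ ≤ l :=
    Filter.eventually_ge_atTop _
  obtain ⟨L0, hL0⟩ := Filter.eventually_atTop.mp
    (hev2.and (hev3.and (Filter.eventually_ge_atTop 2)))
  refine ⟨C' + 1, exp L0, by linarith, fun d hd hD => ?_⟩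
  obtain ⟨l, hl⟩ : ∃ l : ℝ, l = log |(d : ℝ)| := ⟨_, rfl⟩
  have hd0 : 0 < |(d : ℝ)| := lt_of_lt_of_le (exp_pos _) hD
  have hLL : L0 ≤ l := by rw [hl]; exact (le_log_iff_exp_le hd0).mpr hD
  obtain ⟨e1, e2, e3⟩ := hL0 l hLL
  have hl0 : (0 : ℝ) < l := by linarith
  have hl1 : (1 : ℝ) ≤ l := by linarith
  have e1' : l ^ (C' + 1) ≤ exp (l ^ (1 / 2 : ℝ)) := by
    have b1 : (l ^ (1 / 2 : ℝ)) ^ (2 : ℝ) = l := by
      rw [← rpow_mul hl0.le]; norm_num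
    rw [b1] at e1
    exact e1
  obtain ⟨X, hX⟩ : ∃ X : ℕ, X = ⌈l ^ C'⌉₊ := ⟨_, rfl⟩
  have hXlow : l ^ C' ≤ X := by rw [hX]; exact Nat.le_ceil _
  have hlC1 : (1 : ℝ) ≤ l ^ C' := one_le_rpow hl1 (by linarith)
  have hXup : (X : ℝ) ≤ l ^ (C' + 1) := by
    have b1 : (X : ℝ) < l ^ C' + 1 := by rw [hX]; exact Nat.ceil_lt_add_one (by positivity)
    have b2 : l ^ (C' + 1) = l ^ C' * l := by rw [rpow_add hl0, rpow_one]
    rw [b2]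
    nlinarith
  have hlX : l ≤ X := by
    have b1 : l ^ (1 : ℝ) ≤ l ^ C' := rpow_le_rpow_of_exponent_le hl1 (by linarith)
    rw [rpow_one] at b1
    exact b1.trans hXlow
  have hX0 : X₀ ≤ X := by
    have b1 : (X₀ : ℝ) ≤ X := ((le_max_right _ _).trans e2).trans hlX
    exact_mod_cast b1
  have hXpos : (0 : ℝ) < X := by linarith
  have hXK : (K + 1) ^ (10 : ℝ) ≤ X := ((le_max_left _ _).trans e2).trans hlX
  obtain ⟨T, hT1, hT2⟩ := hX₀ d hd X hX0 (by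
    rw [← hl]
    have b1 : l ^ (4 : ℝ) ≤ l ^ C' := rpow_le_rpow_of_exponent_le hl1 hC'4
    have b2 : l ^ (4 : ℝ) = l ^ 4 := by rw [← rpow_natCast]; norm_num
    rw [← b2]
    exact b1.trans hXlow)
  have hbad := h d hd X (by
      rw [← hl]
      exact (rpow_le_rpow_of_exponent_le hl1 hC'C).trans hXlow) (by
      rw [← hl]
      have b1 : (2 : ℝ) / 4 = 1 / 2 := by norm_num
      rw [b1]
      exact hXup.trans e1')
    (T.filter (fun m : ℕ => ¬ |2 * (NQ Set.univ (d * m) : ℝ) - MQ Set.univ (d * m)| ≤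
      η * MQ Set.univ (d * m))) (by
      intro m hm
      have hm' := mf hm
      obtain ⟨a1, a2, a3, a4⟩ := hT1 m hm'.1
      exact ⟨a1, a2, a3, a4, hm'.2⟩)
  have hlt : K * (X : ℝ) ^ (1 - 1 + 1 / 4 + 1 / 20 : ℝ) < (X : ℝ) ^ (2 / 5 : ℝ) := by
    have b1 : (X : ℝ) ^ (2 / 5 : ℝ) = (X : ℝ) ^ (1 / 10 : ℝ) * (X : ℝ) ^ (1 - 1 + 1 / 4 + 1 / 20 : ℝ) := by
      rw [← rpow_add hXpos]; norm_num
    have b2 : K + 1 ≤ (X : ℝ) ^ (1 / 10 : ℝ) := by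
      have b3 := rpow_le_rpow (by positivity) hXK (by norm_num : (0 : ℝ) ≤ 1 / 10)
      rw [← rpow_mul (by positivity)] at b3
      norm_num at b3
      norm_num
      exact b3
    rw [b1]
    have b4 : (0 : ℝ) < (X : ℝ) ^ (1 - 1 + 1 / 4 + 1 / 20 : ℝ) := by positivity
    exact mul_lt_mul_of_pos_right (by linarith) b4
  have hex : ∃ m ∈ T, m ∉ T.filter (fun m : ℕ =>
      ¬ |2 * (NQ Set.univ (d * m) : ℝ) - MQ Set.univ (d * m)| ≤ η * MQ Set.univ (d * m)) := by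
    by_contra hno
    have b1 : T ⊆ T.filter (fun m : ℕ =>
        ¬ |2 * (NQ Set.univ (d * m) : ℝ) - MQ Set.univ (d * m)| ≤ η * MQ Set.univ (d * m)) := by
      intro m hm
      by_contra hm2
      exact hno ⟨m, hm, hm2⟩
    have b2 := card_le_card b1
    have b3 : (T.card : ℝ) ≤ ((T.filter (fun m : ℕ =>
        ¬ |2 * (NQ Set.univ (d * m) : ℝ) - MQ Set.univ (d * m)| ≤
          η * MQ Set.univ (d * m))).card : ℝ) := by exact_mod_cast b2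
    linarith
  obtain ⟨m, hm1, hm2⟩ := hex
  obtain ⟨a1, a2, a3, a4⟩ := hT1 m hm1
  refine ⟨m, a1, ?_, a3, a4, ?_⟩
  · rw [← hl]
    exact le_trans (by exact_mod_cast a2) hXup
  · by_contra h6
    exact hm2 (mem_filter.mpr ⟨hm1, h6⟩)

end Pool.Agent.Y549.SP.Fin3
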