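import Mathlib

set_option autoImplicit false

/-! Statements for project SP (small split primes in imaginary quadratic fields, MP_aaa0df_nt). -/

namespace Pool.Agent.Y549.SP

open Finset

/-- the fundamental discriminants `d < 0`, that is, the discriminants of the imaginary quadratic
fields -/
def NegFund (d : ℤ) : Prop := d < 0 ∧ ((d % 4 = 1 ∧ Squarefree d) ∨
  ∃ m : ℤ, d = 4 * m ∧ (m % 4 = 2 ∨ m % 4 = 3) ∧ Squarefree m)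

/-- the primes `p ≤ y` in the set `Q` -/
def primesIn (Q : Set ℕ) (y : ℕ) : Set ℕ := {p | p.Prime ∧ p ≤ y ∧ p ∈ Q}

/-- the primes `p ≤ y` in the set `Q` which split in the quadratic field of discriminant `d`: `p`
does not divide `d` and `d` is a square modulo `4 p` -/
def splitIn (Q : Set ℕ) (d : ℤ) (y : ℕ) : Set ℕ :=
  {p | p.Prime ∧ p ≤ y ∧ p ∈ Q ∧ ¬ (p : ℤ) ∣ d ∧ ∃ x : ℤ, (4 * (p : ℤ)) ∣ x ^ 2 - d}

/-- `Q` contains a positive proportion of the primes: at least `κ π(y)` primes `p ≤ y` for all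
large `y`, for some `κ > 0` -/
def PositiveDensity (Q : Set ℕ) : Prop := ∃ κ : ℝ, 0 < κ ∧ ∃ y₀ : ℕ, ∀ y : ℕ, y₀ ≤ y →
  κ * Nat.primeCounting y ≤ (primesIn Q y).ncard

/-- For all `y` between `(log |d|) ^ A` and `|d| ^ c` half of the primes `p ≤ y` in `Q` split in
the field of discriminant `d`, up to the relative error `η`. -/
def Half (Q : Set ℕ) (A c η : ℝ) (d : ℤ) : Prop := ∀ y : ℕ, Real.log |(d : ℝ)| ^ A ≤ y →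
  (y : ℝ) ≤ |(d : ℝ)| ^ c →
    |2 * ((splitIn Q d y).ncard : ℝ) - (primesIn Q y).ncard| ≤ η * (primesIn Q y).ncard

open Classical in
/-- the odd primes up to `y` in the set `Q` -/
noncomputable def oq (Q : Set ℕ) (y : ℕ) : Finset ℕ :=
  (range (y + 1)).filter (fun p => p.Prime ∧ p ≠ 2 ∧ p ∈ Q)

/-- the sum of the symbols `(-m | p)` over the odd primes `p ≤ y` in `Q` -/
noncomputable def ss (Q : Set ℕ) (m y : ℕ) : ℤ := ∑ p ∈ oq Q y, jacobiSym (-(m : ℤ)) p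

open Classical in
/-- the squarefree numbers up to `X` -/
noncomputable def sq (X : ℕ) : Finset ℕ := (Icc 1 X).filter Squarefree

/-- KR: elementary symmetric functions of numbers in `{-1, 0, 1}` with a large sum. -/
def S_KR : Prop := ∀ (P : Finset ℕ) (x : ℕ → ℤ), (∀ p ∈ P, x p = 1 ∨ x p = 0 ∨ x p = -1) →
  ∀ k M : ℕ, k ≤ M → (M : ℤ) ≤ |∑ p ∈ P, x p| → 2 * P.card * k ^ 2 ≤ (M - k) ^ 2 →
    (M.choose k : ℤ) ≤ 2 * |∑ T ∈ P.powersetCard k, ∏ p ∈ T, x p|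

/-- LS: large values of `ss` by Heath-Brown's large sieve. -/
def S_LS : Prop := ∀ β : ℝ, 0 < β → ∃ C : ℝ, 0 < C ∧ ∀ (Q : Set ℕ) (X y k M : ℕ), 1 ≤ X →
  y ^ k ≤ X → k ≤ M → 2 * (oq Q y).card * k ^ 2 ≤ (M - k) ^ 2 →
    (((sq X).filter (fun m => (M : ℤ) ≤ |ss Q m y|)).card : ℝ) *
      (M.choose k : ℝ) ^ 2 ≤ C * (X : ℝ) ^ (1 + β) * ((oq Q y).card.choose k : ℝ)

/-- NUM: the choice of the parameters (`P` is the number of primes). -/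
def S_NUM : Prop := ∀ A κ η ε : ℝ, 2 ≤ A → 0 < κ → κ ≤ 1 → 0 < η → η ≤ 1 → 0 < ε →
  ∃ c K : ℝ, 0 < c ∧ 0 < K ∧ ∀ X y P : ℕ, 1 ≤ X → (Real.log X / A) ^ A ≤ y →
    (y : ℝ) ≤ (X : ℝ) ^ c → κ * y ≤ P * Real.log y → P ≤ y →
    ∃ k M : ℕ, y ^ k ≤ X ∧ k ≤ M ∧ (M : ℝ) ≤ η * P ∧ 2 * P * k ^ 2 ≤ (M - k) ^ 2 ∧
      (X : ℝ) ^ (1 + ε / 2) * (P.choose k : ℝ) ≤
        K * (X : ℝ) ^ (1 / A + ε) * (M.choose k : ℝ) ^ 2

/-- BAD: few squarefree `m` have a large sum `ss`. -/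
def S_BAD : Prop := ∀ A κ η ε : ℝ, 2 ≤ A → 0 < κ → κ ≤ 1 → 0 < η → η ≤ 1 → 0 < ε →
  ∃ c K : ℝ, 0 < c ∧ 0 < K ∧ ∀ (Q : Set ℕ) (X y : ℕ), 1 ≤ X → (Real.log X / A) ^ A ≤ y →
    (y : ℝ) ≤ (X : ℝ) ^ c → κ * y ≤ (oq Q y).card * Real.log y →
    (((sq X).filter
      (fun m => η * (oq Q y).card ≤ (|ss Q m y| : ℝ))).card : ℝ) ≤ K * (X : ℝ) ^ (1 / A + ε)

/-- SPL: the number of split primes in terms of `ss`. -/
def S_SPL : Prop := ∀ t : ℕ, NegFund (-(t : ℤ)) → ∃ m : ℕ, Squarefree m ∧ (t = m ∨ t = 4 * m) ∧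
  ∀ (Q : Set ℕ) (y : ℕ),
    |2 * ((splitIn Q (-(t : ℤ)) y).ncard : ℝ) - (primesIn Q y).ncard| ≤
      1 + 2 * Real.log t + |(ss Q m y : ℝ)|

/-- CNT: few discriminants are bad. -/
def S_CNT : Prop := ∀ (A η ε : ℝ) (Q : Set ℕ), 2 ≤ A → 0 < η → 0 < ε → PositiveDensity Q →
  ∃ c K : ℝ, 0 < c ∧ 0 < K ∧ ∀ (X : ℕ) (T : Finset ℕ), 1 ≤ X →
    (∀ t ∈ T, 1 ≤ t ∧ t ≤ X ∧ NegFund (-(t : ℤ)) ∧ ¬ Half Q A c η (-(t : ℤ))) →
    (T.card : ℝ) ≤ K * (X : ℝ) ^ (1 / A + ε)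

/-- ND: the range of the question. -/
def S_ND : Prop := ∀ c : ℝ, 0 < c → ∃ D : ℝ, ∀ d : ℤ, NegFund d → D ≤ |(d : ℝ)| →
  Half Set.univ 2 c (1 / 4) d →
    Real.log |(d : ℝ)| ^ 2 ≤ (Set.ncard {p : ℕ | p.Prime ∧
      (p : ℝ) < Real.log |(d : ℝ)| ^ 2 * Real.log (Real.log |(d : ℝ)|) ^ 2 ∧
      ¬ (p : ℤ) ∣ d ∧ ∃ x : ℤ, (4 * (p : ℤ)) ∣ x ^ 2 - d} : ℝ)

end Pool.Agent.Y549.SP
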