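import Mathlib
import Pool.Agent.Y549.SP.Stm

/-! # Project SP: elementary symmetric functions of signs with a large sum (helper182) -/

set_option autoImplicit false

namespace Pool.Agent.Y549.SP.KR

open Finset Polynomial

/-- alternating sums of rapidly decreasing terms -/
theorem alt (n : ℕ) : ∀ u : ℕ → ℤ, (∀ j, 0 ≤ u j) → (∀ j, 2 * u (j + 1) ≤ u j) →
    u 0 ≤ 2 * ∑ j ∈ range (n + 1), (-1) ^ j * u j ∧ ∑ j ∈ range (n + 1), (-1) ^ j * u j ≤ u 0 := by
  induction n with
  | zero =>
    intro u h0 _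
    have := h0 0
    simp only [zero_add, range_one, sum_singleton, pow_zero, one_mul]
    constructor <;> linarith
  | succ n ih =>
    intro u h0 h1
    obtain ⟨h2, h3⟩ := ih (fun j => u (j + 1)) (fun j => h0 _) (fun j => h1 _)
    have h4 : ∑ j ∈ range (n + 1 + 1), (-1) ^ j * u j =
        u 0 - ∑ j ∈ range (n + 1), (-1) ^ j * u (j + 1) := by
      rw [sum_range_succ', sub_eq_add_neg, ← sum_neg_distrib, add_comm]
      congr 1
      · simp
      · refine sum_congr rfl fun j _ => ?_
        rw [pow_succ]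
        ring
    rw [h4]
    simp only [zero_add] at h2 h3
    have := h1 0
    have := h0 1
    simp only [zero_add] at *
    constructor <;> linarith

theorem coeff_prod (P : Finset ℕ) (x : ℕ → ℤ) (k : ℕ) :
    (∏ p ∈ P, (1 + C (x p) * (X : ℤ[X]))).coeff k = ∑ T ∈ P.powersetCard k, ∏ p ∈ T, x p := by
  rw [prod_one_add, finsetSum_coeff, Finset.powersetCard_eq_filter, sum_filter]
  refine sum_congr rfl fun T _ => ?_
  rw [prod_mul_distrib, prod_const, ← map_prod, coeff_C_mul, coeff_X_pow]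
  by_cases h : #T = k
  · rw [if_pos h, if_pos h.symm, mul_one]
  · rw [if_neg h, if_neg (fun h' => h h'.symm), mul_zero]

theorem prod_eq (P : Finset ℕ) (x : ℕ → ℤ) (hx : ∀ p ∈ P, x p = 1 ∨ x p = 0 ∨ x p = -1) :
    (∏ p ∈ P, (1 + C (x p) * (X : ℤ[X]))) =
      (1 + X) ^ (P.filter (fun p => x p = 1)).card *
        (1 - X) ^ (P.filter (fun p => x p = -1)).card := by
  have h : ∀ p ∈ P, (1 + C (x p) * (X : ℤ[X])) =
      (if x p = 1 then (1 + X) else 1) * (if x p = -1 then (1 - X) else 1) := by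
    intro p hp
    rcases hx p hp with h | h | h <;> rw [h] <;> simp [sub_eq_add_neg]
  rw [prod_congr rfl h, prod_mul_distrib]
  congr 1
  · rw [← prod_filter, prod_const]
  · rw [← prod_filter, prod_const]

theorem sum_eq (P : Finset ℕ) (x : ℕ → ℤ) (hx : ∀ p ∈ P, x p = 1 ∨ x p = 0 ∨ x p = -1) :
    ∑ p ∈ P, x p = ((P.filter (fun p => x p = 1)).card : ℤ) -
      (P.filter (fun p => x p = -1)).card := by
  have h : ∀ p ∈ P, x p = (if x p = 1 then 1 else 0) - (if x p = -1 then 1 else 0) := by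
    intro p hp
    rcases hx p hp with h | h | h <;> rw [h] <;> simp
  rw [sum_congr rfl h, sum_sub_distrib, ← sum_filter, ← sum_filter]
  simp

theorem card_le (P : Finset ℕ) (x : ℕ → ℤ) :
    (P.filter (fun p => x p = 1)).card + (P.filter (fun p => x p = -1)).card ≤ P.card := by
  rw [← card_union_of_disjoint]
  · refine card_le_card (union_subset (filter_subset _ _) (filter_subset _ _))
  · rw [disjoint_filter]
    intro p _ h1 h2
    rw [h1] at h2
    norm_num at h2

/-- the terms -/
def uu (N b k j : ℕ) : ℤ := (b.choose j : ℤ) * (if 2 * j ≤ k then (N.choose (k - 2 * j) : ℤ) else 0)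

theorem uu_nonneg (N b k j : ℕ) : 0 ≤ uu N b k j := by
  unfold uu
  split_ifs <;> positivity

theorem coeff_poly (N b k : ℕ) :
    (((1 + X) ^ N * (1 - X ^ 2) ^ b : ℤ[X])).coeff k =
      ∑ j ∈ range (b + 1), (-1) ^ j * uu N b k j := by
  have h1 : ((1 - X ^ 2) ^ b : ℤ[X]) = ∑ j ∈ range (b + 1), C ((-1) ^ j * (b.choose j : ℤ)) *
      X ^ (2 * j) := by
    rw [sub_eq_add_neg, add_comm, add_pow]
    refine sum_congr rfl fun j _ => ?_
    rw [one_pow, mul_one, neg_pow, ← pow_mul]
    simp only [map_mul, map_pow, map_neg, map_one, map_natCast]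
    ring
  rw [h1, mul_sum, finsetSum_coeff]
  refine sum_congr rfl fun j _ => ?_
  have h2 : ((1 + X) ^ N * (C ((-1) ^ j * (b.choose j : ℤ)) * X ^ (2 * j)) : ℤ[X]) =
      C ((-1) ^ j * (b.choose j : ℤ)) * (X ^ (2 * j) * (1 + X) ^ N) := by ring
  rw [h2, coeff_C_mul, coeff_X_pow_mul']
  unfold uu
  split_ifs
  · rw [coeff_one_add_X_pow]
    push_cast
    ring
  · ring

theorem uu_step (N b k M c : ℕ) (hkM : k ≤ M) (hMN : M ≤ N) (hb : 2 * b ≤ c)
    (hc : 2 * c * k ^ 2 ≤ (M - k) ^ 2) (j : ℕ) : 2 * uu N b k (j + 1) ≤ uu N b k j := by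
  by_cases hj : 2 * (j + 1) ≤ k
  swap
  · have : uu N b k (j + 1) = 0 := by
      unfold uu
      rw [if_neg hj, mul_zero]
    rw [this]
    have := uu_nonneg N b k j
    linarith
  have hk0 : 0 < k := by omega
  obtain ⟨m, hm⟩ : ∃ m, k = 2 * j + 2 + m := ⟨k - (2 * j + 2), by omega⟩
  have e1 : k - 2 * (j + 1) = m := by omega
  have e2 : k - 2 * j = m + 2 := by omega
  unfold uu
  rw [if_pos hj, if_pos (by omega), e1, e2]
  suffices h : 2 * (b.choose (j + 1) * N.choose m) ≤ b.choose j * N.choose (m + 2) by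
    exact_mod_cast h
  have hbc : b.choose (j + 1) ≤ b * b.choose j := by
    have h1 : b.choose (j + 1) * (j + 1) = b.choose j * (b - j) := Nat.choose_succ_right_eq b j
    calc b.choose (j + 1) ≤ b.choose (j + 1) * (j + 1) := Nat.le_mul_of_pos_right _ (by omega)
      _ = b.choose j * (b - j) := h1
      _ ≤ b.choose j * b := Nat.mul_le_mul_left _ (Nat.sub_le _ _)
      _ = _ := Nat.mul_comm _ _
  have hNc : N.choose m * (N - k) ^ 2 ≤ N.choose (m + 2) * k ^ 2 := by
    have h1 : N.choose (m + 1) * (m + 1) = N.choose m * (N - m) := Nat.choose_succ_right_eq N m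
    have h2 : N.choose (m + 2) * (m + 2) = N.choose (m + 1) * (N - (m + 1)) :=
      Nat.choose_succ_right_eq N (m + 1)
    calc N.choose m * (N - k) ^ 2 = N.choose m * ((N - k) * (N - k)) := by rw [pow_two]
      _ ≤ N.choose m * ((N - m) * (N - (m + 1))) := by
          refine Nat.mul_le_mul_left _ (Nat.mul_le_mul (by omega) (by omega))
      _ = (N.choose m * (N - m)) * (N - (m + 1)) := by ring
      _ = (N.choose (m + 1) * (N - (m + 1))) * (m + 1) := by rw [← h1]; ring
      _ = N.choose (m + 2) * ((m + 2) * (m + 1)) := by rw [← h2]; ring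
      _ ≤ N.choose (m + 2) * (k * k) := by
          refine Nat.mul_le_mul_left _ (Nat.mul_le_mul (by omega) (by omega))
      _ = _ := by rw [pow_two]
  have hbk : 4 * b * k ^ 2 ≤ (N - k) ^ 2 := by
    calc 4 * b * k ^ 2 = 2 * (2 * b) * k ^ 2 := by ring
      _ ≤ 2 * c * k ^ 2 := by gcongr
      _ ≤ (M - k) ^ 2 := hc
      _ ≤ (N - k) ^ 2 := Nat.pow_le_pow_left (by omega) 2
  rcases Nat.eq_zero_or_pos (N - k) with h0 | h0
  · have hMk : M - k = 0 := by omega
    rw [hMk] at hc
    have hc0 : c = 0 := by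
      by_contra hne
      have : 0 < 2 * c * k ^ 2 := by positivity
      omega
    have hb0 : b = 0 := by omega
    subst hb0
    simp
  · have hpos : 0 < (N - k) ^ 2 := by positivity
    refine Nat.le_of_mul_le_mul_right ?_ hpos
    calc 2 * (b.choose (j + 1) * N.choose m) * (N - k) ^ 2
        = 2 * b.choose (j + 1) * (N.choose m * (N - k) ^ 2) := by ring
      _ ≤ 2 * (b * b.choose j) * (N.choose (m + 2) * k ^ 2) := by gcongr
      _ ≤ 2 * (2 * (b * b.choose j) * (N.choose (m + 2) * k ^ 2)) := by omega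
      _ = (b.choose j * N.choose (m + 2)) * (4 * b * k ^ 2) := by ring
      _ ≤ (b.choose j * N.choose (m + 2)) * (N - k) ^ 2 := Nat.mul_le_mul_left _ hbk

theorem core (P : Finset ℕ) (x : ℕ → ℤ) (hx : ∀ p ∈ P, x p = 1 ∨ x p = 0 ∨ x p = -1)
    (k M : ℕ) (hkM : k ≤ M) (hM : (M : ℤ) ≤ |∑ p ∈ P, x p|)
    (hP : 2 * P.card * k ^ 2 ≤ (M - k) ^ 2)
    (hab : (P.filter (fun p => x p = -1)).card ≤ (P.filter (fun p => x p = 1)).card) :
    (M.choose k : ℤ) ≤ 2 * |∑ T ∈ P.powersetCard k, ∏ p ∈ T, x p| := by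
  rw [← coeff_prod, prod_eq P x hx]
  rw [sum_eq P x hx] at hM
  have hcard := card_le P x
  set a := (P.filter (fun p => x p = 1)).card
  set b := (P.filter (fun p => x p = -1)).card
  obtain ⟨N, hN⟩ : ∃ N, a = b + N := ⟨a - b, by omega⟩
  have hMN : M ≤ N := by
    rw [hN] at hM
    push_cast at hM
    rw [add_sub_cancel_left, abs_of_nonneg (Nat.cast_nonneg _)] at hM
    exact_mod_cast hM
  have hpoly : ((1 + X) ^ a * (1 - X) ^ b : ℤ[X]) = (1 + X) ^ N * (1 - X ^ 2) ^ b := by
    have : (1 - X ^ 2 : ℤ[X]) = (1 + X) * (1 - X) := by ring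
    rw [hN, this, mul_pow, pow_add]
    ring
  rw [hpoly, coeff_poly]
  obtain ⟨h1, -⟩ := alt b (uu N b k) (uu_nonneg N b k)
    (uu_step N b k M P.card hkM hMN (by omega) hP)
  have h2 : uu N b k 0 = (N.choose k : ℤ) := by
    unfold uu
    simp
  have h3 : (M.choose k : ℤ) ≤ (N.choose k : ℤ) := by
    exact_mod_cast Nat.choose_le_choose k hMN
  have h4 := le_abs_self (∑ j ∈ range (b + 1), (-1) ^ j * uu N b k j)
  linarith

theorem main : S_KR := by
  intro P x hx k M hkM hM hP
  rcases le_total (P.filter (fun p => x p = -1)).card (P.filter (fun p => x p = 1)).card with h | h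
  · exact core P x hx k M hkM hM hP h
  · have h1 := core P (fun p => -x p) (fun p hp => by
      rcases hx p hp with h | h | h <;> rw [h] <;> simp) k M hkM (by
        rw [sum_neg_distrib, abs_neg]; exact hM) hP (by
        have e1 : (P.filter (fun p => -x p = -1)) = P.filter (fun p => x p = 1) := by
          refine filter_congr fun p _ => ?_
          constructor <;> intro h <;> linarith
        have e2 : (P.filter (fun p => -x p = 1)) = P.filter (fun p => x p = -1) := by
          refine filter_congr fun p _ => ?_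
          constructor <;> intro h <;> linarith
        rw [e1, e2]
        exact h)
    have h2 : ∑ T ∈ P.powersetCard k, ∏ p ∈ T, -x p =
        (-1) ^ k * ∑ T ∈ P.powersetCard k, ∏ p ∈ T, x p := by
      rw [mul_sum]
      refine sum_congr rfl fun T hT => ?_
      rw [prod_neg, (mem_powersetCard.1 hT).2]
    rw [h2, abs_mul, abs_pow, abs_neg, abs_one, one_pow, one_mul] at h1
    exact h1

end Pool.Agent.Y549.SP.KR
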