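import Pool.Agent.Y549.SP.Stm

set_option autoImplicit false

/-! Project SP: the range of the question. -/

namespace Pool.Agent.Y549.SP.ND

open Filter Chebyshev

theorem exists_L1 (c : ℝ) (hc : 0 < c) :
    ∃ L1 : ℝ, ∀ L : ℝ, L1 ≤ L → 1 ≤ L ∧ 64 ≤ Real.log L ∧
      L ^ 2 * Real.log L ^ 2 ≤ Real.exp (c * L) := by
  have h1 : ∀ᶠ L : ℝ in atTop, 1 ≤ L := eventually_ge_atTop _
  have h2 : ∀ᶠ L : ℝ in atTop, 64 ≤ Real.log L := Real.tendsto_log_atTop.eventually_ge_atTop _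
  have h3 : ∀ᶠ L : ℝ in atTop, ‖L ^ 4‖ ≤ 1 * ‖Real.exp (c * L)‖ :=
    (isLittleO_pow_exp_pos_mul_atTop 4 hc).bound one_pos
  obtain ⟨L1, hL1⟩ := eventually_atTop.1 (h1.and (h2.and h3))
  refine ⟨L1, fun L hL => ?_⟩
  obtain ⟨e1, e2, e3⟩ := hL1 L hL
  refine ⟨e1, e2, ?_⟩
  rw [one_mul, Real.norm_of_nonneg (by positivity), Real.norm_of_nonneg (Real.exp_pos _).le] at e3
  have h4 : Real.log L ≤ L := by
    have := Real.log_le_sub_one_of_pos (by linarith : 0 < L)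
    linarith
  have h5 : Real.log L ^ 2 ≤ L ^ 2 := pow_le_pow_left₀ (by linarith) h4 2
  calc L ^ 2 * Real.log L ^ 2 ≤ L ^ 2 * L ^ 2 := mul_le_mul_of_nonneg_left h5 (by positivity)
    _ = L ^ 4 := by ring
    _ ≤ _ := e3

theorem card_primesIn (y : ℕ) : (primesIn Set.univ y).ncard = Nat.primeCounting y := by
  have h1 : primesIn Set.univ y = ↑((Finset.range (y + 1)).filter Nat.Prime) := by
    ext p
    simp only [primesIn, Set.mem_ofPred_eq, Set.mem_univ, and_true, Finset.coe_filter,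
      Finset.mem_range]
    constructor
    · rintro ⟨h1, h2⟩
      exact ⟨by omega, h1⟩
    · rintro ⟨h1, h2⟩
      exact ⟨h2, by omega⟩
  rw [h1, Set.ncard_coe_finset, Nat.primeCounting, Nat.primeCounting',
    Nat.count_eq_card_filter_range]

theorem pi_lower (y : ℕ) (hy : 400 ≤ y) :
    (y : ℝ) / 2 ≤ Nat.primeCounting y * Real.log y := by
  have h1 := (psi_ge y).trans (psi_le_primeCounting_mul_log y)
  have hy' : (400 : ℝ) ≤ y := by exact_mod_cast hy
  have h2 : Real.log ((y : ℝ) + 1) ≤ 2 * √((y : ℝ) + 1) := by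
    have h3 : (0 : ℝ) < √((y : ℝ) + 1) := Real.sqrt_pos.2 (by linarith)
    have h4 := Real.log_le_sub_one_of_pos h3
    have h5 : Real.log ((y : ℝ) + 1) = 2 * Real.log √((y : ℝ) + 1) := by
      rw [Real.log_sqrt (by linarith)]
      ring
    rw [h5]
    linarith
  have h3 : 2 * √((y : ℝ) + 1) ≤ 19 / 100 * y := by
    have h4 : √((y : ℝ) + 1) ≤ 19 / 200 * y := by
      rw [Real.sqrt_le_left (by linarith)]
      nlinarith
    linarith
  have h4 := Real.log_two_gt_d9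
  have h5 : (0.6931471803 : ℝ) * y ≤ Real.log 2 * y :=
    mul_le_mul_of_nonneg_right h4.le (by linarith)
  linarith

theorem main : S_ND := by
  intro c hc
  obtain ⟨L1, hL1⟩ := exists_L1 c hc
  refine ⟨Real.exp L1, fun d _ hD hHalf => ?_⟩
  have hd0 : 0 < |(d : ℝ)| := (Real.exp_pos _).trans_le hD
  have hLL : L1 ≤ Real.log |(d : ℝ)| := (Real.le_log_iff_exp_le hd0).2 hD
  set L := Real.log |(d : ℝ)| with hL
  obtain ⟨hL1', hlog, hexp⟩ := hL1 L hLL
  have hL0 : 0 < L := by linarith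
  set lam := Real.log L with hlam
  set z := L ^ 2 * lam ^ 2 with hz
  have hlam2 : 64 * lam ≤ lam ^ 2 := by
    rw [pow_two]
    exact mul_le_mul_of_nonneg_right hlog (by linarith)
  have hL2 : 1 ≤ L ^ 2 := one_le_pow₀ hL1'
  have hz1 : 4096 * L ^ 2 ≤ z := by
    have : (4096 : ℝ) ≤ lam ^ 2 := by linarith
    rw [hz, mul_comm]
    exact mul_le_mul_of_nonneg_left this (by positivity)
  have hz0 : 0 < z := by linarith
  have hceil1 : 1 ≤ ⌈z⌉₊ := Nat.one_le_ceil_iff.2 hz0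
  set y := ⌈z⌉₊ - 1 with hy
  have hycast : (y : ℝ) = (⌈z⌉₊ : ℝ) - 1 := by
    rw [hy, Nat.cast_sub hceil1, Nat.cast_one]
  have hyz : (y : ℝ) < z := by
    have := Nat.ceil_lt_add_one hz0.le
    linarith
  have hyz' : z - 1 ≤ y := by
    have := Nat.le_ceil z
    linarith
  have hy400 : 400 ≤ y := by
    have : (400 : ℝ) ≤ y := by linarith
    exact_mod_cast this
  have h1 := hHalf y (by
    rw [Real.rpow_two]
    linarith) (by
    rw [Real.rpow_def_of_pos hd0, ← hL, mul_comm]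
    linarith)
  rw [card_primesIn] at h1
  have h2 := (abs_le.1 h1).1
  have h3 := pi_lower y hy400
  have hy0 : (0 : ℝ) < y := by linarith
  have hlogy : Real.log y ≤ 4 * lam := by
    have e1 : Real.log y ≤ Real.log z := Real.log_le_log hy0 hyz.le
    have hlam0 : 0 < lam := by linarith
    have e2 : Real.log z = 2 * lam + 2 * Real.log lam := by
      rw [hz, Real.log_mul (by positivity) (by positivity), Real.log_pow, Real.log_pow]
      push_cast
      ring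
    have e3 := Real.log_le_sub_one_of_pos hlam0
    linarith
  have hpi0 : (0 : ℝ) ≤ Nat.primeCounting y := Nat.cast_nonneg _
  have h4 : (y : ℝ) / 2 ≤ Nat.primeCounting y * (4 * lam) :=
    h3.trans (mul_le_mul_of_nonneg_left hlogy hpi0)
  have hS : 3 / 8 * (Nat.primeCounting y : ℝ) ≤ ((splitIn Set.univ d y).ncard : ℝ) := by
    linarith
  have hfin : {p : ℕ | p.Prime ∧ (p : ℝ) < z ∧ ¬ (p : ℤ) ∣ d ∧
      ∃ x : ℤ, (4 * (p : ℤ)) ∣ x ^ 2 - d}.Finite := by
    refine (Set.finite_Iic ⌈z⌉₊).subset fun p hp => ?_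
    have h5 : (p : ℝ) ≤ (⌈z⌉₊ : ℝ) := hp.2.1.le.trans (Nat.le_ceil z)
    exact_mod_cast h5
  have hsub : splitIn Set.univ d y ⊆ {p : ℕ | p.Prime ∧ (p : ℝ) < z ∧ ¬ (p : ℤ) ∣ d ∧
      ∃ x : ℤ, (4 * (p : ℤ)) ∣ x ^ 2 - d} := by
    intro p hp
    refine ⟨hp.1, ?_, hp.2.2.2⟩
    have h5 : (p : ℝ) ≤ y := by exact_mod_cast hp.2.1
    linarith
  have hcard : ((splitIn Set.univ d y).ncard : ℝ) ≤ (Set.ncard {p : ℕ | p.Prime ∧ (p : ℝ) < z ∧
      ¬ (p : ℤ) ∣ d ∧ ∃ x : ℤ, (4 * (p : ℤ)) ∣ x ^ 2 - d} : ℝ) := by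
    exact_mod_cast Set.ncard_le_ncard hsub hfin
  refine le_trans ?_ hcard
  refine le_trans ?_ hS
  have hlam0 : 0 < lam := by linarith
  have h6 : (y : ℝ) ≤ 8 * lam * Nat.primeCounting y := by linarith
  have h7 : 64 * lam * L ^ 2 ≤ 3 * (y : ℝ) := by
    have e1 : 64 * lam * L ^ 2 ≤ z := by
      rw [hz, mul_comm]
      exact mul_le_mul_of_nonneg_left hlam2 (by positivity)
    linarith
  have h8 : (64 * lam) * L ^ 2 ≤ (64 * lam) * (3 / 8 * (Nat.primeCounting y : ℝ)) := by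
    calc 64 * lam * L ^ 2 ≤ 3 * (y : ℝ) := h7
      _ ≤ 3 * (8 * lam * Nat.primeCounting y) := by linarith
      _ = (64 * lam) * (3 / 8 * (Nat.primeCounting y : ℝ)) := by ring
  exact le_of_mul_le_mul_left h8 (by linarith)

end Pool.Agent.Y549.SP.ND
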