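import Pool.Agent.Y549.SP.Stm

set_option autoImplicit false

/-! Project SP: the choice of the parameters. -/

namespace Pool.Agent.Y549.SP.NUM

open Filter

theorem exists_L0 (A κ η ε : ℝ) (hA : 2 ≤ A) (hκ : 0 < κ) (hη : 0 < η) (hε : 0 < ε) :
    ∃ L0 : ℝ, ∀ L : ℝ, L0 ≤ L → 2 * A ≤ L ∧ 8 * A ^ 2 / (κ * η ^ 2) ≤ A * Real.log (L / A) ∧
      Real.log (4 / (η ^ 2 * κ) * L) ≤ (1 + A * ε / 4) * Real.log (L / A) := by
  have hA0 : 0 < A := by linarith
  have h1 : ∀ᶠ L : ℝ in atTop, 2 * A ≤ L := eventually_ge_atTop _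
  have h2 : ∀ᶠ L : ℝ in atTop, 8 * A ^ 2 / (κ * η ^ 2) / A + Real.log A ≤ Real.log L :=
    Real.tendsto_log_atTop.eventually_ge_atTop _
  have h3 : ∀ᶠ L : ℝ in atTop,
      (Real.log (4 / (η ^ 2 * κ)) + (1 + A * ε / 4) * Real.log A) / (A * ε / 4) ≤ Real.log L :=
    Real.tendsto_log_atTop.eventually_ge_atTop _
  obtain ⟨L0, hL0⟩ := eventually_atTop.1 (h1.and (h2.and h3))
  refine ⟨L0, fun L hL => ?_⟩
  obtain ⟨e1, e2, e3⟩ := hL0 L hL
  have hL0 : 0 < L := by linarith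
  have hlog : Real.log (L / A) = Real.log L - Real.log A := Real.log_div hL0.ne' hA0.ne'
  refine ⟨e1, ?_, ?_⟩
  · rw [hlog]
    have : 8 * A ^ 2 / (κ * η ^ 2) / A ≤ Real.log L - Real.log A := by linarith
    have h4 := mul_le_mul_of_nonneg_left this hA0.le
    have h5 : A * (8 * A ^ 2 / (κ * η ^ 2) / A) = 8 * A ^ 2 / (κ * η ^ 2) := by
      field_simp
    linarith
  · rw [Real.log_mul (by positivity) hL0.ne', hlog]
    have hδ : 0 < A * ε / 4 := by positivity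
    rw [div_le_iff₀ hδ] at e3
    linarith

theorem main : S_NUM := by
  intro A κ η ε hA hκ hκ1 hη hη1 hε
  have hA0 : 0 < A := by linarith
  obtain ⟨L0, hL0⟩ := exists_L0 A κ η ε hA hκ hη hε
  refine ⟨min (ε / 4) (1 / 2), Real.exp (max L0 0 * (1 + ε / 2)), lt_min (by positivity)
    (by norm_num), Real.exp_pos _, ?_⟩
  intro X y P hX hy hyX hP hPy
  have hX1 : (1 : ℝ) ≤ X := by exact_mod_cast hX
  have hX0 : (0 : ℝ) < X := by linarith
  have hL00 : 0 ≤ Real.log X := Real.log_nonneg hX1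
  set K := Real.exp (max L0 0 * (1 + ε / 2)) with hK
  have hK1 : 1 ≤ K := by
    have h0 : 0 ≤ max L0 0 := le_max_right L0 0
    exact Real.one_le_exp (by positivity)
  by_cases hLL : Real.log X < L0
  · refine ⟨0, 0, by simpa using hX, le_rfl, by simp; positivity, by simp, ?_⟩
    simp only [Nat.choose_zero_right, Nat.cast_one, mul_one, one_pow]
    have e1 : (X : ℝ) ^ (1 + ε / 2) ≤ K := by
      rw [Real.rpow_def_of_pos hX0, hK]
      apply Real.exp_le_exp.2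
      have : Real.log X ≤ max L0 0 := hLL.le.trans (le_max_left _ _)
      exact mul_le_mul_of_nonneg_right this (by positivity)
    have e2 : 1 ≤ (X : ℝ) ^ (1 / A + ε) := Real.one_le_rpow hX1 (by positivity)
    have e3 : K ≤ K * (X : ℝ) ^ (1 / A + ε) :=
      le_mul_of_one_le_right (by linarith) e2
    linarith
  push Not at hLL
  obtain ⟨hi, hii, hiii⟩ := hL0 _ hLL
  set L := Real.log X with hL
  have hLA2 : 2 ≤ L / A := by
    rw [le_div_iff₀ hA0]
    linarith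
  have hLpos : 0 < L := by linarith
  have hy2 : (L / A) ^ 2 ≤ (y : ℝ) := by
    refine le_trans ?_ hy
    rw [← Real.rpow_two]
    exact Real.rpow_le_rpow_of_exponent_le (by linarith) hA
  have hy4 : (4 : ℝ) ≤ y := by
    have h1 := pow_le_pow_left₀ (by norm_num) hLA2 2
    linarith
  have hy0 : (0 : ℝ) < y := by linarith
  have hy1 : 1 < y := by
    have : (1 : ℝ) < y := by linarith
    exact_mod_cast this
  set l := Real.log y with hl
  have hlA : A * Real.log (L / A) ≤ l := by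
    have h1 : Real.log ((L / A) ^ A) = A * Real.log (L / A) := Real.log_rpow (by linarith) A
    rw [← h1]
    exact Real.log_le_log (Real.rpow_pos_of_pos (by linarith) _) hy
  have hl8 : 8 * A ^ 2 / (κ * η ^ 2) ≤ l := hii.trans hlA
  have hl0 : 0 < l := lt_of_lt_of_le (by positivity) hl8
  set k := Nat.log y X with hk
  have hXne : X ≠ 0 := by omega
  have hk1 : y ^ k ≤ X := Nat.pow_log_le_self y hXne
  have hk2 : X < y ^ (k + 1) := Nat.lt_pow_succ_log_self hy1 X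
  have hkl : (k : ℝ) * l ≤ L := by
    have h1 : ((y ^ k : ℕ) : ℝ) ≤ X := by exact_mod_cast hk1
    have h2 := Real.log_le_log (by positivity) h1
    rw [Nat.cast_pow, Real.log_pow] at h2
    exact h2
  have hyX2 : (y : ℝ) ≤ X := by
    refine hyX.trans ?_
    calc (X : ℝ) ^ (min (ε / 4) (1 / 2)) ≤ (X : ℝ) ^ (1 : ℝ) :=
          Real.rpow_le_rpow_of_exponent_le hX1 ((min_le_right _ _).trans (by norm_num))
      _ = X := Real.rpow_one _
  have hkpos : 1 ≤ k := Nat.log_pos hy1 (by exact_mod_cast hyX2)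
  have hkpos' : (1 : ℝ) ≤ k := by exact_mod_cast hkpos
  have hPpos : (0 : ℝ) < P := by
    by_contra hcon
    push Not at hcon
    have h1 : (P : ℝ) * l ≤ 0 := mul_nonpos_of_nonpos_of_nonneg hcon hl0.le
    have h2 : 0 < κ * y := by positivity
    linarith
  -- (*)
  have hstar : 8 * (k : ℝ) ^ 2 ≤ η ^ 2 * P := by
    have h1 : (k : ℝ) * l ≤ L := hkl
    have h2 : ((k : ℝ) * l) ^ 2 ≤ L ^ 2 := by gcongr
    have h3 : L ^ 2 ≤ A ^ 2 * y := by
      have : L ^ 2 = A ^ 2 * (L / A) ^ 2 := by field_simp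
      rw [this]
      gcongr
    have h4 : 8 * A ^ 2 ≤ l * (κ * η ^ 2) := by
      rwa [div_le_iff₀ (by positivity)] at hl8
    -- 8 k² l² κ ≤ 8 A² y κ ≤ 8 A² P l ≤ l (κ η²) P l
    have h5 : 8 * (k : ℝ) ^ 2 * (l ^ 2 * κ) ≤ (η ^ 2 * P) * (l ^ 2 * κ) := by
      calc 8 * (k : ℝ) ^ 2 * (l ^ 2 * κ) = 8 * κ * ((k : ℝ) * l) ^ 2 := by ring
        _ ≤ 8 * κ * (A ^ 2 * y) := by
            have := h2.trans h3
            gcongr
        _ = 8 * A ^ 2 * (κ * y) := by ring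
        _ ≤ 8 * A ^ 2 * (P * l) := by gcongr
        _ = (8 * A ^ 2) * (P * l) := by ring
        _ ≤ (l * (κ * η ^ 2)) * (P * l) := by gcongr
        _ = (η ^ 2 * P) * (l ^ 2 * κ) := by ring
    exact le_of_mul_le_mul_right h5 (by positivity)
  set M := ⌊η * P⌋₊ with hM
  have hM1 : (M : ℝ) ≤ η * P := Nat.floor_le (by positivity)
  have hM2 : η * P < M + 1 := Nat.lt_floor_add_one _
  have hη2 : η ^ 2 * P ≤ η * P := by
    have : η ^ 2 ≤ η := by
      rw [pow_two]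
      exact mul_le_of_le_one_left hη.le hη1
    gcongr
  have hkk : (k : ℝ) + 1 ≤ 2 * (k : ℝ) ^ 2 := by
    have h1 : (k : ℝ) ≤ (k : ℝ) ^ 2 := by
      rw [pow_two]
      exact le_mul_of_one_le_left (by linarith) hkpos'
    linarith
  have hηP : 0 ≤ η * P := by positivity
  have hMk : η * P / 2 ≤ (M : ℝ) - k := by linarith
  have hkM : k ≤ M := by
    have h1 : (0 : ℝ) ≤ η * P / 2 := by positivity
    have h2 : (k : ℝ) ≤ M := by linarith
    exact_mod_cast h2
  have hsq : 2 * P * k ^ 2 ≤ (M - k) ^ 2 := by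
    have h1 : (2 : ℝ) * P * (k : ℝ) ^ 2 ≤ ((M : ℝ) - k) ^ 2 := by
      have h2 : (η * P / 2) ^ 2 ≤ ((M : ℝ) - k) ^ 2 := by
        have : (0 : ℝ) ≤ η * P / 2 := by positivity
        gcongr
      have h3 : 2 * (P : ℝ) * (k : ℝ) ^ 2 ≤ (η * P / 2) ^ 2 := by
        have h5 := mul_le_mul_of_nonneg_left hstar hPpos.le
        calc 2 * (P : ℝ) * (k : ℝ) ^ 2 = (P * (8 * (k : ℝ) ^ 2)) / 4 := by ring
          _ ≤ (P * (η ^ 2 * P)) / 4 := by linarith
          _ = (η * P / 2) ^ 2 := by ring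
      linarith
    rw [← Nat.cast_sub hkM] at h1
    exact_mod_cast h1
  refine ⟨k, M, hk1, hkM, hM1, hsq, ?_⟩
  -- binomial coefficients
  have hfac0 : (0 : ℝ) < (k.factorial : ℝ) := by exact_mod_cast k.factorial_pos
  have hb1 : (P.choose k : ℝ) ≤ (P : ℝ) ^ k / k.factorial := Nat.choose_le_pow_div k P
  have hb2 : ((M + 1 - k : ℕ) : ℝ) ^ k / k.factorial ≤ (M.choose k : ℝ) := Nat.pow_le_choose k M
  have hb3 : (k.factorial : ℝ) ≤ (k : ℝ) ^ k := by exact_mod_cast Nat.factorial_le_pow k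
  have hb4 : (η * P / 2) ^ k / k.factorial ≤ (M.choose k : ℝ) := by
    refine le_trans ?_ hb2
    have h1 : η * P / 2 ≤ ((M + 1 - k : ℕ) : ℝ) := by
      rw [Nat.cast_sub (by omega)]
      push_cast
      linarith
    have : (0 : ℝ) ≤ η * P / 2 := by positivity
    gcongr
  have hb5 : (P.choose k : ℝ) ≤ (4 * k / (η ^ 2 * P)) ^ k * (M.choose k : ℝ) ^ 2 := by
    have h1 : ((η * P / 2) ^ k / k.factorial) ^ 2 ≤ (M.choose k : ℝ) ^ 2 := by
      have : (0 : ℝ) ≤ (η * P / 2) ^ k / k.factorial := by positivity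
      gcongr
    have h2 : (P : ℝ) ^ k / k.factorial ≤
        (4 * k / (η ^ 2 * P)) ^ k * ((η * P / 2) ^ k / k.factorial) ^ 2 := by
      have e1 : (4 * k / (η ^ 2 * P)) ^ k * ((η * P / 2) ^ k / k.factorial) ^ 2 =
          ((k : ℝ) ^ k / k.factorial) * ((P : ℝ) ^ k / k.factorial) := by
        rw [div_pow ((η * P / 2) ^ k), ← pow_mul, mul_comm k 2, pow_mul, mul_div_assoc',
          ← mul_pow]
        have e2 : 4 * (k : ℝ) / (η ^ 2 * P) * (η * P / 2) ^ 2 = k * P := by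
          field_simp
          ring
        rw [e2, mul_pow]
        field_simp
      rw [e1]
      have e3 : 1 ≤ (k : ℝ) ^ k / k.factorial := by
        rw [le_div_iff₀ hfac0]
        linarith
      have e4 : (0 : ℝ) ≤ (P : ℝ) ^ k / k.factorial := by positivity
      exact le_mul_of_one_le_left e4 e3
    calc (P.choose k : ℝ) ≤ (P : ℝ) ^ k / k.factorial := hb1
      _ ≤ _ := h2
      _ ≤ _ := mul_le_mul_of_nonneg_left h1 (by positivity)
  set C1 := 4 / (η ^ 2 * κ) with hC1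
  have hC10 : 0 < C1 := by positivity
  have hratio : 4 * (k : ℝ) / (η ^ 2 * P) ≤ C1 * L / y := by
    rw [div_le_div_iff₀ (by positivity) hy0, hC1]
    have h1 : 4 / (η ^ 2 * κ) * L * (η ^ 2 * P) = 4 * (L * P) / κ := by
      field_simp
    rw [h1, le_div_iff₀ hκ]
    -- 4 k y κ ≤ 4 L P
    calc 4 * (k : ℝ) * y * κ = 4 * k * (κ * y) := by ring
      _ ≤ 4 * k * (P * l) := by gcongr
      _ = 4 * P * (k * l) := by ring
      _ ≤ 4 * P * L := by gcongr
      _ = 4 * (L * P) := by ring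
  have hyk : (X : ℝ) ≤ (y : ℝ) ^ k * y := by
    have h1 : (X : ℝ) < ((y ^ (k + 1) : ℕ) : ℝ) := by exact_mod_cast hk2
    rw [Nat.cast_pow, pow_succ] at h1
    exact h1.le
  have hyk0 : (0 : ℝ) < (y : ℝ) ^ k := by positivity
  have hpow : (4 * (k : ℝ) / (η ^ 2 * P)) ^ k ≤ (C1 * L) ^ k * (y / X) := by
    calc (4 * (k : ℝ) / (η ^ 2 * P)) ^ k ≤ (C1 * L / y) ^ k := by gcongr
      _ = (C1 * L) ^ k / (y : ℝ) ^ k := div_pow _ _ _
      _ ≤ (C1 * L) ^ k * (y / X) := by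
          rw [div_eq_mul_inv]
          have h1 : ((y : ℝ) ^ k)⁻¹ ≤ y / X := by
            rw [inv_eq_one_div, div_le_div_iff₀ hyk0 hX0]
            linarith
          gcongr
  have hCL : (C1 * L) ^ k ≤ (X : ℝ) ^ (1 / A + ε / 4) := by
    have hCL0 : 0 < C1 * L := by positivity
    have hlogLA : 0 < Real.log (L / A) := Real.log_pos (by linarith)
    have h1 : (k : ℝ) * Real.log (C1 * L) ≤ L * (1 / A + ε / 4) := by
      have e1 : (k : ℝ) * Real.log (C1 * L) ≤ k * ((1 + A * ε / 4) * Real.log (L / A)) :=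
        mul_le_mul_of_nonneg_left hiii (by positivity)
      have e2 : (k : ℝ) * (A * Real.log (L / A)) ≤ L :=
        (mul_le_mul_of_nonneg_left hlA (by positivity)).trans hkl
      have e3 : (k : ℝ) * ((1 + A * ε / 4) * Real.log (L / A)) =
          (1 / A + ε / 4) * (k * (A * Real.log (L / A))) := by
        field_simp
      rw [e3] at e1
      have e4 : (1 / A + ε / 4) * (k * (A * Real.log (L / A))) ≤ (1 / A + ε / 4) * L :=
        mul_le_mul_of_nonneg_left e2 (by positivity)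
      linarith
    have h2 : (C1 * L) ^ k = Real.exp (k * Real.log (C1 * L)) := by
      rw [← Real.log_pow, Real.exp_log (pow_pos hCL0 k)]
    rw [h2, Real.rpow_def_of_pos hX0]
    exact Real.exp_le_exp.2 h1
  have hyc : (y : ℝ) ≤ (X : ℝ) ^ (ε / 4) :=
    hyX.trans (Real.rpow_le_rpow_of_exponent_le hX1 (min_le_left _ _))
  have hch0 : (0 : ℝ) ≤ (M.choose k : ℝ) ^ 2 := by positivity
  have hXe : (0 : ℝ) < (X : ℝ) ^ (1 + ε / 2) := Real.rpow_pos_of_pos hX0 _
  calc (X : ℝ) ^ (1 + ε / 2) * (P.choose k : ℝ)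
      ≤ (X : ℝ) ^ (1 + ε / 2) * ((4 * k / (η ^ 2 * P)) ^ k * (M.choose k : ℝ) ^ 2) := by gcongr
    _ ≤ (X : ℝ) ^ (1 + ε / 2) * (((C1 * L) ^ k * (y / X)) * (M.choose k : ℝ) ^ 2) := by gcongr
    _ ≤ (X : ℝ) ^ (1 + ε / 2) * (((X : ℝ) ^ (1 / A + ε / 4) * ((X : ℝ) ^ (ε / 4) / X)) *
        (M.choose k : ℝ) ^ 2) := by gcongr
    _ = (X : ℝ) ^ (1 / A + ε) * (M.choose k : ℝ) ^ 2 := by
        have e1 : (X : ℝ) ^ (1 + ε / 2) * ((X : ℝ) ^ (1 / A + ε / 4) *
            ((X : ℝ) ^ (ε / 4) / X)) = (X : ℝ) ^ (1 / A + ε) := by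
          have e2 : (X : ℝ) ^ (ε / 4) / X = (X : ℝ) ^ (ε / 4 - 1) := by
            rw [Real.rpow_sub hX0, Real.rpow_one]
          rw [e2, ← Real.rpow_add hX0, ← Real.rpow_add hX0]
          congr 1
          ring
        rw [← mul_assoc, e1]
    _ ≤ K * (X : ℝ) ^ (1 / A + ε) * (M.choose k : ℝ) ^ 2 := by
        have h0 : (0 : ℝ) ≤ (X : ℝ) ^ (1 / A + ε) * (M.choose k : ℝ) ^ 2 := by positivity
        rw [mul_assoc]
        exact le_mul_of_one_le_left h0 hK1

end Pool.Agent.Y549.SP.NUM
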